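import Pool.Agent.Helper5.CTwo.Freedom

/-!
# Uniqueness of null types and the algebraic part
-/

set_option autoImplicit false

namespace Pool.Agent.Helper5.CTwo

open Set Filter Topology Pool.Agent.Helper6.Str

variable {L : FirstOrder.Language.{0, 0}}

/-- null types are determined by their marginals -/
def UniqNull (Θ : Set (Fml L)) : Prop :=
  ∀ p q σ₁ σ₂ : Ty L, Val Θ p q σ₁ → Val Θ p q σ₂ → σ₁ = σ₂

theorem uniqNull_of_not [∀ n, IsEmpty (L.Functions n)] [∀ n, Countable (L.Relations n)]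
    {Θ : Set (Fml L)} (h : ¬ PerfK (KTh Θ)) : UniqNull Θ := by
  intro p q σ₁ σ₂ h1 h2
  by_contra hne
  exact h (perfK_of_two_null h1.real h2.real h1.neq h2.neq h1.null h2.null
    (h1.left.trans h2.left.symm) (h1.right.trans h2.right.symm) hne)

/-- the nonalgebraic types -/
def NA (Θ : Set (Fml L)) : Set (Ty L) :=
  {p | ∃ (S : L.Structure ℕ) (a : ℕ), Th S = Θ ∧ ¬ IsAlg S a ∧ ty S a a = p}

open Classical in
/-- the null type with given marginals -/
noncomputable def nu (Θ : Set (Fml L)) (p q : Ty L) : Ty L :=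
  if h : ∃ t, Val Θ p q t then h.choose else fun _ => false

theorem nu_val [∀ n, IsEmpty (L.Functions n)] [∀ n, Countable (L.Relations n)]
    {Θ : Set (Fml L)} {p q : Ty L} (hp : p ∈ NA Θ) (hq : q ∈ NA Θ) : Val Θ p q (nu Θ p q) := by
  classical
  have h : ∃ t, Val Θ p q t := by
    obtain ⟨S, a, rfl, ha, rfl⟩ := hp
    obtain ⟨S', b, hS', hb, rfl⟩ := hq
    obtain ⟨t, h1, h2, h3, h4, h5⟩ := exists_null hS'.symm ha hb
    exact ⟨t, h1, h3, h2, h4, h5⟩
  unfold nu
  rw [dif_pos h]
  exact h.choose_spec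

theorem nu_unique {Θ : Set (Fml L)} (hU : UniqNull Θ) {p q t : Ty L} (h : Val Θ p q t) :
    t = nu Θ p q := by
  classical
  have h' : ∃ t, Val Θ p q t := ⟨t, h⟩
  unfold nu
  rw [dif_pos h']
  exact hU p q _ _ h h'.choose_spec

theorem nu_swp [∀ n, IsEmpty (L.Functions n)] [∀ n, Countable (L.Relations n)]
    {Θ : Set (Fml L)} (hU : UniqNull Θ) {p q : Ty L} (hp : p ∈ NA Θ) (hq : q ∈ NA Θ) :
    nu Θ q p = swp (nu Θ p q) :=
  (nu_unique hU (nu_val hp hq).swp).symm

/-! ### The matrices realised in a structure -/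

/-- finite matrices of types -/
abbrev Mx (Θ : Set (Fml L)) : Type := (k : ℕ) × (Fin k → Fin k → Rl Θ)

/-- the set of finite matrices realised in a structure -/
noncomputable def matI (Θ : Set (Fml L)) (S : L.Structure ℕ) : Mx Θ → Bool :=
  open Classical in
  fun m => decide (∃ v : Fin m.1 → ℕ, ∀ i j, ty S (v i) (v j) = m.2 i j)

theorem matI_iff {Θ : Set (Fml L)} (S : L.Structure ℕ) (m : Mx Θ) :
    matI Θ S m = true ↔ ∃ v : Fin m.1 → ℕ, ∀ i j, ty S (v i) (v j) = m.2 i j := by
  simp [matI]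

theorem matI_of_iso {Θ : Set (Fml L)} {S S' : L.Structure ℕ} (h : Iso S S') :
    matI Θ S = matI Θ S' := by
  obtain ⟨e, he⟩ := h
  funext m
  rw [Bool.eq_iff_iff, matI_iff, matI_iff]
  constructor
  · rintro ⟨v, hv⟩
    exact ⟨fun i => e (v i), fun i j => by rw [ty_of_relIso he, hv]⟩
  · rintro ⟨v, hv⟩
    exact ⟨fun i => e.symm (v i), fun i j => by rw [ty_of_relIso he.symm, hv]⟩

theorem perfK_of_mat [∀ n, IsEmpty (L.Functions n)] [∀ n, Countable (L.Relations n)]
    {Θ : Set (Fml L)} (hc : (Rl Θ).Countable)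
    (h : ¬ {z : Mx Θ → Bool | ∃ S ∈ KTh Θ, matI Θ S = z}.Countable) : PerfK (KTh Θ) := by
  have := hc.to_subtype
  refine perfK_of_reals (J := Unit) (B := fun _ => {c : Code L | Th (toStr c) = Θ})
    (fun _ => measurableSet_Th _) (fun _ c hc => hc) (Y := Mx Θ → Bool)
    (Z := fun _ c => matI Θ (toStr c)) ?_ ?_ ?_
  · intro _
    rw [measurable_pi_iff]
    intro m
    refine measurable_to_bool ?_
    have : (fun c : Code L => matI Θ (toStr c) m) ⁻¹' {true} =
        ⋃ v : Fin m.1 → ℕ, ⋂ i, ⋂ j, {c : Code L | ty (toStr c) (v i) (v j) = m.2 i j} := by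
      ext c
      simp only [mem_preimage, mem_singleton_iff, matI_iff, mem_iUnion, mem_iInter, mem_ofPred_eq]
    rw [this]
    exact MeasurableSet.iUnion fun v => MeasurableSet.iInter fun i => MeasurableSet.iInter fun j =>
      measurableSet_ty_eq _ _ _
  · rintro _ _ c _ d _ hcd
    exact ⟨(), matI_of_iso hcd⟩
  · intro hcon
    apply h
    refine hcon.mono ?_
    rintro z ⟨S, hS, rfl⟩
    rw [mem_iUnion]
    refine ⟨(), ofStr S, ?_, ?_⟩
    · show Th (toStr (ofStr S)) = Θ
      rw [toStr_ofStr]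
      exact hS
    · show matI Θ (toStr (ofStr S)) = _
      rw [toStr_ofStr]

/-! ### Matching algebraic parts -/

/-- A marking of the algebraic part of `S'` by that of `S`. -/
def Marks (S S' : L.Structure ℕ) (g : {x // IsAlg S x} → ℕ) : Prop :=
  (∀ f f', ty S' (g f) (g f') = ty S f f') ∧ ∀ c, IsAlg S' c ↔ c ∈ range g

theorem ncard_eq_of_Th {S S' : L.Structure ℕ} (h : Th S = Th S') (φ : Fml L) :
    {c | Holds S φ c c}.encard = {c | Holds S' φ c c}.encard := by
  have key : ∀ n : ℕ, (n : ℕ∞) ≤ {c | Holds S φ c c}.encard ↔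
      (n : ℕ∞) ≤ {c | Holds S' φ c c}.encard := by
    have h1 : ∀ (S : L.Structure ℕ) (n : ℕ), (n : ℕ∞) ≤ {c | Holds S φ c c}.encard ↔
        Fml.exY n (dY φ) ∈ Th S := by
      intro S n
      simp only [Th, mem_ofPred_eq, Holds, holds_dY]
      exact ⟨fun h _ _ => h, fun h => h 0 0⟩
    intro n
    rw [h1, h1, h]
  refine le_antisymm ?_ ?_
  · refine ENat.forall_natCast_le_iff_le.mp fun n hn => (key n).mp hn
  · refine ENat.forall_natCast_le_iff_le.mp fun n hn => (key n).mpr hn

theorem exists_marks {Θ : Set (Fml L)} {S S' : L.Structure ℕ} (hS : Th S = Θ) (hS' : Th S' = Θ)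
    (h : matI Θ S = matI Θ S') : ∃ g, Marks S S' g := by
  classical
  -- finite approximations
  have hfin : ∀ s : Finset {x // IsAlg S x}, ∃ g : {x // IsAlg S x} → ℕ,
      ∀ f ∈ s, ∀ f' ∈ s, ty S' (g f) (g f') = ty S f f' := by
    intro s
    let e := s.equivFin
    let m : Mx Θ := ⟨s.card, fun i j => ⟨ty S (e.symm i).1 (e.symm j).1, S, _, _, hS, rfl⟩⟩
    have h1 : matI Θ S m = true := by
      rw [matI_iff]
      exact ⟨fun i => (e.symm i).1, fun i j => rfl⟩
    rw [h, matI_iff] at h1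
    obtain ⟨v, hv⟩ := h1
    refine ⟨fun f => if hf : f ∈ s then v (e ⟨f, hf⟩) else 0, fun f hf f' hf' => ?_⟩
    simp only [dif_pos hf, dif_pos hf']
    have := hv (e ⟨f, hf⟩) (e ⟨f', hf'⟩)
    simpa [m] using this
  choose g hg using hfin
  let U : Ultrafilter (Finset {x // IsAlg S x}) := Ultrafilter.of atTop
  have hU : (U : Filter (Finset {x // IsAlg S x})) ≤ atTop := Ultrafilter.of_le atTop
  have hev : ∀ f, ∀ᶠ s in (U : Filter (Finset {x // IsAlg S x})), f ∈ s := by
    intro f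
    have : ∀ᶠ s in (atTop : Filter (Finset {x // IsAlg S x})), f ∈ s := by
      filter_upwards [eventually_ge_atTop {f}] with s hs
      exact hs (Finset.mem_singleton_self f)
    exact hU this
  have hlim : ∀ f : {x // IsAlg S x}, ∃ c, ∀ᶠ s in (U : Filter (Finset {x // IsAlg S x})),
      g s f = c := by
    intro f
    obtain ⟨φ, h1, h2⟩ := f.2
    have h3 : {c | Holds S' φ c c}.Finite := by
      rw [← Set.encard_lt_top_iff, ← ncard_eq_of_Th (hS.trans hS'.symm) φ]
      exact h2.encard_lt_top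
    have h4 : ∀ᶠ s in (U : Filter (Finset {x // IsAlg S x})),
        ∃ c ∈ {c | Holds S' φ c c}, g s f = c := by
      filter_upwards [hev f] with s hs
      refine ⟨g s f, ?_, rfl⟩
      have := hg s f hs f hs
      show Holds S' φ (g s f) (g s f)
      rw [← ty_iff, this, ty_iff]
      exact h1
    rw [Ultrafilter.eventually_exists_mem_iff h3] at h4
    obtain ⟨c, -, hc⟩ := h4
    exact ⟨c, hc⟩
  choose G hG using hlim
  have hGty : ∀ f f', ty S' (G f) (G f') = ty S f f' := by
    intro f f'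
    obtain ⟨s, ⟨⟨⟨hs1, hs2⟩, hs3⟩, hs4⟩⟩ :=
      (((hG f).and (hG f')).and (hev f)).and (hev f') |>.exists
    rw [← hs1, ← hs2]
    exact hg s f hs3 f' hs4
  have hGinj : Function.Injective G := by
    intro f f' hff
    have h1 := hGty f f'
    rw [hff] at h1
    have h2 : ty S' (G f') (G f') .eq = true := by rw [ty_iff]; rfl
    rw [h1, ty_iff] at h2
    exact Subtype.ext h2
  refine ⟨G, hGty, fun c => ⟨fun hc => ?_, ?_⟩⟩
  · obtain ⟨φ, h1, h2⟩ := hc
    have h3 : {c | Holds S φ c c}.Finite := by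
      rw [← Set.encard_lt_top_iff, ncard_eq_of_Th (hS.trans hS'.symm) φ]
      exact h2.encard_lt_top
    have h4 : ∀ x, Holds S φ x x → IsAlg S x := fun x hx => ⟨φ, hx, h3⟩
    have hsub : G '' {f | Holds S φ f f} ⊆ {c | Holds S' φ c c} := by
      rintro _ ⟨f, hf, rfl⟩
      simp only [mem_ofPred_eq] at hf ⊢
      rw [← ty_iff, hGty, ty_iff]
      exact hf
    have hcard : {c | Holds S' φ c c}.encard ≤ (G '' {f | Holds S φ f f}).encard := by
      rw [hGinj.encard_image, ← ncard_eq_of_Th (hS.trans hS'.symm) φ]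
      have : {c | Holds S φ c c} = Subtype.val '' {f : {x // IsAlg S x} | Holds S φ f f} := by
        ext x
        constructor
        · intro hx
          exact ⟨⟨x, h4 x hx⟩, hx, rfl⟩
        · rintro ⟨f, hf, rfl⟩
          exact hf
      rw [this, Subtype.val_injective.encard_image]
    have heq := Set.Finite.eq_of_subset_of_encard_le (h2.subset hsub) hsub hcard
    have : c ∈ G '' {f | Holds S φ f f} := by rw [heq]; exact h1
    obtain ⟨f, -, hf⟩ := this
    exact ⟨f, hf⟩
  · rintro ⟨f, rfl⟩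
    exact (isAlg_iff_of_ty (hGty f f)).mpr f.2

end Pool.Agent.Helper5.CTwo
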