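import Pool.Agent.Helper6.StructTools

/-!
# Two-variable logic with counting: formulas, semantics, types
-/

set_option autoImplicit false

namespace Pool.Agent.Helper5.CTwo

open Set Pool.Agent.Helper6.Str

/-- Formulas of two-variable logic with counting quantifiers over a relational language.  The two
variables are `x` (coded by `false`) and `y` (coded by `true`).  `exX n φ` says that there are at
least `n` values of `x` with `φ`, and similarly for `exY`. -/
inductive Fml (L : FirstOrder.Language.{0, 0}) : Type
  | eq : Fml L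
  | rel {n : ℕ} (R : L.Relations n) (w : Fin n → Bool) : Fml L
  | neg (φ : Fml L) : Fml L
  | and (φ ψ : Fml L) : Fml L
  | exX (n : ℕ) (φ : Fml L) : Fml L
  | exY (n : ℕ) (φ : Fml L) : Fml L

variable {L : FirstOrder.Language.{0, 0}} {M N P : Type}

/-- Satisfaction of a formula when `x` is `a` and `y` is `b`. -/
def Holds (S : L.Structure M) : Fml L → M → M → Prop
  | .eq, a, b => a = b
  | .rel R w, a, b => S.RelMap R (fun i => if w i then b else a)
  | .neg φ, a, b => ¬ Holds S φ a b
  | .and φ ψ, a, b => Holds S φ a b ∧ Holds S ψ a b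
  | .exX n φ, _, b => (n : ℕ∞) ≤ {c | Holds S φ c b}.encard
  | .exY n φ, a, _ => (n : ℕ∞) ≤ {c | Holds S φ a c}.encard

/-- Exchange of the two variables. -/
def swapF : Fml L → Fml L
  | .eq => .eq
  | .rel R w => .rel R (fun i => !(w i))
  | .neg φ => .neg (swapF φ)
  | .and φ ψ => .and (swapF φ) (swapF ψ)
  | .exX n φ => .exY n (swapF φ)
  | .exY n φ => .exX n (swapF φ)

theorem holds_swapF (S : L.Structure M) (φ : Fml L) :
    ∀ a b, Holds S (swapF φ) a b ↔ Holds S φ b a := by
  induction φ with
  | eq => intro a b; exact ⟨fun h => h.symm, fun h => h.symm⟩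
  | rel R w =>
    intro a b
    simp only [swapF, Holds]
    have : (fun i => if (!(w i)) = true then b else a) = (fun i => if w i = true then a else b) := by
      funext i
      cases w i <;> simp
    rw [this]
  | neg φ ih => intro a b; simp only [swapF, Holds, ih]
  | and φ ψ ih1 ih2 => intro a b; simp only [swapF, Holds, ih1, ih2]
  | exX n φ ih => intro a b; simp only [swapF, Holds, ih]
  | exY n φ ih => intro a b; simp only [swapF, Holds, ih]

/-- `φ(x,x)` -/
def dX (φ : Fml L) : Fml L := .exY 1 (.and .eq φ)

/-- `φ(y,y)` -/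
def dY (φ : Fml L) : Fml L := .exX 1 (.and .eq φ)

theorem one_le_encard_iff {α : Type*} (A : Set α) : ((1 : ℕ) : ℕ∞) ≤ A.encard ↔ A.Nonempty := by
  rw [Nat.cast_one, Set.one_le_encard_iff_nonempty]

theorem holds_dX (S : L.Structure M) (φ : Fml L) (a b : M) :
    Holds S (dX φ) a b ↔ Holds S φ a a := by
  simp only [dX, Holds, one_le_encard_iff]
  constructor
  · rintro ⟨c, hc1, hc2⟩
    subst hc1
    exact hc2
  · intro h
    exact ⟨a, rfl, h⟩

theorem holds_dY (S : L.Structure M) (φ : Fml L) (a b : M) :
    Holds S (dY φ) a b ↔ Holds S φ b b := by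
  simp only [dY, Holds, one_le_encard_iff]
  constructor
  · rintro ⟨c, hc1, hc2⟩
    subst hc1
    exact hc2
  · intro h
    exact ⟨b, rfl, h⟩

/-- the universal closure -/
def allF (φ : Fml L) : Fml L := .neg (.exX 1 (.exY 1 (.neg φ)))

theorem holds_allF (S : L.Structure M) (φ : Fml L) (a b : M) :
    Holds S (allF φ) a b ↔ ∀ c d, Holds S φ c d := by
  simp only [allF, Holds, one_le_encard_iff]
  constructor
  · intro h c d
    by_contra hc
    exact h ⟨c, d, hc⟩
  · rintro h ⟨c, d, hc⟩
    exact hc (h c d)

/-! ### Types -/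

/-- Complete types: truth assignments to formulas. -/
abbrev Ty (L : FirstOrder.Language.{0, 0}) : Type := Fml L → Bool

/-- The type of a pair. -/
noncomputable def ty (S : L.Structure M) (a b : M) : Ty L :=
  open Classical in fun φ => decide (Holds S φ a b)

theorem ty_iff (S : L.Structure M) (a b : M) (φ : Fml L) :
    ty S a b φ = true ↔ Holds S φ a b := by
  simp [ty]

theorem ty_false_iff (S : L.Structure M) (a b : M) (φ : Fml L) :
    ty S a b φ = false ↔ ¬ Holds S φ a b := by
  simp [ty]

theorem ty_eq_iff {S : L.Structure M} {S' : L.Structure N} {a b : M} {c d : N} :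
    ty S a b = ty S' c d ↔ ∀ φ, Holds S φ a b ↔ Holds S' φ c d := by
  constructor
  · intro h φ
    rw [← ty_iff, ← ty_iff, h]
  · intro h
    funext φ
    rw [Bool.eq_iff_iff, ty_iff, ty_iff, h φ]

def left (t : Ty L) : Ty L := fun φ => t (dX φ)

def right (t : Ty L) : Ty L := fun φ => t (dY φ)

def swp (t : Ty L) : Ty L := fun φ => t (swapF φ)

theorem left_ty (S : L.Structure M) (a b : M) : left (ty S a b) = ty S a a := by
  funext φ
  rw [Bool.eq_iff_iff]
  simp only [left, ty_iff, holds_dX]

theorem right_ty (S : L.Structure M) (a b : M) : right (ty S a b) = ty S b b := by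
  funext φ
  rw [Bool.eq_iff_iff]
  simp only [right, ty_iff, holds_dY]

theorem swp_ty (S : L.Structure M) (a b : M) : swp (ty S a b) = ty S b a := by
  funext φ
  rw [Bool.eq_iff_iff]
  simp only [swp, ty_iff, holds_swapF]

/-- The theory of a structure (universal closures of formulas). -/
def Th (S : L.Structure M) : Set (Fml L) := {φ | ∀ a b, Holds S φ a b}

/-- The theory determined by a type. -/
def thy (t : Ty L) : Set (Fml L) := {φ | t (allF φ) = true}

theorem thy_ty (S : L.Structure M) (a b : M) : thy (ty S a b) = Th S := by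
  ext φ
  simp only [thy, Th, mem_ofPred_eq, ty_iff, holds_allF]

/-! ### Isomorphisms preserve types -/

theorem encard_preimage_equiv {α β : Type*} (e : α ≃ β) (A : Set α) (B : Set β)
    (h : ∀ a, a ∈ A ↔ e a ∈ B) : A.encard = B.encard := by
  have : B = e '' A := by
    ext b
    constructor
    · intro hb
      exact ⟨e.symm b, (h _).mpr (by simpa using hb), by simp⟩
    · rintro ⟨a, ha, rfl⟩
      exact (h a).mp ha
  rw [this, e.injective.encard_image]

theorem holds_of_relIso {S : L.Structure M} {S' : L.Structure N} {e : M ≃ N}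
    (h : RelIso S S' e) (φ : Fml L) : ∀ a b, Holds S φ a b ↔ Holds S' φ (e a) (e b) := by
  induction φ with
  | eq => intro a b; simp [Holds]
  | rel R w =>
    intro a b
    simp only [Holds]
    rw [h _ R]
    have : (⇑e ∘ fun i => if w i = true then b else a) =
        fun i => if w i = true then e b else e a := by
      funext i
      simp only [Function.comp]
      split <;> rfl
    rw [this]
  | neg φ ih => intro a b; simp only [Holds, ih]
  | and φ ψ ih1 ih2 => intro a b; simp only [Holds, ih1, ih2]
  | exX n φ ih =>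
    intro a b
    simp only [Holds]
    rw [encard_preimage_equiv e {c | Holds S φ c b} {c | Holds S' φ c (e b)} (fun c => ih c b)]
  | exY n φ ih =>
    intro a b
    simp only [Holds]
    rw [encard_preimage_equiv e {c | Holds S φ a c} {c | Holds S' φ (e a) c} (fun c => ih a c)]

theorem ty_of_relIso {S : L.Structure M} {S' : L.Structure N} {e : M ≃ N}
    (h : RelIso S S' e) (a b : M) : ty S' (e a) (e b) = ty S a b :=
  ty_eq_iff.mpr fun φ => (holds_of_relIso h φ a b).symm

theorem Th_of_iso {S : L.Structure M} {S' : L.Structure N} (h : Iso S S') : Th S = Th S' := by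
  obtain ⟨e, he⟩ := h
  ext φ
  simp only [Th, mem_ofPred_eq]
  constructor
  · intro h1 a b
    have := (holds_of_relIso he φ (e.symm a) (e.symm b)).mp (h1 _ _)
    simpa using this
  · intro h1 a b
    exact (holds_of_relIso he φ a b).mpr (h1 _ _)

/-! ### Structures from types -/

/-- choose between two elements -/
def pick {n : ℕ} (w : Fin n → Bool) (a b : M) : Fin n → M := fun i => if w i then b else a

/-- The structure `S` has the atomic facts prescribed by `T`. -/
def AtomOK (S : L.Structure M) (T : M → M → Ty L) : Prop :=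
  ∀ (e e' : M) (n : ℕ) (R : L.Relations n) (w : Fin n → Bool),
    S.RelMap R (pick w e e') ↔ T e e' (.rel R w) = true

/-- Coherence of a type assignment. -/
structure Coh (T : M → M → Ty L) : Prop where
  real : ∀ e e', ∃ (S : L.Structure ℕ) (c d : ℕ), T e e' = ty S c d
  swap : ∀ e e', T e' e = swp (T e e')
  left : ∀ e e', left (T e e') = T e e
  eq : ∀ e e', T e e' .eq = true ↔ e = e'

/-- The counts are right. -/
def Cnt (T : M → M → Ty L) : Prop :=
  ∀ (e : M) (φ : Fml L) (n : ℕ),
    T e e (.exY n φ) = true ↔ (n : ℕ∞) ≤ {e' | T e e' φ = true}.encard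

theorem Coh.right {T : M → M → Ty L} (h : Coh T) (e e' : M) : right (T e e') = T e' e' := by
  obtain ⟨S, c, d, hcd⟩ := h.real e e'
  have h1 := h.left e' e
  rw [h.swap e e', hcd, swp_ty, left_ty] at h1
  rw [hcd, right_ty, h1]

theorem transfer {S : L.Structure M} {T : M → M → Ty L} (hA : AtomOK S T) (hC : Coh T)
    (hN : Cnt T) (φ : Fml L) : ∀ e e', Holds S φ e e' ↔ T e e' φ = true := by
  induction φ with
  | eq => intro e e'; rw [hC.eq]; rfl
  | rel R w => intro e e'; exact hA e e' _ R w
  | neg φ ih =>
    intro e e'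
    obtain ⟨S₀, c, d, hcd⟩ := hC.real e e'
    simp only [Holds, ih]
    rw [hcd, ty_iff, ty_iff]
    rfl
  | and φ ψ ih1 ih2 =>
    intro e e'
    obtain ⟨S₀, c, d, hcd⟩ := hC.real e e'
    simp only [Holds, ih1, ih2]
    rw [hcd, ty_iff, ty_iff, ty_iff]
    rfl
  | exX n φ ih =>
    intro e e'
    obtain ⟨S₀, c, d, hcd⟩ := hC.real e e'
    simp only [Holds, ih]
    have h1 : {c | T c e' φ = true} = {c | T e' c (swapF φ) = true} := by
      ext x
      simp only [mem_ofPred_eq]
      rw [hC.swap e' x]
      rfl
    rw [h1, ← hN e' (swapF φ) n, ← hC.right e e', hcd, right_ty, ty_iff, ty_iff]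
    simp only [Holds, holds_swapF]
  | exY n φ ih =>
    intro e e'
    obtain ⟨S₀, c, d, hcd⟩ := hC.real e e'
    simp only [Holds, ih]
    rw [← hN e φ n, ← hC.left e e', hcd, left_ty, ty_iff, ty_iff]
    rfl

theorem ty_transfer {S : L.Structure M} {T : M → M → Ty L} (hA : AtomOK S T) (hC : Coh T)
    (hN : Cnt T) (e e' : M) : ty S e e' = T e e' := by
  funext φ
  rw [Bool.eq_iff_iff, ty_iff, transfer hA hC hN]

/-- The structure prescribed by a type assignment. -/
@[instance_reducible]
def relOf [∀ n, IsEmpty (L.Functions n)] (T : M → M → Ty L) : L.Structure M :=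
  { funMap := fun f _ => isEmptyElim f
    RelMap := fun {n} R v => ∃ (e e' : M) (w : Fin n → Bool),
      v = pick w e e' ∧ T e e' (.rel R w) = true }

theorem pick_const {n : ℕ} (w w' : Fin n → Bool) (a : M) : pick w a a = pick w' a a := by
  funext i
  simp [pick]

theorem ty_rel (S : L.Structure M) {n : ℕ} (R : L.Relations n) (w : Fin n → Bool) (a b : M) :
    ty S a b (.rel R w) = true ↔ S.RelMap R (pick w a b) := by
  rw [ty_iff]; rfl

theorem pick_eq_cases {n : ℕ} (w w' : Fin n → Bool) {a b a' b' : M}
    (h : pick w a b = pick w' a' b') :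
    (w = w' ∧ a = a' ∧ b = b') ∨ (w = (fun i => !(w' i)) ∧ a = b' ∧ b = a') ∨
    (∃ c, (c = a ∨ c = b) ∧ (c = a' ∨ c = b') ∧ (∀ i, pick w a b i = c)) ∨ n = 0 := by
  classical
  rcases Nat.eq_zero_or_pos n with hn | hn
  · exact Or.inr (Or.inr (Or.inr hn))
  have hk : ∀ i, (if w i then b else a) = (if w' i then b' else a') := fun i => congrFun h i
  by_cases hall : ∃ c, ∀ i, pick w a b i = c
  · obtain ⟨c, hc⟩ := hall
    right; right; left
    refine ⟨c, ?_, ?_, hc⟩
    · have := hc ⟨0, hn⟩
      simp only [pick] at this
      split at this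
      · exact Or.inr this.symm
      · exact Or.inl this.symm
    · have := hc ⟨0, hn⟩
      rw [h] at this
      simp only [pick] at this
      split at this
      · exact Or.inr this.symm
      · exact Or.inl this.symm
  · have hab : a ≠ b := by
      rintro rfl
      exact hall ⟨a, fun i => by simp [pick]⟩
    have ⟨i, hi⟩ : ∃ i, w i = true := by
      by_contra hcon
      push Not at hcon
      exact hall ⟨a, fun i => by simp [pick, hcon i]⟩
    have ⟨j, hj⟩ : ∃ j, w j = false := by
      by_contra hcon
      push Not at hcon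
      refine hall ⟨b, fun i => ?_⟩
      have := hcon i
      simp only [ne_eq, Bool.not_eq_false] at this
      simp [pick, this]
    have hi' := hk i
    have hj' := hk j
    rw [hi] at hi'
    rw [hj] at hj'
    simp only [if_true] at hi'
    cases hwi : w' i <;> cases hwj : w' j <;> rw [hwi] at hi' <;> rw [hwj] at hj' <;>
      simp at hi' hj'
    · exact absurd (hj'.trans hi'.symm) hab
    · -- w' i = false, w' j = true : swapped
      right; left
      refine ⟨?_, hj', hi'⟩
      funext k
      have hk' := hk k
      cases hwk : w k <;> cases hwk' : w' k <;> rw [hwk, hwk'] at hk' <;> simp at hk' ⊢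
      · exact hab (hk'.trans hi'.symm)
      · exact hab (hj'.trans hk'.symm)
    · left
      refine ⟨?_, hj', hi'⟩
      funext k
      have hk' := hk k
      cases hwk : w k <;> cases hwk' : w' k <;> rw [hwk, hwk'] at hk' <;> simp at hk' ⊢
      · exact hab (hk'.trans hi'.symm)
      · exact hab (hj'.trans hk'.symm)
    · exact absurd (hj'.trans hi'.symm) hab

theorem atomOK_relOf [∀ n, IsEmpty (L.Functions n)] {T : M → M → Ty L} (hC : Coh T) :
    AtomOK (relOf T) T := by
  have key : ∀ {n : ℕ} (R : L.Relations n) (w w' : Fin n → Bool) (a b c : M),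
      (c = a ∨ c = b) → (∀ i, pick w a b i = c) →
      (T a b (.rel R w) = true ↔ T c c (.rel R w') = true) := by
    intro n R w w' a b c hc hi
    obtain ⟨S, p, q, hpq⟩ := hC.real a b
    have hpe : a = b ↔ p = q := by
      rw [← hC.eq a b, hpq, ty_iff]; rfl
    rcases hc with rfl | rfl
    · rw [← hC.left c b, hpq, left_ty, ty_rel, ty_rel]
      have : pick w p q = pick w' p p := by
        funext i
        have := hi i
        simp only [pick] at this ⊢
        split at this
        · rw [hpe.mp this.symm]; simp
        · split <;> simp_all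
      rw [this]
    · rw [← hC.right a c, hpq, right_ty, ty_rel, ty_rel]
      have : pick w p q = pick w' q q := by
        funext i
        have := hi i
        simp only [pick] at this ⊢
        split at this
        · split <;> simp_all
        · rw [hpe.mp this]; simp
      rw [this]
  intro e e' n R w
  constructor
  · rintro ⟨a, b, w', hv, hT⟩
    rcases pick_eq_cases w w' hv with ⟨h1, h2, h3⟩ | ⟨h1, h2, h3⟩ | ⟨c, h1, h2, h3⟩ | h0
    · rw [h1, h2, h3]; exact hT
    · subst h2 h3
      obtain ⟨S, p, q, hpq⟩ := hC.real e' e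
      rw [hC.swap e' e, hpq, swp_ty, h1, ty_rel]
      rw [hpq, ty_rel] at hT
      have : pick (fun i => !(w' i)) q p = pick w' p q := by
        funext i
        simp only [pick]
        rcases Bool.eq_false_or_eq_true (w' i) with h | h <;> simp [h]
      rw [this]
      exact hT
    · rw [key R w w e e' c h1 h3]
      rw [hv] at h3
      exact (key R w' w a b c h2 h3).mp hT
    · subst h0
      -- nullary relations: go through the pair (e, a)
      rw [key R w w e e' e (Or.inl rfl) (fun i => i.elim0)]
      rw [key R w' w a b a (Or.inl rfl) (fun i => i.elim0)] at hT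
      rw [← key R w w e a e (Or.inl rfl) (fun i => i.elim0)]
      rw [key R w w e a a (Or.inr rfl) (fun i => i.elim0)]
      exact hT
  · intro h
    exact ⟨e, e', w, rfl, h⟩

/-- Transport of a structure along a bijection. -/
@[instance_reducible]
def push [∀ n, IsEmpty (L.Functions n)] (S : L.Structure M) (e : M ≃ N) : L.Structure N :=
  { funMap := fun f _ => isEmptyElim f
    RelMap := fun {_} R v => S.RelMap R (e.symm ∘ v) }

theorem relIso_push [∀ n, IsEmpty (L.Functions n)] (S : L.Structure M) (e : M ≃ N) :
    RelIso S (push S e) e := by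
  intro n R v
  show _ ↔ S.RelMap R (e.symm ∘ (e ∘ v))
  have : e.symm ∘ (e ∘ v) = v := by ext k; simp
  rw [this]

/-- The induced substructure. -/
@[instance_reducible]
def restr [∀ n, IsEmpty (L.Functions n)] (S : L.Structure M) (C : Set M) : L.Structure C :=
  { funMap := fun f _ => isEmptyElim f
    RelMap := fun {_} R v => S.RelMap R (Subtype.val ∘ v) }

/-- A structure on `ℕ` realising a type assignment. -/
theorem exists_model [∀ n, IsEmpty (L.Functions n)] [Countable M] [Infinite M]
    {T : M → M → Ty L} (hC : Coh T) (hN : Cnt T) :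
    ∃ (S : L.Structure ℕ) (e : M ≃ ℕ), RelIso (relOf T) S e ∧
      ∀ x y, ty S (e x) (e y) = T x y := by
  obtain ⟨i⟩ := nonempty_denumerable M
  let e : M ≃ ℕ := Denumerable.eqv M
  refine ⟨push (relOf T) e, e, relIso_push _ _, fun x y => ?_⟩
  rw [ty_of_relIso (relIso_push (relOf T) e), ty_transfer (atomOK_relOf hC) hC hN]

/-- In a language with relations of arity at most two, a bijection preserving types is an
isomorphism. -/
theorem relIso_of_ty (hL : ∀ n, 3 ≤ n → IsEmpty (L.Relations n)) [Nonempty M]
    {S : L.Structure M} {S' : L.Structure N} (e : M ≃ N)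
    (h : ∀ a b, ty S' (e a) (e b) = ty S a b) : RelIso S S' e := by
  intro n R v
  have hv : ∃ (a b : M) (w : Fin n → Bool), v = pick w a b := by
    match n, R, v with
    | 0, _, v =>
      obtain ⟨a⟩ := ‹Nonempty M›
      exact ⟨a, a, fun i => i.elim0, by funext i; exact i.elim0⟩
    | 1, _, v =>
      exact ⟨v 0, v 0, fun _ => false, by funext i; simp [pick, Subsingleton.elim i 0]⟩
    | 2, _, v =>
      refine ⟨v 0, v 1, fun i => decide (i = 1), ?_⟩
      funext i
      match i with
      | 0 => simp [pick]
      | 1 => simp [pick]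
    | (k + 3), R, _ => exact ((hL (k + 3) (by omega)).false R).elim
  obtain ⟨a, b, w, rfl⟩ := hv
  have h1 : e ∘ pick w a b = pick w (e a) (e b) := by
    funext i
    simp only [pick, Function.comp]
    split <;> rfl
  rw [h1, ← ty_rel, ← ty_rel, h a b]

end Pool.Agent.Helper5.CTwo
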