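import Pool.Agent.Helper5.CTwo.Basic

/-!
# Compactness and downward Löwenheim-Skolem for two-variable logic with counting
-/

set_option autoImplicit false

namespace Pool.Agent.Helper5.CTwo

open Set Filter Topology Pool.Agent.Helper6.Str

variable {L : FirstOrder.Language.{0, 0}} {M N P : Type}

theorem le_encard_iff {α : Type*} (A : Set α) (n : ℕ) :
    (n : ℕ∞) ≤ A.encard ↔ ∃ v : Fin n → α, Function.Injective v ∧ ∀ i, v i ∈ A := by
  constructor
  · intro h
    obtain ⟨B, hBA, hB⟩ := Set.exists_subset_encard_eq h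
    have hf : B.Finite := Set.finite_of_encard_eq_coe hB
    have hc : B.ncard = n := by
      have := hf.cast_ncard_eq
      rw [hB] at this
      exact_mod_cast this
    have := hf.fintype
    have hcard : Fintype.card B = n := by
      rw [← hc, Set.ncard_eq_toFinset_card', Set.toFinset_card]
    let e := (Fintype.equivFinOfCardEq hcard).symm
    exact ⟨fun i => e i, fun i j hij => e.injective (Subtype.ext hij), fun i => hBA (e i).2⟩
  · rintro ⟨v, hv, hvA⟩
    have h1 : (range v).encard = n := by
      rw [← Set.image_univ, hv.encard_image]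
      simp [Set.encard_univ]
    rw [← h1]
    exact Set.encard_le_encard (by rintro _ ⟨i, rfl⟩; exact hvA i)

/-! ### Countability of the set of formulas -/

section countable

variable (L)

/-- formulas of bounded depth -/
def lev : ℕ → Set (Fml L)
  | 0 => ∅
  | (k + 1) => {.eq} ∪ (⋃ n, range (fun p : L.Relations n × (Fin n → Bool) => Fml.rel p.1 p.2)) ∪
      (Fml.neg '' lev k) ∪ (Set.image2 Fml.and (lev k) (lev k)) ∪ (⋃ n, Fml.exX n '' lev k) ∪
      (⋃ n, Fml.exY n '' lev k)

theorem lev_countable [∀ n, Countable (L.Relations n)] : ∀ k, (lev L k).Countable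
  | 0 => Set.countable_empty
  | (k + 1) => by
    have ih := lev_countable k
    refine Set.Countable.union (Set.Countable.union (Set.Countable.union (Set.Countable.union
      (Set.Countable.union (Set.countable_singleton _) ?_) ?_) ?_) ?_) ?_
    · exact Set.countable_iUnion fun n => Set.countable_range _
    · exact ih.image _
    · exact ih.image2 ih _
    · exact Set.countable_iUnion fun n => ih.image _
    · exact Set.countable_iUnion fun n => ih.image _

theorem lev_mono_succ : ∀ k, lev L k ⊆ lev L (k + 1)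
  | 0 => Set.empty_subset _
  | (k + 1) => by
    have ih := lev_mono_succ k
    intro φ hφ
    simp only [lev] at hφ ⊢
    rcases hφ with ((((hφ | hφ) | hφ) | hφ) | hφ) | hφ
    · exact Or.inl (Or.inl (Or.inl (Or.inl (Or.inl hφ))))
    · exact Or.inl (Or.inl (Or.inl (Or.inl (Or.inr hφ))))
    · exact Or.inl (Or.inl (Or.inl (Or.inr (Set.image_mono ih hφ))))
    · exact Or.inl (Or.inl (Or.inr (Set.image2_subset ih ih hφ)))
    · refine Or.inl (Or.inr ?_)
      obtain ⟨n, hn⟩ := Set.mem_iUnion.mp hφ
      exact Set.mem_iUnion.mpr ⟨n, Set.image_mono ih hn⟩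
    · refine Or.inr ?_
      obtain ⟨n, hn⟩ := Set.mem_iUnion.mp hφ
      exact Set.mem_iUnion.mpr ⟨n, Set.image_mono ih hn⟩

theorem lev_mono {j k : ℕ} (h : j ≤ k) : lev L j ⊆ lev L k := by
  induction h with
  | refl => exact subset_rfl
  | step _ ih => exact ih.trans (lev_mono_succ L _)

theorem exists_lev (φ : Fml L) : ∃ k, φ ∈ lev L k := by
  induction φ with
  | eq => exact ⟨1, Or.inl (Or.inl (Or.inl (Or.inl (Or.inl rfl))))⟩
  | rel R w =>
    exact ⟨1, Or.inl (Or.inl (Or.inl (Or.inl (Or.inr (Set.mem_iUnion.mpr ⟨_, (R, w), rfl⟩)))))⟩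
  | neg φ ih =>
    obtain ⟨k, hk⟩ := ih
    exact ⟨k + 1, Or.inl (Or.inl (Or.inl (Or.inr ⟨φ, hk, rfl⟩)))⟩
  | and φ ψ ih1 ih2 =>
    obtain ⟨k, hk⟩ := ih1
    obtain ⟨j, hj⟩ := ih2
    exact ⟨max k j + 1, Or.inl (Or.inl (Or.inr ⟨φ, lev_mono L (le_max_left _ _) hk, ψ,
      lev_mono L (le_max_right _ _) hj, rfl⟩))⟩
  | exX n φ ih =>
    obtain ⟨k, hk⟩ := ih
    exact ⟨k + 1, Or.inl (Or.inr (Set.mem_iUnion.mpr ⟨n, φ, hk, rfl⟩))⟩
  | exY n φ ih =>
    obtain ⟨k, hk⟩ := ih
    exact ⟨k + 1, Or.inr (Set.mem_iUnion.mpr ⟨n, φ, hk, rfl⟩)⟩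

instance countable_fml [∀ n, Countable (L.Relations n)] : Countable (Fml L) := by
  rw [← Set.countable_univ_iff]
  have : (univ : Set (Fml L)) = ⋃ k, lev L k := by
    ext φ
    simp only [mem_univ, mem_iUnion, true_iff]
    exact exists_lev L φ
  rw [this]
  exact Set.countable_iUnion fun k => lev_countable L k

end countable

/-! ### Downward Löwenheim-Skolem -/

theorem exists_countable_closed {I P : Type} [Countable I] (w : I → P → P) (s : ℕ → P) :
    ∃ C : Set P, C.Countable ∧ (∀ n, s n ∈ C) ∧ ∀ i, ∀ p ∈ C, w i p ∈ C := by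
  refine ⟨range (fun q : List I × ℕ => q.1.foldr w (s q.2)), Set.countable_range _, ?_, ?_⟩
  · intro n
    exact ⟨([], n), rfl⟩
  · rintro i _ ⟨q, rfl⟩
    exact ⟨(i :: q.1, q.2), rfl⟩

theorem ty_restr [∀ n, IsEmpty (L.Functions n)] (S : L.Structure P) (C : Set P)
    (hC : ∀ (φ : Fml L) (n : ℕ), ∀ a ∈ C, (n : ℕ∞) ≤ {c | Holds S φ a c}.encard →
      ∃ v : Fin n → P, Function.Injective v ∧ ∀ i, v i ∈ C ∧ Holds S φ a (v i)) (φ : Fml L) :
    ∀ a b : C, Holds (restr S C) φ a b ↔ Holds S φ a b := by
  induction φ with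
  | eq => intro a b; simp only [Holds]; exact Subtype.ext_iff
  | rel R w =>
    intro a b
    simp only [Holds]
    have : (Subtype.val ∘ fun i => if w i = true then b else a) =
        fun i => if w i = true then (b : P) else a := by
      funext i
      simp only [Function.comp]
      split <;> rfl
    rw [← this]
    exact Iff.rfl
  | neg φ ih => intro a b; simp only [Holds, ih]
  | and φ ψ ih1 ih2 => intro a b; simp only [Holds, ih1, ih2]
  | exX n φ ih =>
    intro a b
    simp only [Holds, ih]
    constructor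
    · rw [le_encard_iff, le_encard_iff]
      rintro ⟨v, hv, hv'⟩
      exact ⟨fun i => v i, Subtype.val_injective.comp hv, hv'⟩
    · intro h
      have h' : (n : ℕ∞) ≤ {c | Holds S (swapF φ) b c}.encard := by
        simpa only [holds_swapF] using h
      obtain ⟨v, hv, hv'⟩ := hC (swapF φ) n b b.2 h'
      rw [le_encard_iff]
      refine ⟨fun i => ⟨v i, (hv' i).1⟩, fun i j hij => hv (congrArg Subtype.val hij), fun i => ?_⟩
      have := (hv' i).2
      rw [holds_swapF] at this
      exact this
  | exY n φ ih =>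
    intro a b
    simp only [Holds, ih]
    constructor
    · rw [le_encard_iff, le_encard_iff]
      rintro ⟨v, hv, hv'⟩
      exact ⟨fun i => v i, Subtype.val_injective.comp hv, hv'⟩
    · intro h
      obtain ⟨v, hv, hv'⟩ := hC φ n a a.2 h
      rw [le_encard_iff]
      exact ⟨fun i => ⟨v i, (hv' i).1⟩, fun i j hij => hv (congrArg Subtype.val hij),
        fun i => (hv' i).2⟩

theorem exists_nat_model [∀ n, IsEmpty (L.Functions n)] [∀ n, Countable (L.Relations n)]
    [Infinite P] (S : L.Structure P) (a b : P) :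
    ∃ (S' : L.Structure ℕ) (c d : ℕ), ty S' c d = ty S a b := by
  classical
  -- witness functions
  have hw : ∀ (q : Fml L × ℕ × ℕ) (p : P), ∃ r : P, True := fun _ p => ⟨p, trivial⟩
  let w : Fml L × ℕ × ℕ → P → P := fun q p =>
    if h : ∃ v : Fin q.2.1 → P, Function.Injective v ∧ ∀ i, Holds S q.1 p (v i) then
      (if h' : q.2.2 < q.2.1 then h.choose ⟨q.2.2, h'⟩ else p)
    else p
  let s : ℕ → P := fun n => match n with
    | 0 => a
    | 1 => b
    | (k + 2) => Infinite.natEmbedding P k
  obtain ⟨C, hCc, hCs, hCw⟩ := exists_countable_closed w s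
  have hCinf : Infinite C := by
    refine Infinite.of_injective (fun k : ℕ => (⟨Infinite.natEmbedding P k, hCs (k + 2)⟩ : C)) ?_
    intro i j hij
    exact (Infinite.natEmbedding P).injective (congrArg Subtype.val hij)
  have hCcount : Countable C := hCc.to_subtype
  have hcl : ∀ (φ : Fml L) (n : ℕ), ∀ a ∈ C, (n : ℕ∞) ≤ {c | Holds S φ a c}.encard →
      ∃ v : Fin n → P, Function.Injective v ∧ ∀ i, v i ∈ C ∧ Holds S φ a (v i) := by
    intro φ n p hp hn
    rw [le_encard_iff] at hn
    have hn' : ∃ v : Fin n → P, Function.Injective v ∧ ∀ i, Holds S φ p (v i) := hn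
    refine ⟨hn'.choose, hn'.choose_spec.1, fun i => ⟨?_, hn'.choose_spec.2 i⟩⟩
    have := hCw (φ, n, i) p hp
    simp only [w] at this
    rw [dif_pos hn', dif_pos i.2] at this
    exact this
  obtain ⟨dn⟩ := nonempty_denumerable C
  let e : C ≃ ℕ := Denumerable.eqv C
  refine ⟨push (restr S C) e, e ⟨a, hCs 0⟩, e ⟨b, hCs 1⟩, ?_⟩
  rw [ty_of_relIso (relIso_push (restr S C) e)]
  exact ty_eq_iff.mpr fun φ => ty_restr S C hcl φ ⟨a, hCs 0⟩ ⟨b, hCs 1⟩

/-! ### Ultraproducts -/

section ultra

variable {α : Type} (U : Ultrafilter α)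

/-- equality almost everywhere -/
def upSetoid : Setoid (α → ℕ) where
  r f g := ∀ᶠ s in (U : Filter α), f s = g s
  iseqv :=
    { refl := fun _ => Eventually.of_forall fun _ => rfl
      symm := fun h => h.mono fun _ h => h.symm
      trans := fun h h' => (h.and h').mono fun _ h => h.1.trans h.2 }

/-- ultrapowers of `ℕ` -/
def UP : Type := Quotient (upSetoid U)

/-- the class of a function -/
def mk (f : α → ℕ) : UP U := Quotient.mk (upSetoid U) f

theorem mk_eq_iff (f g : α → ℕ) : mk U f = mk U g ↔ ∀ᶠ s in (U : Filter α), f s = g s := by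
  constructor
  · intro h
    exact Quotient.exact h
  · intro h
    exact Quotient.sound h

/-- a representative -/
noncomputable def rep (p : UP U) : α → ℕ := Quotient.out p

theorem mk_rep (p : UP U) : mk U (rep U p) = p := Quotient.out_eq p

variable (S : α → L.Structure ℕ)

/-- the ultraproduct structure -/
@[instance_reducible]
noncomputable def ultra [∀ n, IsEmpty (L.Functions n)] : L.Structure (UP U) :=
  { funMap := fun f _ => isEmptyElim f
    RelMap := fun {_} R v => ∀ᶠ s in (U : Filter α), (S s).RelMap R (fun i => rep U (v i) s) }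

variable [∀ n, IsEmpty (L.Functions n)]

theorem ultra_rel {n : ℕ} (R : L.Relations n) (x : Fin n → α → ℕ) :
    (ultra U S).RelMap R (fun i => mk U (x i)) ↔
      ∀ᶠ s in (U : Filter α), (S s).RelMap R (fun i => x i s) := by
  have h1 : ∀ᶠ s in (U : Filter α), ∀ i, rep U (mk U (x i)) s = x i s := by
    rw [eventually_all]
    intro i
    rw [← mk_eq_iff, mk_rep]
  constructor
  · intro h
    have h' : ∀ᶠ s in (U : Filter α), (S s).RelMap R (fun i => rep U (mk U (x i)) s) := h
    filter_upwards [h1, h'] with s hs1 hs2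
    rwa [funext hs1] at hs2
  · intro h
    show ∀ᶠ s in (U : Filter α), (S s).RelMap R (fun i => rep U (mk U (x i)) s)
    filter_upwards [h1, h] with s hs1 hs2
    rwa [funext hs1]

theorem los_key (ψ : Fml L) (n : ℕ) (f : α → ℕ)
    (ih : ∀ f g : α → ℕ, Holds (ultra U S) ψ (mk U f) (mk U g) ↔
        ∀ᶠ s in (U : Filter α), Holds (S s) ψ (f s) (g s)) :
      ((n : ℕ∞) ≤ {c : UP U | Holds (ultra U S) ψ (mk U f) c}.encard ↔
        ∀ᶠ s in (U : Filter α), (n : ℕ∞) ≤ {c | Holds (S s) ψ (f s) c}.encard) := by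
  rw [le_encard_iff]
  constructor
  · rintro ⟨v, hv, hv'⟩
    have h1 : ∀ i, ∀ᶠ s in (U : Filter α), Holds (S s) ψ (f s) (rep U (v i) s) := by
      intro i
      rw [← ih, mk_rep]
      exact hv' i
    have h2 : ∀ p : Fin n × Fin n, p.1 ≠ p.2 →
        ∀ᶠ s in (U : Filter α), rep U (v p.1) s ≠ rep U (v p.2) s := by
      intro p hp
      have : ¬ ∀ᶠ s in (U : Filter α), rep U (v p.1) s = rep U (v p.2) s := by
        intro hcon
        apply hp
        apply hv
        rw [← mk_rep U (v p.1), ← mk_rep U (v p.2)]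
        exact (mk_eq_iff U _ _).mpr hcon
      exact Ultrafilter.eventually_not.mpr this
    have h3 : ∀ᶠ s in (U : Filter α), ∀ p : Fin n × Fin n, p.1 ≠ p.2 →
        rep U (v p.1) s ≠ rep U (v p.2) s := by
      rw [eventually_all]
      intro p
      by_cases hp : p.1 = p.2
      · exact Eventually.of_forall fun s h => absurd hp h
      · exact (h2 p hp).mono fun s h _ => h
    filter_upwards [h3, eventually_all.mpr h1] with s hs1 hs2
    rw [le_encard_iff]
    refine ⟨fun i => rep U (v i) s, fun i j hij => ?_, hs2⟩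
    by_contra hne
    exact hs1 (i, j) hne hij
  · intro h
    have hch : ∀ s, ∃ v : Fin n → ℕ, (n : ℕ∞) ≤ {c | Holds (S s) ψ (f s) c}.encard →
        Function.Injective v ∧ ∀ i, Holds (S s) ψ (f s) (v i) := by
      intro s
      by_cases hs : (n : ℕ∞) ≤ {c | Holds (S s) ψ (f s) c}.encard
      · obtain ⟨v, hv, hv'⟩ := (le_encard_iff _ _).mp hs
        exact ⟨v, fun _ => ⟨hv, hv'⟩⟩
      · exact ⟨fun _ => 0, fun h => absurd h hs⟩
    choose v hv using hch
    refine ⟨fun i => mk U (fun s => v s i), fun i j hij => ?_, fun i => ?_⟩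
    · have hq : ∀ᶠ s in (U : Filter α), v s i = v s j := (mk_eq_iff U _ _).mp hij
      obtain ⟨s, hs1, hs2⟩ := (hq.and h).exists
      exact (hv s hs2).1 hs1
    · show Holds (ultra U S) ψ (mk U f) _
      rw [ih]
      filter_upwards [h] with s hs
      exact (hv s hs).2 i

theorem los (φ : Fml L) : ∀ f g : α → ℕ,
    Holds (ultra U S) φ (mk U f) (mk U g) ↔
      ∀ᶠ s in (U : Filter α), Holds (S s) φ (f s) (g s) := by
  have hsw : ∀ ψ : Fml L,
      (∀ f g : α → ℕ, Holds (ultra U S) ψ (mk U f) (mk U g) ↔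
        ∀ᶠ s in (U : Filter α), Holds (S s) ψ (f s) (g s)) →
      (∀ f g : α → ℕ, Holds (ultra U S) (swapF ψ) (mk U f) (mk U g) ↔
        ∀ᶠ s in (U : Filter α), Holds (S s) (swapF ψ) (f s) (g s)) := by
    intro ψ h f g
    simp only [holds_swapF]
    exact h g f
  induction φ with
  | eq =>
    intro f g
    exact mk_eq_iff U f g
  | rel R w =>
    intro f g
    simp only [Holds]
    have h1 : (fun i => if w i = true then mk U g else mk U f) =
        fun i => mk U (if w i = true then g else f) := by
      funext i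
      split <;> rfl
    rw [h1, ultra_rel U S R (fun i => if w i = true then g else f)]
    have h2 : ∀ s, (fun i => (if w i = true then g else f) s) =
        fun i => if w i = true then g s else f s := by
      intro s
      funext i
      split <;> rfl
    simp only [h2]
  | neg φ ih =>
    intro f g
    simp only [Holds, ih]
    exact Ultrafilter.eventually_not.symm
  | and φ ψ ih1 ih2 =>
    intro f g
    simp only [Holds, ih1, ih2]
    exact eventually_and.symm
  | exX n φ ih =>
    intro f g
    have := los_key U S (swapF φ) n g (hsw φ ih)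
    simp only [holds_swapF] at this
    simp only [Holds]
    exact this
  | exY n φ ih =>
    intro f g
    simp only [Holds]
    exact los_key U S φ n f ih

end ultra

/-! ### The set of realised types is closed -/

/-- the set of types of pairs realised in countably infinite structures with theory `Θ` -/
def Rl (Θ : Set (Fml L)) : Set (Ty L) :=
  {t | ∃ (S : L.Structure ℕ) (a b : ℕ), Th S = Θ ∧ ty S a b = t}

/-- A Boolean function on formulas all of whose finite parts are realised is realised. -/
theorem realised_of_finite [∀ n, IsEmpty (L.Functions n)] [∀ n, Countable (L.Relations n)]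
    (t : Ty L) (h : ∀ s : Finset (Fml L), ∃ (S : L.Structure ℕ) (a b : ℕ),
      ∀ φ ∈ s, ty S a b φ = t φ) :
    ∃ (S : L.Structure ℕ) (a b : ℕ), ty S a b = t := by
  classical
  choose S a b hab using h
  let U : Ultrafilter (Finset (Fml L)) := Ultrafilter.of atTop
  have hU : (U : Filter (Finset (Fml L))) ≤ atTop := Ultrafilter.of_le atTop
  have hev : ∀ φ, ∀ᶠ s in (U : Filter (Finset (Fml L))), φ ∈ s := by
    intro φ
    have : ∀ᶠ s in (atTop : Filter (Finset (Fml L))), φ ∈ s := by
      filter_upwards [eventually_ge_atTop {φ}] with s hs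
      exact hs (Finset.mem_singleton_self φ)
    exact hU this
  have hty : ty (ultra U S) (mk U a) (mk U b) = t := by
    funext φ
    rw [Bool.eq_iff_iff, ty_iff, los]
    constructor
    · intro h1
      obtain ⟨s, hs1, hs2⟩ := (h1.and (hev φ)).exists
      rw [← hab s φ hs2, ty_iff]
      exact hs1
    · intro h1
      filter_upwards [hev φ] with s hs
      rw [← ty_iff, hab s φ hs, h1]
  have hinf : Infinite (UP U) := by
    rw [← Set.infinite_univ_iff, ← Set.encard_eq_top_iff, ENat.eq_top_iff_forall_ge]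
    intro n
    have h1 := (los U S (.exY n (.neg (.and .eq (.neg .eq)))) a b).mpr
      (Eventually.of_forall fun s => by
        simp only [Holds]
        have : {c : ℕ | ¬ (a s = c ∧ ¬ a s = c)} = univ := by
          ext c; simp
        rw [this]
        simp)
    simp only [Holds] at h1
    exact h1.trans (Set.encard_le_encard (subset_univ _))
  obtain ⟨S', c, d, hcd⟩ := exists_nat_model (ultra U S) (mk U a) (mk U b)
  exact ⟨S', c, d, by rw [hcd, hty]⟩

theorem isClosed_Rl [∀ n, IsEmpty (L.Functions n)] [∀ n, Countable (L.Relations n)]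
    (Θ : Set (Fml L)) : IsClosed (Rl Θ) := by
  classical
  rw [← closure_subset_iff_isClosed]
  intro t ht
  have hfin : ∀ s : Finset (Fml L), ∃ (S : L.Structure ℕ) (a b : ℕ), Th S = Θ ∧
      ∀ φ ∈ s, ty S a b φ = t φ := by
    intro s
    have hopen : IsOpen {u : Ty L | ∀ φ ∈ s, u φ = t φ} := by
      have : {u : Ty L | ∀ φ ∈ s, u φ = t φ} = ⋂ φ ∈ s, {u : Ty L | u φ = t φ} := by
        ext u; simp
      rw [this]
      refine isOpen_biInter_finset fun φ _ => ?_
      exact (isOpen_discrete ({t φ} : Set Bool)).preimage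
        (continuous_apply (A := fun _ : Fml L => Bool) φ)
    obtain ⟨u, hu1, S, a, b, hS, rfl⟩ := mem_closure_iff.mp ht _ hopen (fun φ _ => rfl)
    exact ⟨S, a, b, hS, hu1⟩
  obtain ⟨S, a, b, hab⟩ := realised_of_finite t fun s => by
    obtain ⟨S, a, b, _, h⟩ := hfin s
    exact ⟨S, a, b, h⟩
  refine ⟨S, a, b, ?_, hab⟩
  -- the theory is determined by the type
  rw [← thy_ty S a b, hab]
  ext φ
  obtain ⟨S', c, d, hS', h'⟩ := hfin {allF φ}
  have h1 := h' (allF φ) (Finset.mem_singleton_self _)
  simp only [thy, mem_ofPred_eq]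
  rw [← h1, ← hS', ← thy_ty S' c d]
  rfl

end Pool.Agent.Helper5.CTwo
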