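import Pool.Agent.Helper5.CTwo.HighArity
import Pool.Agent.Helper5.Realize

/-!
# The perfect set form of Vaught's conjecture for two-variable logic with counting

For every countable relational language and every first-order theory whose class of models with
universe `ℕ` is closed under equivalence in two-variable logic with counting quantifiers (for
example, every theory axiomatised by sentences of that logic), the models of the theory on `ℕ`
fall into countably many isomorphism types or there are perfectly many of them.
-/

set_option autoImplicit false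

namespace Pool.Agent.Results.MP_5df2c5_lc.CountingTwoVariable

open Pool.Agent.Helper5 Pool.Agent.Helper5.CTwo Pool.Agent.Helper6.Str

/-- **Vaught's conjecture (perfect set form) for theories in two-variable logic with counting
quantifiers.** -/
theorem result (L : FirstOrder.Language.{0, 0}) (hc : Countable L.Symbols)
    (hrel : ∀ n, IsEmpty (L.Functions n)) (T : L.Theory)
    (hT : ∀ S S' : L.Structure ℕ,
      (∀ φ : Fml L, (∀ a b, Holds S φ a b) ↔ (∀ a b, Holds S' φ a b)) →
      @FirstOrder.Language.Theory.Model L ℕ S T → @FirstOrder.Language.Theory.Model L ℕ S' T) :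
    (∃ g : ℕ → L.Structure ℕ, ∀ S : L.Structure ℕ,
        @FirstOrder.Language.Theory.Model L ℕ S T →
          ∃ n : ℕ, Nonempty (@FirstOrder.Language.Equiv L ℕ ℕ S (g n))) ∨
    (∃ f : (ℕ → Bool) → L.Structure ℕ,
        (∀ x : ℕ → Bool, @FirstOrder.Language.Theory.Model L ℕ (f x) T) ∧
        (∀ x y : ℕ → Bool,
            Nonempty (@FirstOrder.Language.Equiv L ℕ ℕ (f x) (f y)) → x = y) ∧
        (∀ (n : ℕ) (R : L.Relations n) (a : Fin n → ℕ),
            IsClopen {x : ℕ → Bool | @FirstOrder.Language.Structure.RelMap L ℕ (f x) n R a}) ∧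
        (∀ (n : ℕ) (F : L.Functions n) (a : Fin n → ℕ) (b : ℕ),
            IsOpen {x : ℕ → Bool |
              @FirstOrder.Language.Structure.funMap L ℕ (f x) n F a = b})) := by
  have hcr : ∀ n, Countable (L.Relations n) := countable_relations hc
  let K : Set (L.Structure ℕ) := {S | @FirstOrder.Language.Theory.Model L ℕ S T}
  have hinv : ∀ S S' : L.Structure ℕ, Th S = Th S' → S ∈ K → S' ∈ K := by
    intro S S' h hS
    refine hT S S' (fun φ => ?_) hS
    exact (Set.ext_iff.mp h φ)
  rcases dichotomy_all (K := K) (measurableSet_model hc T) hinv with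
    ⟨g, hg⟩ | ⟨f, hf1, hf2, hf3⟩
  · left
    refine ⟨g, fun S h1 => ?_⟩
    obtain ⟨n, hn⟩ := hg S h1
    exact ⟨n, (nonempty_equiv_iff S (g n)).mpr hn⟩
  · right
    exact ⟨f, hf1, fun x y h => hf2 x y ((nonempty_equiv_iff _ _).mp h), hf3,
      fun n F => isEmptyElim F⟩

end Pool.Agent.Results.MP_5df2c5_lc.CountingTwoVariable
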