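import Pool.Agent.Helper5.CTwo.Measure

/-!
# Two null types with the same marginals give perfectly many models
-/

set_option autoImplicit false

namespace Pool.Agent.Helper5.CTwo

open Set Filter Topology Pool.Agent.Helper6.Str

variable {L : FirstOrder.Language.{0, 0}}

section coding

variable (S : L.Structure ℕ) (a b : {x : ℕ // ¬ IsAlg S x}) (σ₁ σ₂ : Ty L)
  (dflt : {x : ℕ // ¬ IsAlg S x} → {x : ℕ // ¬ IsAlg S x} → Ty L) (x : ℕ → Bool)

/-- parameters of the first kind -/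
def isE (e : {x : ℕ // ¬ IsAlg S x} × ℕ) : Prop := e.1 = a ∧ (e.2 = 1 ∨ e.2 = 2)

/-- parameters of the second kind -/
def isG (e : {x : ℕ // ¬ IsAlg S x} × ℕ) : Prop := e.1 = b ∧ (e.2 = 3 ∨ e.2 = 4)

/-- coding elements of the first kind -/
def isF (e : {x : ℕ // ¬ IsAlg S x} × ℕ) : Prop := e.1 = b ∧ ∃ n, e.2 = 5 + 2 * n

/-- coding elements of the second kind -/
def isU (e : {x : ℕ // ¬ IsAlg S x} × ℕ) : Prop := e.1 = a ∧ ∃ n, e.2 = 6 + 2 * n

/-- pairs on which the type is chosen by the code -/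
def Fw (e e' : {x : ℕ // ¬ IsAlg S x} × ℕ) : Prop :=
  ty S e.1 e.1 = left σ₁ ∧ ty S e'.1 e'.1 = right σ₁ ∧
    ((isE S a e' ∧ ¬ isE S a e) ∨ (isG S b e ∧ ¬ isG S b e') ∨ (isF S b e ∧ isU S a e'))

/-- pairs receiving the first type -/
def Dg (e e' : {x : ℕ // ¬ IsAlg S x} × ℕ) : Prop :=
  (∃ n, e = (b, 5 + 2 * n) ∧ x n = true ∧ isE S a e') ∨ (isG S b e ∧ isU S a e') ∨
    (∃ n k, e = (b, 5 + 2 * n) ∧ e' = (a, 6 + 2 * k) ∧ k < n)

open Classical in
/-- the cross function -/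
noncomputable def codeX (e e' : {x : ℕ // ¬ IsAlg S x} × ℕ) : Ty L :=
  if Fw S a b σ₁ e e' then (if Dg S a b x e e' then σ₁ else σ₂)
  else if Fw S a b σ₁ e' e then swp (if Dg S a b x e' e then σ₁ else σ₂)
  else if e.2 < e'.2 then dflt e.1 e'.1 else swp (dflt e'.1 e.1)

variable {S a b σ₁ σ₂ dflt x}

theorem Fw_asymm {e e' : {x : ℕ // ¬ IsAlg S x} × ℕ} (h : Fw S a b σ₁ e e') :
    ¬ Fw S a b σ₁ e' e := by
  rintro ⟨-, -, h'⟩
  obtain ⟨-, -, h⟩ := h
  unfold isE isG isF isU at h h'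
  rcases h with ⟨⟨h1, h2⟩, h3⟩ | ⟨⟨h1, h2⟩, h3⟩ | ⟨⟨h1, n, h2⟩, h3, m, h4⟩ <;>
    rcases h' with ⟨⟨h1', h2'⟩, h3'⟩ | ⟨⟨h1', h2'⟩, h3'⟩ | ⟨⟨h1', n', h2'⟩, h3', m', h4'⟩
  · exact h3 ⟨h1', h2'⟩
  · omega
  · omega
  · omega
  · exact h3 ⟨h1', h2'⟩
  · omega
  · omega
  · omega
  · omega

theorem swp_swp_of_mem {Θ : Set (Fml L)} {t : Ty L} (h : t ∈ Rl Θ) : swp (swp t) = t := by
  obtain ⟨S, a, b, -, rfl⟩ := h
  exact swp_swp_ty S a b

theorem swp_mem {Θ : Set (Fml L)} {t : Ty L} (h : t ∈ Rl Θ) : swp t ∈ Rl Θ := by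
  obtain ⟨S, a, b, h1, rfl⟩ := h
  exact ⟨S, b, a, h1, (swp_ty S a b).symm⟩

theorem left_swp {Θ : Set (Fml L)} {t : Ty L} (h : t ∈ Rl Θ) : left (swp t) = right t := by
  obtain ⟨S, a, b, -, rfl⟩ := h
  rw [swp_ty, left_ty, right_ty]

theorem right_swp {Θ : Set (Fml L)} {t : Ty L} (h : t ∈ Rl Θ) : right (swp t) = left t := by
  obtain ⟨S, a, b, -, rfl⟩ := h
  rw [swp_ty, left_ty, right_ty]

theorem swp_eq_eq {Θ : Set (Fml L)} {t : Ty L} (h : t ∈ Rl Θ) (h' : t .eq = false) :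
    swp t .eq = false := by
  obtain ⟨S, a, b, -, rfl⟩ := h
  rw [swp_ty, ty_false_iff]
  rw [ty_false_iff] at h'
  exact fun h => h' h.symm

theorem null_swp {Θ : Set (Fml L)} {t : Ty L} (h : t ∈ Rl Θ) (h' : Null t) : Null (swp t) :=
  ⟨h'.2, by rw [swp_swp_of_mem h]; exact h'.1⟩

/-- the properties required of a value of a cross function -/
structure Val (Θ : Set (Fml L)) (p q t : Ty L) : Prop where
  real : t ∈ Rl Θ
  null : Null t
  neq : t .eq = false
  left : left t = p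
  right : right t = q

theorem Val.swp {Θ : Set (Fml L)} {p q t : Ty L} (h : Val Θ p q t) : Val Θ q p (swp t) where
  real := swp_mem h.real
  null := null_swp h.real h.null
  neq := swp_eq_eq h.real h.neq
  left := by rw [left_swp h.real, h.right]
  right := by rw [right_swp h.real, h.left]

theorem codeX_val (h1 : Val (Th S) (ty S b b) (ty S a a) σ₁)
    (h2 : Val (Th S) (ty S b b) (ty S a a) σ₂)
    (hd : ∀ c d : {x : ℕ // ¬ IsAlg S x}, Val (Th S) (ty S c c) (ty S d d) (dflt c d))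
    (e e' : {x : ℕ // ¬ IsAlg S x} × ℕ) :
    Val (Th S) (ty S e.1 e.1) (ty S e'.1 e'.1) (codeX S a b σ₁ σ₂ dflt x e e') := by
  classical
  unfold codeX
  split
  · rename_i h
    rw [h.1, h.2.1, h1.left, h1.right]
    split
    · exact h1
    · exact h2
  · split
    · rename_i h
      rw [h.1, h.2.1, h1.left, h1.right]
      apply Val.swp
      split
      · exact h1
      · exact h2
    · split
      · exact hd _ _
      · exact (hd _ _).swp

theorem codeX_swap (h1 : Val (Th S) (ty S b b) (ty S a a) σ₁)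
    (h2 : Val (Th S) (ty S b b) (ty S a a) σ₂)
    (hd : ∀ c d : {x : ℕ // ¬ IsAlg S x}, Val (Th S) (ty S c c) (ty S d d) (dflt c d))
    (e e' : {x : ℕ // ¬ IsAlg S x} × ℕ) (hne : e.2 ≠ e'.2) :
    codeX S a b σ₁ σ₂ dflt x e' e = swp (codeX S a b σ₁ σ₂ dflt x e e') := by
  classical
  unfold codeX
  by_cases hf : Fw S a b σ₁ e e'
  · rw [if_pos hf, if_neg (Fw_asymm hf), if_pos hf]
  · rw [if_neg hf]
    by_cases hf' : Fw S a b σ₁ e' e
    · rw [if_pos hf', if_pos hf']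
      split
      · exact (swp_swp_of_mem h1.real).symm
      · exact (swp_swp_of_mem h2.real).symm
    · rw [if_neg hf', if_neg hf', if_neg hf]
      rcases Nat.lt_or_gt_of_ne hne with h | h
      · rw [if_pos h, if_neg (by omega)]
      · rw [if_pos h, if_neg (by omega)]
        exact (swp_swp_of_mem (hd _ _).real).symm

theorem cross_codeX (h1 : Val (Th S) (ty S b b) (ty S a a) σ₁)
    (h2 : Val (Th S) (ty S b b) (ty S a a) σ₂)
    (hd : ∀ c d : {x : ℕ // ¬ IsAlg S x}, Val (Th S) (ty S c c) (ty S d d) (dflt c d)) :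
    Cross S (codeX S a b σ₁ σ₂ dflt x) where
  real := fun e e' _ => (codeX_val h1 h2 hd e e').real
  null := fun e e' _ => (codeX_val h1 h2 hd e e').null
  neq := fun e e' _ => (codeX_val h1 h2 hd e e').neq
  left := fun e e' _ => (codeX_val h1 h2 hd e e').left
  swap := fun e e' h => codeX_swap h1 h2 hd e e' h

theorem codeX_eq_iff (hne : σ₁ ≠ σ₂) {e e' : {x : ℕ // ¬ IsAlg S x} × ℕ}
    (hf : Fw S a b σ₁ e e') :
    codeX S a b σ₁ σ₂ dflt x e e' = σ₁ ↔ Dg S a b x e e' := by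
  classical
  unfold codeX
  rw [if_pos hf]
  split
  · rename_i h
    simp [h]
  · rename_i h
    simp [h, hne.symm]

/-- decoding of the first kind of elements -/
theorem decode_F (h1 : Val (Th S) (ty S b b) (ty S a a) σ₁)
    (h2 : Val (Th S) (ty S b b) (ty S a a) σ₂)
    (hd : ∀ c d : {x : ℕ // ¬ IsAlg S x}, Val (Th S) (ty S c c) (ty S d d) (dflt c d)) (hne : σ₁ ≠ σ₂) (y : Car S) :
    (y ≠ .inr (a, 1) ∧ y ≠ .inr (a, 2) ∧ sheetT (codeX S a b σ₁ σ₂ dflt x) y (.inr (a, 1)) = σ₁ ∧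
      sheetT (codeX S a b σ₁ σ₂ dflt x) y (.inr (a, 2)) = σ₁) ↔
      ∃ n, x n = true ∧ y = .inr (b, 5 + 2 * n) := by
  constructor
  · rintro ⟨hy1, hy2, hy3, hy4⟩
    rcases y with f | e
    · exfalso
      simp only [sheetT] at hy3
      have h3 : ty S f f = ty S b b := by
        rw [← left_ty S f a, hy3, h1.left]
      exact b.2 ((isAlg_iff_of_ty h3).mp f.2)
    · obtain ⟨i, hi, hei, hX⟩ : ∃ i, (i = 1 ∨ i = 2) ∧ e.2 ≠ i ∧
          codeX S a b σ₁ σ₂ dflt x e (a, i) = σ₁ := by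
        by_cases he : e.2 = 1
        · refine ⟨2, Or.inr rfl, by omega, ?_⟩
          simp only [sheetT] at hy4
          rwa [if_neg (by omega)] at hy4
        · refine ⟨1, Or.inl rfl, he, ?_⟩
          simp only [sheetT] at hy3
          rwa [if_neg he] at hy3
      have hval := codeX_val (x := x) h1 h2 hd e (a, i)
      have hEe : ¬ isE S a e := by
        rintro ⟨h3, h4 | h4⟩
        · exact hy1 (by rw [← h3, ← h4])
        · exact hy2 (by rw [← h3, ← h4])
      have hf : Fw S a b σ₁ e (a, i) := by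
        refine ⟨?_, h1.right.symm, Or.inl ⟨⟨rfl, hi⟩, hEe⟩⟩
        rw [← hX]
        exact hval.left.symm
      rw [codeX_eq_iff hne hf] at hX
      rcases hX with ⟨n, h3, h4, h5⟩ | ⟨h3, h4⟩ | ⟨n, k, h3, h4, h5⟩
      · exact ⟨n, h4, by rw [h3]⟩
      · obtain ⟨-, m, h5⟩ := h4
        simp only at h5
        omega
      · rw [Prod.ext_iff] at h4
        simp only at h4
        omega
  · rintro ⟨n, hn, rfl⟩
    have hf : ∀ i, (i = 1 ∨ i = 2) → Fw S a b σ₁ (b, 5 + 2 * n) (a, i) := by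
      intro i hi
      refine ⟨h1.left.symm, h1.right.symm, Or.inl ⟨⟨rfl, hi⟩, ?_⟩⟩
      rintro ⟨-, h3⟩
      simp only at h3
      omega
    refine ⟨?_, ?_, ?_, ?_⟩
    · intro h
      have := congrArg Prod.snd (Sum.inr.inj h)
      simp only at this
      omega
    · intro h
      have := congrArg Prod.snd (Sum.inr.inj h)
      simp only at this
      omega
    · simp only [sheetT]
      rw [if_neg (by omega), codeX_eq_iff hne (hf 1 (Or.inl rfl))]
      exact Or.inl ⟨n, rfl, hn, rfl, Or.inl rfl⟩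
    · simp only [sheetT]
      rw [if_neg (by omega), codeX_eq_iff hne (hf 2 (Or.inr rfl))]
      exact Or.inl ⟨n, rfl, hn, rfl, Or.inr rfl⟩

/-- decoding of the second kind of elements -/
theorem decode_U (h1 : Val (Th S) (ty S b b) (ty S a a) σ₁)
    (h2 : Val (Th S) (ty S b b) (ty S a a) σ₂)
    (hd : ∀ c d : {x : ℕ // ¬ IsAlg S x}, Val (Th S) (ty S c c) (ty S d d) (dflt c d)) (hne : σ₁ ≠ σ₂) (v : Car S) :
    (v ≠ .inr (b, 3) ∧ v ≠ .inr (b, 4) ∧ sheetT (codeX S a b σ₁ σ₂ dflt x) (.inr (b, 3)) v = σ₁ ∧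
      sheetT (codeX S a b σ₁ σ₂ dflt x) (.inr (b, 4)) v = σ₁) ↔
      ∃ k, v = .inr (a, 6 + 2 * k) := by
  constructor
  · rintro ⟨hy1, hy2, hy3, hy4⟩
    rcases v with f | e
    · exfalso
      simp only [sheetT] at hy3
      have h3 : ty S f f = ty S a a := by
        rw [← right_ty S b f, hy3, h1.right]
      exact a.2 ((isAlg_iff_of_ty h3).mp f.2)
    · obtain ⟨i, hi, hei, hX⟩ : ∃ i, (i = 3 ∨ i = 4) ∧ i ≠ e.2 ∧
          codeX S a b σ₁ σ₂ dflt x (b, i) e = σ₁ := by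
        by_cases he : e.2 = 3
        · refine ⟨4, Or.inr rfl, by omega, ?_⟩
          simp only [sheetT] at hy4
          rwa [if_neg (by omega)] at hy4
        · refine ⟨3, Or.inl rfl, Ne.symm he, ?_⟩
          simp only [sheetT] at hy3
          rwa [if_neg (Ne.symm he)] at hy3
      have hval := codeX_val (x := x) h1 h2 hd (b, i) e
      have hEe : ¬ isG S b e := by
        rintro ⟨h3, h4 | h4⟩
        · exact hy1 (by rw [← h3, ← h4])
        · exact hy2 (by rw [← h3, ← h4])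
      have hf : Fw S a b σ₁ (b, i) e := by
        refine ⟨h1.left.symm, ?_, Or.inr (Or.inl ⟨⟨rfl, hi⟩, hEe⟩)⟩
        rw [← hX]
        exact hval.right.symm
      rw [codeX_eq_iff hne hf] at hX
      rcases hX with ⟨n, h3, h4, h5⟩ | ⟨h3, h4⟩ | ⟨n, k, h3, h4, h5⟩
      · rw [Prod.ext_iff] at h3
        simp only at h3
        omega
      · obtain ⟨h5, m, h6⟩ := h4
        exact ⟨m, by rw [← h5, ← h6]⟩
      · rw [Prod.ext_iff] at h3
        simp only at h3
        omega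
  · rintro ⟨k, rfl⟩
    have hf : ∀ i, (i = 3 ∨ i = 4) → Fw S a b σ₁ (b, i) (a, 6 + 2 * k) := by
      intro i hi
      refine ⟨h1.left.symm, h1.right.symm, Or.inr (Or.inl ⟨⟨rfl, hi⟩, ?_⟩)⟩
      rintro ⟨-, h3⟩
      simp only at h3
      omega
    refine ⟨?_, ?_, ?_, ?_⟩
    · intro h
      have := congrArg Prod.snd (Sum.inr.inj h)
      simp only at this
      omega
    · intro h
      have := congrArg Prod.snd (Sum.inr.inj h)
      simp only at this
      omega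
    · simp only [sheetT]
      rw [if_neg (by omega), codeX_eq_iff hne (hf 3 (Or.inl rfl))]
      exact Or.inr (Or.inl ⟨⟨rfl, Or.inl rfl⟩, rfl, k, rfl⟩)
    · simp only [sheetT]
      rw [if_neg (by omega), codeX_eq_iff hne (hf 4 (Or.inr rfl))]
      exact Or.inr (Or.inl ⟨⟨rfl, Or.inr rfl⟩, rfl, k, rfl⟩)

theorem decode_FU (h1 : Val (Th S) (ty S b b) (ty S a a) σ₁) (hne : σ₁ ≠ σ₂) (n k : ℕ) :
    sheetT (codeX S a b σ₁ σ₂ dflt x) (.inr (b, 5 + 2 * n)) (.inr (a, 6 + 2 * k)) = σ₁ ↔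
      k < n := by
  have hf : Fw S a b σ₁ (b, 5 + 2 * n) (a, 6 + 2 * k) :=
    ⟨h1.left.symm, h1.right.symm, Or.inr (Or.inr ⟨⟨rfl, n, rfl⟩, rfl, k, rfl⟩)⟩
  simp only [sheetT]
  rw [if_neg (by omega), codeX_eq_iff hne hf]
  constructor
  · rintro (⟨n', h3, h4, h5⟩ | ⟨⟨h3, h4⟩, h5⟩ | ⟨n', k', h3, h4, h5⟩)
    · obtain ⟨-, h6⟩ := h5
      simp only at h6
      omega
    · simp only at h4
      omega
    · rw [Prod.ext_iff] at h3 h4
      simp only at h3 h4
      omega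
  · intro h
    exact Or.inr (Or.inr ⟨n, k, rfl, rfl, h⟩)

end coding

/-- The decoding predicate. -/
def Dec (S : L.Structure ℕ) (σ : Ty L) (j : (ℕ × ℕ) × ℕ × ℕ) (n : ℕ) : Prop :=
  ∃ y, (y ≠ j.1.1 ∧ y ≠ j.1.2 ∧ ty S y j.1.1 = σ ∧ ty S y j.1.2 = σ) ∧
    {v | (v ≠ j.2.1 ∧ v ≠ j.2.2 ∧ ty S j.2.1 v = σ ∧ ty S j.2.2 v = σ) ∧
      ty S y v = σ}.encard = (n : ℕ∞)

theorem dec_of_relIso {S S' : L.Structure ℕ} {e : ℕ ≃ ℕ} (he : RelIso S S' e) (σ : Ty L)
    (j : (ℕ × ℕ) × ℕ × ℕ) (n : ℕ) :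
    Dec S σ j n → Dec S' σ ((e j.1.1, e j.1.2), (e j.2.1, e j.2.2)) n := by
  rintro ⟨y, ⟨h1, h2, h3, h4⟩, h5⟩
  refine ⟨e y, ⟨fun h => h1 (e.injective h), fun h => h2 (e.injective h), ?_, ?_⟩, ?_⟩
  · rw [ty_of_relIso he]; exact h3
  · rw [ty_of_relIso he]; exact h4
  · rw [← h5]
    symm
    refine encard_preimage_equiv e _ _ fun v => ?_
    simp only [mem_ofPred_eq, ty_of_relIso he, ne_eq, EmbeddingLike.apply_eq_iff_eq]

theorem dec_iff_of_relIso {S S' : L.Structure ℕ} {e : ℕ ≃ ℕ} (he : RelIso S S' e) (σ : Ty L)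
    (j : (ℕ × ℕ) × ℕ × ℕ) (n : ℕ) :
    Dec S σ j n ↔ Dec S' σ ((e j.1.1, e j.1.2), (e j.2.1, e j.2.2)) n := by
  constructor
  · exact dec_of_relIso he σ j n
  · intro h
    have := dec_of_relIso he.symm σ _ n h
    simpa using this

theorem not_countable_cantor : ¬ (univ : Set (ℕ → Bool)).Countable := by
  intro h
  rw [Set.countable_univ_iff] at h
  obtain ⟨f, hf⟩ := exists_surjective_nat (ℕ → Bool)
  obtain ⟨n, hn⟩ := hf fun k => !(f k k)
  have := congrFun hn n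
  simp at this

variable [∀ n, IsEmpty (L.Functions n)] [∀ n, Countable (L.Relations n)]

/-- **Freedom.** -/
theorem perfK_of_two_null {Θ : Set (Fml L)} {σ₁ σ₂ : Ty L} (h1 : σ₁ ∈ Rl Θ) (h2 : σ₂ ∈ Rl Θ)
    (e1 : σ₁ .eq = false) (e2 : σ₂ .eq = false) (n1 : Null σ₁) (n2 : Null σ₂)
    (hl : left σ₁ = left σ₂) (hr : right σ₁ = right σ₂) (hne : σ₁ ≠ σ₂) : PerfK (KTh Θ) := by
  classical
  obtain ⟨S, b', a', rfl, hσ⟩ := h1
  have ha : ¬ IsAlg S a' := by
    have := n1.1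
    rw [← hσ] at this
    exact not_isAlg_right this
  have hb : ¬ IsAlg S b' := by
    have := n1.2
    rw [← hσ] at this
    exact not_isAlg_left this
  let a : {x : ℕ // ¬ IsAlg S x} := ⟨a', ha⟩
  let b : {x : ℕ // ¬ IsAlg S x} := ⟨b', hb⟩
  have v1 : Val (Th S) (ty S b b) (ty S a a) σ₁ :=
    ⟨⟨S, b', a', rfl, hσ⟩, n1, e1, by rw [← hσ]; exact left_ty _ _ _,
      by rw [← hσ]; exact right_ty _ _ _⟩
  have v2 : Val (Th S) (ty S b b) (ty S a a) σ₂ :=
    ⟨h2, n2, e2, by rw [← hl]; exact v1.left, by rw [← hr]; exact v1.right⟩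
  have hd : ∀ c d : {x : ℕ // ¬ IsAlg S x}, ∃ t, Val (Th S) (ty S c c) (ty S d d) t := by
    intro c d
    obtain ⟨t, h3, h4, h5, h6, h7⟩ := exists_null (rfl : Th S = Th S) c.2 d.2
    exact ⟨t, h3, h5, h4, h6, h7⟩
  choose dflt hdflt using hd
  refine perfK_of_reals (J := (ℕ × ℕ) × ℕ × ℕ) (B := fun _ => {c : Code L | Th (toStr c) = Th S})
    (fun _ => measurableSet_Th _) (fun _ c hc => hc) (Y := ℕ → Bool)
    (Z := fun j c n => decide (Dec (toStr c) σ₁ j n)) ?_ ?_ ?_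
  · intro j
    rw [measurable_pi_iff]
    intro n
    refine measurable_to_bool ?_
    have : (fun c : Code L => decide (Dec (toStr c) σ₁ j n)) ⁻¹' {true} =
        ⋃ y, ({c : Code L | y ≠ j.1.1 ∧ y ≠ j.1.2} ∩ {c : Code L | ty (toStr c) y j.1.1 = σ₁} ∩
          {c : Code L | ty (toStr c) y j.1.2 = σ₁}) ∩
          {c : Code L | {v | c ∈ ({c : Code L | v ≠ j.2.1 ∧ v ≠ j.2.2} ∩
            {c : Code L | ty (toStr c) j.2.1 v = σ₁} ∩ {c : Code L | ty (toStr c) j.2.2 v = σ₁} ∩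
            {c : Code L | ty (toStr c) y v = σ₁})}.encard = (n : ℕ∞)} := by
      ext c
      simp only [Dec, mem_preimage, mem_singleton_iff, decide_eq_true_eq, mem_iUnion,
        mem_inter_iff, mem_ofPred_eq, and_assoc]
    rw [this]
    refine MeasurableSet.iUnion fun y => MeasurableSet.inter (MeasurableSet.inter
      (MeasurableSet.inter (MeasurableSet.const _) (measurableSet_ty_eq _ _ _))
      (measurableSet_ty_eq _ _ _)) (measurableSet_eq_encard (fun v => ?_) n)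
    exact MeasurableSet.inter (MeasurableSet.inter (MeasurableSet.inter (MeasurableSet.const _)
      (measurableSet_ty_eq _ _ _)) (measurableSet_ty_eq _ _ _)) (measurableSet_ty_eq _ _ _)
  · rintro j - c - d - ⟨e, he⟩
    refine ⟨((e j.1.1, e j.1.2), (e j.2.1, e j.2.2)), ?_⟩
    funext n
    rw [Bool.eq_iff_iff, decide_eq_true_eq, decide_eq_true_eq]
    exact dec_iff_of_relIso he σ₁ j n
  · intro hc
    apply not_countable_cantor
    refine hc.mono ?_
    intro x _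
    obtain ⟨S', e, hS', he⟩ := exists_sheet_model ha (cross_codeX (x := x) v1 v2 hdflt)
    rw [mem_iUnion]
    refine ⟨((e (.inr (a, 1)), e (.inr (a, 2))), (e (.inr (b, 3)), e (.inr (b, 4)))),
      ofStr S', ?_, ?_⟩
    · show Th (toStr (ofStr S')) = Th S
      rw [toStr_ofStr, hS']
    · funext n
      rw [Bool.eq_iff_iff, decide_eq_true_eq, toStr_ofStr]
      have hy : ∀ y, (e y ≠ e (.inr (a, 1)) ∧ e y ≠ e (.inr (a, 2)) ∧
          ty S' (e y) (e (.inr (a, 1))) = σ₁ ∧ ty S' (e y) (e (.inr (a, 2))) = σ₁) ↔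
          ∃ n, x n = true ∧ y = .inr (b, 5 + 2 * n) := by
        intro y
        rw [he, he, ← decode_F v1 v2 hdflt hne y]
        simp only [ne_eq, EmbeddingLike.apply_eq_iff_eq]
      have hv : ∀ v, (e v ≠ e (.inr (b, 3)) ∧ e v ≠ e (.inr (b, 4)) ∧
          ty S' (e (.inr (b, 3))) (e v) = σ₁ ∧ ty S' (e (.inr (b, 4))) (e v) = σ₁) ↔
          ∃ k, v = .inr (a, 6 + 2 * k) := by
        intro v
        rw [he, he, ← decode_U (x := x) v1 v2 hdflt hne v]
        simp only [ne_eq, EmbeddingLike.apply_eq_iff_eq]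
      have hcount : ∀ m, {v | (v ≠ e (.inr (b, 3)) ∧ v ≠ e (.inr (b, 4)) ∧
          ty S' (e (.inr (b, 3))) v = σ₁ ∧ ty S' (e (.inr (b, 4))) v = σ₁) ∧
          ty S' (e (.inr (b, 5 + 2 * m))) v = σ₁}.encard = (m : ℕ∞) := by
        intro m
        have hset : {v | (v ≠ e (.inr (b, 3)) ∧ v ≠ e (.inr (b, 4)) ∧
            ty S' (e (.inr (b, 3))) v = σ₁ ∧ ty S' (e (.inr (b, 4))) v = σ₁) ∧
            ty S' (e (.inr (b, 5 + 2 * m))) v = σ₁} =
            range (fun k : Fin m => e (.inr (a, 6 + 2 * (k : ℕ)))) := by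
          ext v
          obtain ⟨w, rfl⟩ := e.surjective v
          simp only [mem_ofPred_eq, mem_range]
          rw [hv w, he]
          constructor
          · rintro ⟨⟨k, rfl⟩, h4⟩
            rw [decode_FU (dflt := dflt) v1 hne] at h4
            exact ⟨⟨k, h4⟩, rfl⟩
          · rintro ⟨k, hk⟩
            have := e.injective hk
            rw [← this]
            exact ⟨⟨k, rfl⟩, (decode_FU (dflt := dflt) v1 hne m k).mpr k.2⟩
        rw [hset, ← Set.image_univ, Function.Injective.encard_image]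
        · simp
        · intro i j hij
          have := congrArg Prod.snd (Sum.inr.inj (e.injective hij))
          simp only at this
          exact Fin.ext (by omega)
      constructor
      · rintro ⟨y, h3, h4⟩
        obtain ⟨w, rfl⟩ := e.surjective y
        obtain ⟨m, hm, rfl⟩ := (hy w).mp h3
        have h5 := hcount m
        have h6 : (m : ℕ∞) = n := by
          rw [← h5]; exact h4
        have h7 : m = n := by exact_mod_cast h6
        rw [← h7]; exact hm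
      · intro hx
        exact ⟨e (.inr (b, 5 + 2 * n)), (hy _).mpr ⟨n, hx, rfl⟩, hcount n⟩

end Pool.Agent.Helper5.CTwo
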