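import Pool.Agent.Helper5.CTwo.Pieces

/-!
# Adding pieces to an assembly
-/

set_option autoImplicit false
set_option linter.unusedSectionVars false

namespace Pool.Agent.Helper5.CTwo

open Set Filter Topology Pool.Agent.Helper6.Str Pool.Agent.Helper5.Multi

variable {L : FirstOrder.Language.{0, 0}} {M N : Type}

theorem exists_null_of_finite [∀ n, IsEmpty (L.Functions n)] [∀ n, Countable (L.Relations n)]
    {Θ : Set (Fml L)} {q r : Ty L} {C : Set (Ty L)} (hC : IsClosed C)
    (h : ∀ s : Finset (Fml L × ℕ), ∃ t ∈ Rl Θ, t ∈ C ∧ t .eq = false ∧ ∀ ρ ∈ s, t ∈ Req q r ρ) :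
    ∃ t ∈ C, Val Θ q r t := by
  classical
  let D : Finset (Fml L × ℕ) → Set (Ty L) := fun s =>
    (Rl Θ ∩ C) ∩ {t | t .eq = false} ∩ ⋂ ρ ∈ s, Req q r ρ
  have hcl : ∀ s, IsClosed (D s) := fun s =>
    (((isClosed_Rl _).inter hC).inter (isClosed_coord _ _)).inter
      (isClosed_biInter fun r _ => isClosed_req _ _ r)
  have hdir : Directed (· ⊇ ·) D := by
    intro s s'
    refine ⟨s ∪ s', ?_, ?_⟩
    · rintro t ⟨h1, h2⟩
      refine ⟨h1, ?_⟩
      simp only [mem_iInter] at h2 ⊢
      exact fun r hr => h2 r (Finset.mem_union_left _ hr)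
    · rintro t ⟨h1, h2⟩
      refine ⟨h1, ?_⟩
      simp only [mem_iInter] at h2 ⊢
      exact fun r hr => h2 r (Finset.mem_union_right _ hr)
  have hne : ∀ s, (D s).Nonempty := by
    intro s
    obtain ⟨t, h1, h2, h3, h4⟩ := h s
    refine ⟨t, ⟨⟨h1, h2⟩, h3⟩, ?_⟩
    simp only [mem_iInter]
    exact h4
  obtain ⟨t, ht⟩ := IsCompact.nonempty_iInter_of_directed_nonempty_isCompact_isClosed D hdir hne
    (fun s => (hcl s).isCompact) hcl
  rw [mem_iInter] at ht
  have hreq : ∀ ρ : Fml L × ℕ, t ∈ Req q r ρ := by
    intro ρ
    have := (ht {ρ}).2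
    simp only [mem_iInter] at this
    exact this ρ (Finset.mem_singleton_self ρ)
  refine ⟨t, (ht ∅).1.1.2, (ht ∅).1.1.1, ⟨?_, ?_⟩, (ht ∅).1.2, ?_, ?_⟩
  · intro φ hφ n
    exact (hreq (φ, n)).2.2.1 hφ
  · intro φ hφ n
    exact (hreq (φ, n)).2.2.2 hφ
  · funext φ
    exact (hreq (φ, 0)).1
  · funext φ
    exact (hreq (φ, 0)).2.1

theorem cnt_of_emb {T : M → M → Ty L} {T' : N → N → Ty L} (hC' : Coh T') (J : M → N)
    (hJ : Function.Injective J) (h : ∀ x y, T' (J x) (J y) = T x y) (hN : Cnt T) (x : M)
    (hI : ∀ e' ∉ range J, Inf (T' (J x) e')) (φ : Fml L) (n : ℕ) :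
    T' (J x) (J x) (.exY n φ) = true ↔ (n : ℕ∞) ≤ {e' | T' (J x) e' φ = true}.encard := by
  have hsub : J '' {y | T x y φ = true} ⊆ {e' | T' (J x) e' φ = true} := by
    rintro _ ⟨y, hy, rfl⟩
    simp only [mem_ofPred_eq] at hy ⊢
    rw [h]; exact hy
  have hle : {y | T x y φ = true}.encard ≤ {e' | T' (J x) e' φ = true}.encard := by
    rw [← hJ.encard_image]
    exact Set.encard_le_encard hsub
  rw [h, hN x φ n]
  by_cases hall : {e' | T' (J x) e' φ = true} ⊆ range J
  · have : {e' | T' (J x) e' φ = true} = J '' {y | T x y φ = true} := by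
      refine Subset.antisymm ?_ hsub
      intro e' he'
      obtain ⟨y, rfl⟩ := hall he'
      refine ⟨y, ?_, rfl⟩
      simp only [mem_ofPred_eq] at he' ⊢
      rw [h] at he'
      exact he'
    rw [this, hJ.encard_image]
  · obtain ⟨e', he', hr⟩ := not_subset.mp hall
    have h1 := hI e' hr φ he'
    have hinf : {y | T x y φ = true}.Infinite := by
      rw [← le_encard_all_iff]
      intro m
      have h4 := h1 m
      rw [← hN x φ m, ← h]
      obtain ⟨S₀, c, d, hcd⟩ := hC'.real (J x) e'
      rw [← hC'.left (J x) e', hcd, left_ty, ty_iff]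
      rw [hcd, ty_iff] at h4
      exact h4
    have h6 := hinf.encard_eq
    rw [h6] at hle ⊢
    rw [top_le_iff.mp hle]

section

variable [∀ n, IsEmpty (L.Functions n)] [∀ n, Countable (L.Relations n)]
variable {S₀ : L.Structure ℕ} {I I' : Type} {P : I → Piece S₀} {P' : I' → Piece S₀}

theorem g_injective (p : Piece S₀) : Function.Injective p.g := by
  intro x y hxy
  have h1 := p.marks.1 x y
  rw [hxy] at h1
  have h2 : ty p.str (p.g y) (p.g y) .eq = true := by rw [ty_iff]; rfl
  rw [h1, ty_iff] at h2
  exact Subtype.ext h2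

theorem cnt_mono [Countable I] (hU : UniqNull (Th S₀)) (j : I → I')
    (hinj : Function.Injective j) (hj : ∀ i, P' (j i) = P i) (hinf : Infinite (PosP P))
    (hN : Cnt (asmT P)) : Cnt (asmT P') := by
  classical
  intro e φ n
  let J : PosP P → PosP P' := posMap j hj
  have hJ : Function.Injective J := posMap_injective j hj hinj
  have hC' := coh_asmT hU P'
  have hC := coh_asmT hU P
  have hTJ : ∀ x y, asmT P' (J x) (J y) = asmT P x y := fun x y => asmT_posMap j hj hinj x y
  by_cases he : e ∈ range J
  · obtain ⟨x, rfl⟩ := he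
    refine cnt_of_emb hC' J hJ hTJ hN x ?_ φ n
    rintro (f | p') he'
    · exact absurd ⟨.inl f, rfl⟩ he'
    · have hidx : ∀ i, j i ≠ p'.1.1 := by
        intro i hi
        apply he'
        obtain ⟨⟨i', b⟩, hb⟩ := p'
        simp only at hi
        subst hi
        refine ⟨.inr ⟨(i, b), ?_⟩, rfl⟩
        rw [← hj]
        exact hb
      rcases x with f | p
      · exact inf_of_alg ((P' p'.1.1).isAlg_g f) ((P' p'.1.1).not_isAlg p'.2)
      · exact (asmT_ne (P := P') ⟨(j p.1.1, p.1.2), by rw [hj]; exact p.2⟩ p'
          (hidx p.1.1)).null.1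
  · rcases e with f | ⟨⟨i, b⟩, hb⟩
    · exact absurd ⟨.inl f, rfl⟩ he
    have hi : ∀ k, j k ≠ i := by
      rintro k rfl
      apply he
      refine ⟨.inr ⟨(k, b), ?_⟩, rfl⟩
      rw [← hj]
      exact hb
    let S := (P' i).str
    -- the local part
    let G : PosP P' → ℕ := fun x => match x with
      | .inl f => (P' i).g f
      | .inr p => p.1.2
    let Y : Set (PosP P') := {e' | asmT P' (.inr ⟨(i, b), hb⟩) e' φ = true}
    let X : Set ℕ := {c | Holds S φ b c}
    have hee : ∀ ψ, asmT P' (.inr ⟨(i, b), hb⟩) (.inr ⟨(i, b), hb⟩) ψ = true ↔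
        Holds S ψ b b := by
      intro ψ
      simp only [asmT, if_true, ty_iff]
      rfl
    rw [hee]
    show (n : ℕ∞) ≤ X.encard ↔ (n : ℕ∞) ≤ Y.encard
    have hloc : ∀ c, IsAlg S c ∨ c ∈ (P' i).el → c ∈ X → c ∈ G '' Y := by
      rintro c (hc | hc) hcX
      · obtain ⟨f, rfl⟩ := ((P' i).marks.2 c).mp hc
        refine ⟨.inl f, ?_, rfl⟩
        show asmT P' (.inr ⟨(i, b), hb⟩) (.inl f) φ = true
        simp only [asmT, ty_iff]
        exact hcX
      · refine ⟨.inr ⟨(i, c), hc⟩, ?_, rfl⟩
        show asmT P' (.inr ⟨(i, b), hb⟩) (.inr ⟨(i, c), hc⟩) φ = true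
        simp only [asmT, if_true, ty_iff]
        exact hcX
    by_cases hfin : X.Finite
    · -- everything is local
      have hXloc : ∀ c ∈ X, IsAlg S c ∨ c ∈ (P' i).el := by
        intro c hc
        by_contra hcon
        push Not at hcon
        have h1 : Null (ty S b c) := by
          refine null_of_not_conn ((P' i).not_isAlg hb) hcon.1 fun h => hcon.2 ?_
          exact conn_trans hb h
        exact ((inf_ty_iff S b c).mp h1.1 φ hc) hfin
      have hYloc : ∀ e' ∈ Y, ∀ p', e' = .inr p' → p'.1.1 = i := by
        rintro e' he' p' rfl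
        by_contra hne
        have h1 := (asmT_ne (P := P') ⟨(i, b), hb⟩ p' (Ne.symm hne))
        have h2 : ∀ m : ℕ, (m : ℕ∞) ≤ X.encard := by
          intro m
          have h3 := h1.null.1 φ he' m
          have h4 := hC'.left (.inr ⟨(i, b), hb⟩) (.inr p')
          have h5 : asmT P' (.inr ⟨(i, b), hb⟩) (.inr ⟨(i, b), hb⟩) (.exY m φ) = true := by
            rw [← h4]
            obtain ⟨S₁, c, d, hcd⟩ := hC'.real (.inr ⟨(i, b), hb⟩) (.inr p')
            rw [hcd, left_ty, ty_iff]
            rw [hcd, ty_iff] at h3
            exact h3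
          exact (hee _).mp h5
        exact (le_encard_all_iff _).mp h2 hfin
      have hGX : G '' Y = X := by
        refine Subset.antisymm ?_ fun c hc => hloc c (hXloc c hc) hc
        rintro _ ⟨e', he', rfl⟩
        rcases e' with f | p'
        · have h1 : asmT P' (.inr ⟨(i, b), hb⟩) (.inl f) φ = true := he'
          simp only [asmT, ty_iff] at h1
          exact h1
        · have h1 := hYloc _ he' p' rfl
          obtain ⟨⟨i', c⟩, hc⟩ := p'
          simp only at h1
          subst h1
          have h2 : asmT P' (.inr ⟨(i', b), hb⟩) (.inr ⟨(i', c), hc⟩) φ = true := he'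
          simp only [asmT, if_true, ty_iff] at h2
          exact h2
      have hGinj : InjOn G Y := by
        rintro (f | p) hx (f' | p') hy hG
        · exact congrArg _ (g_injective (P' i) hG)
        · exfalso
          have h1 := hYloc _ hy p' rfl
          have h2 := (P' p'.1.1).not_isAlg p'.2
          have h3 : (P' i).g f = p'.1.2 := hG
          rw [h1, ← h3] at h2
          exact h2 ((P' i).isAlg_g f)
        · exfalso
          have h1 := hYloc _ hx p rfl
          have h2 := (P' p.1.1).not_isAlg p.2
          have h3 : p.1.2 = (P' i).g f' := hG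
          rw [h1, h3] at h2
          exact h2 ((P' i).isAlg_g f')
        · have h1 := hYloc _ hx p rfl
          have h1' := hYloc _ hy p' rfl
          exact congrArg _ (Subtype.ext (Prod.ext (h1.trans h1'.symm) hG))
      rw [← hGX, hGinj.encard_image]
    · -- infinitely many realisations
      have hX : X.Infinite := hfin
      have hYinf : Y.Infinite := by
        by_contra hcon
        rw [Set.not_infinite] at hcon
        -- a nonlocal realisation
        obtain ⟨c, hcX, hcY⟩ := (hX.sdiff (hcon.image G)).nonempty
        have hcl : ¬ IsAlg S c ∧ c ∉ (P' i).el := by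
          constructor
          · intro h
            exact hcY (hloc c (Or.inl h) hcX)
          · intro h
            exact hcY (hloc c (Or.inr h) hcX)
        have hnull : Null (ty S b c) := by
          refine null_of_not_conn ((P' i).not_isAlg hb) hcl.1 fun h => hcl.2 ?_
          exact conn_trans hb h
        have hbc : b ≠ c := by
          rintro rfl
          exact hcl.2 hb
        have hval : Val (Th S₀) (ty S b b) (ty S c c) (ty S b c) :=
          ⟨⟨S, b, c, (P' i).th, rfl⟩, hnull, by rw [ty_false_iff]; exact hbc,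
            left_ty _ _ _, right_ty _ _ _⟩
        -- a model
        have hcF : Countable {x // IsAlg S₀ x} := inferInstance
        obtain ⟨SA, eA, -, hA⟩ := exists_model hC hN
        have hThA : Th SA = Th S₀ := by
          obtain ⟨x⟩ : Nonempty (PosP P) := inferInstance
          obtain ⟨S₁, a₁, b₁, h1, h2⟩ := asmT_mem (P := P) x x
          rw [← h1]
          apply Th_of_types (a := eA x) (b := eA x) (c := a₁) (d := b₁)
          rw [hA, h2]
        obtain ⟨t, htC, ht⟩ := exists_null_of_finite (Θ := Th S₀) (q := ty S b b)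
          (r := ty S c c) (isClosed_coord φ false) (by
            intro s
            have hZ := infinite_realisations (S := S) (S' := SA) (a := c)
              ((P' i).th.trans hThA.symm) hcl.1 (s.toList.map Prod.fst)
            have hZ' : {z : PosP P | ∀ ψ ∈ s.toList.map Prod.fst,
                asmT P z z ψ = ty S c c ψ}.Infinite := by
              intro hfin'
              apply hZ
              refine (hfin'.image eA).subset ?_
              intro d hd
              refine ⟨eA.symm d, ?_, by simp⟩
              simp only [mem_ofPred_eq] at hd ⊢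
              intro ψ hψ
              rw [← hA, Equiv.apply_symm_apply]
              exact hd ψ hψ
            have hW1 : {z : PosP P | asmT P' (.inr ⟨(i, b), hb⟩) (J z) φ = true}.Finite := by
              refine Set.Finite.of_finite_image (f := J) (hcon.subset ?_) hJ.injOn
              rintro _ ⟨z, hz, rfl⟩
              exact hz
            have hbad : (Bad S s b).Finite := by
              obtain ⟨k, hk⟩ := bad_bound S s
              rw [← Set.encard_lt_top_iff]
              exact lt_of_le_of_lt (hk b) (ENat.natCast_lt_top k)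
            have hW2 : (Sum.inl '' ((P' i).g ⁻¹' (Bad S s b)) : Set (PosP P)).Finite :=
              (hbad.preimage (g_injective (P' i)).injOn).image _
            obtain ⟨z, hz, hz'⟩ := (hZ'.sdiff (hW1.union hW2)).nonempty
            rw [mem_union, not_or] at hz'
            obtain ⟨hz1, hz2⟩ := hz'
            simp only [mem_ofPred_eq, Bool.not_eq_true] at hz1
            have hInf : Inf (asmT P' (J z) (.inr ⟨(i, b), hb⟩)) := by
              rcases z with f | p
              · exact inf_of_alg ((P' i).isAlg_g f) ((P' i).not_isAlg hb)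
              · exact (asmT_ne (P := P') ⟨(j p.1.1, p.1.2), by rw [hj]; exact p.2⟩
                  ⟨(i, b), hb⟩ (hi p.1.1)).null.1
            refine ⟨asmT P' (.inr ⟨(i, b), hb⟩) (J z), asmT_mem _ _, hz1, ?_, ?_⟩
            · rw [← Bool.not_eq_true, hC'.eq]
              intro h
              exact he ⟨z, h.symm⟩
            · intro ρ hρ
              have hmem : ρ.1 ∈ s.toList.map Prod.fst := by
                rw [List.mem_map]
                exact ⟨ρ, Finset.mem_toList.mpr hρ, rfl⟩
              refine ⟨?_, ?_, ?_, ?_⟩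
              · rw [hC'.left]
                simp only [asmT, if_true]
                rfl
              · rw [hC'.right, hTJ]
                exact hz ρ.1 hmem
              · intro h3
                rcases z with f | p
                · have h4 : (P' i).g f ∉ Bad S s b := by
                    intro h5
                    exact hz2 ⟨f, h5, rfl⟩
                  change ty S b ((P' i).g f) ρ.1 = true at h3
                  show ty S b ((P' i).g f) (.exY ρ.2 ρ.1) = true
                  rw [ty_iff] at h3 ⊢
                  by_contra h5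
                  exact h4 ⟨ρ, hρ, h3, h5⟩
                · exact (asmT_ne (P := P') ⟨(i, b), hb⟩
                    ⟨(j p.1.1, p.1.2), by rw [hj]; exact p.2⟩ (Ne.symm (hi p.1.1))).null.1
                    ρ.1 h3 ρ.2
              · rw [← hC'.swap]
                intro h3
                exact hInf ρ.1 h3 ρ.2)
        have h7 : t = ty S b c := hU _ _ _ _ ht hval
        have h8 : ty S b c φ = true := (ty_iff S b c φ).mpr hcX
        rw [h7] at htC
        simp only [mem_ofPred_eq] at htC
        rw [h8] at htC
        exact absurd htC (by simp)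
      rw [hX.encard_eq, hYinf.encard_eq]

end

end Pool.Agent.Helper5.CTwo
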