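import Pool.Agent.Helper5.CTwo.Main

/-!
# Relations of arity at least three
-/

set_option autoImplicit false
set_option linter.unusedSectionVars false

namespace Pool.Agent.Helper5.CTwo

open Set Filter Topology Pool.Agent.Helper6.Str Pool.Agent.Helper5.Multi

variable {L : FirstOrder.Language.{0, 0}} {M N : Type}

/-- tuples with at least three different entries -/
def Big {n : ℕ} (v : Fin n → M) : Prop := ∀ a b, ∃ i, v i ≠ a ∧ v i ≠ b

section

variable [∀ n, IsEmpty (L.Functions n)]

/-- change the relations on tuples with at least three entries according to a partition -/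
@[instance_reducible]
def modStr (S : L.Structure M) (E : M → ℕ) : L.Structure M :=
  { funMap := fun f _ => isEmptyElim f
    RelMap := fun {_} R v => (Big v ∧ ∀ i j, E (v i) = E (v j)) ∨ (¬ Big v ∧ S.RelMap R v) }

theorem holds_modStr (S : L.Structure M) (E : M → ℕ) (φ : Fml L) :
    ∀ a b, Holds (modStr S E) φ a b ↔ Holds S φ a b := by
  induction φ with
  | eq => intro a b; exact Iff.rfl
  | rel R w =>
    intro a b
    have hb : ¬ Big (fun i => if w i then b else a) := by
      intro h
      obtain ⟨i, h1, h2⟩ := h a b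
      by_cases hw : w i = true
      · exact h2 (if_pos hw)
      · exact h1 (if_neg hw)
    simp only [Holds]
    constructor
    · rintro (⟨h, -⟩ | ⟨-, h⟩)
      · exact absurd h hb
      · exact h
    · intro h
      exact Or.inr ⟨hb, h⟩
  | neg φ ih => intro a b; simp only [Holds, ih]
  | and φ ψ ih1 ih2 => intro a b; simp only [Holds, ih1, ih2]
  | exX n φ ih => intro a b; simp only [Holds, ih]
  | exY n φ ih => intro a b; simp only [Holds, ih]

theorem Th_modStr (S : L.Structure M) (E : M → ℕ) : Th (modStr S E) = Th S := by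
  ext φ
  simp only [Th, mem_ofPred_eq, holds_modStr]

/-- the coded relation -/
def EC (S : L.Structure ℕ) {r : ℕ} (R : L.Relations r) (a b : ℕ) : Prop :=
  ∃ v : Fin r → ℕ, Big v ∧ S.RelMap R v ∧ a ∈ range v ∧ b ∈ range v

theorem big_map {n : ℕ} (e : ℕ ≃ ℕ) {v : Fin n → ℕ} (h : Big v) : Big (e ∘ v) := by
  intro a b
  obtain ⟨i, h1, h2⟩ := h (e.symm a) (e.symm b)
  refine ⟨i, fun h => h1 ?_, fun h => h2 ?_⟩
  · rw [← h]; simp
  · rw [← h]; simp

theorem EC_map {S S' : L.Structure ℕ} {e : ℕ ≃ ℕ} (he : RelIso S S' e) {r : ℕ}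
    (R : L.Relations r) {a b : ℕ} (h : EC S R a b) : EC S' R (e a) (e b) := by
  obtain ⟨v, h1, h2, ⟨i, hi⟩, ⟨j, hj⟩⟩ := h
  exact ⟨e ∘ v, big_map e h1, (he _ R v).mp h2, ⟨i, by simp [hi]⟩, ⟨j, by simp [hj]⟩⟩

theorem EC_iff {S S' : L.Structure ℕ} {e : ℕ ≃ ℕ} (he : RelIso S S' e) {r : ℕ}
    (R : L.Relations r) (a b : ℕ) : EC S R a b ↔ EC S' R (e a) (e b) := by
  refine ⟨EC_map he R, fun h => ?_⟩
  have := EC_map he.symm R h
  simpa using this

theorem EC_modStr (S : L.Structure ℕ) (E : ℕ → ℕ) (hE : ∀ a b c : ℕ, ∃ d, d ≠ b ∧ d ≠ c ∧ E d = E a)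
    {r : ℕ} (hr : 3 ≤ r) (R : L.Relations r) (a b : ℕ) :
    EC (modStr S E) R a b ↔ E a = E b := by
  constructor
  · rintro ⟨v, h1, h2, ⟨i, rfl⟩, ⟨j, rfl⟩⟩
    rcases h2 with ⟨-, h2⟩ | ⟨h2, -⟩
    · exact h2 i j
    · exact absurd h1 h2
  · intro hab
    -- three different elements of the block, among them `a` and `b`
    obtain ⟨p, q, hpa, hqa, hpq, hEp, hEq, hb⟩ : ∃ p q, p ≠ a ∧ q ≠ a ∧ p ≠ q ∧ E p = E a ∧
        E q = E a ∧ (b = a ∨ b = p) := by
      by_cases h : b = a
      · obtain ⟨p, hp1, -, hp3⟩ := hE a a a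
        obtain ⟨q, hq1, hq2, hq3⟩ := hE a a p
        exact ⟨p, q, hp1, hq1, Ne.symm hq2, hp3, hq3, Or.inl h⟩
      · obtain ⟨q, hq1, hq2, hq3⟩ := hE a a b
        exact ⟨b, q, h, hq1, Ne.symm hq2, hab.symm, hq3, Or.inr rfl⟩
    let v : Fin r → ℕ := fun i => if i.1 = 0 then a else if i.1 = 1 then p else q
    have hv0 : v ⟨0, by omega⟩ = a := by simp [v]
    have hv1 : v ⟨1, by omega⟩ = p := by simp [v]
    have hv2 : v ⟨2, by omega⟩ = q := by simp [v]
    have hvE : ∀ i, E (v i) = E a := by
      intro i
      simp only [v]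
      split
      · rfl
      · split
        · exact hEp
        · exact hEq
    have hbig : Big v := by
      intro c d
      by_contra hcon
      push Not at hcon
      have h0 := hcon ⟨0, by omega⟩
      have h1 := hcon ⟨1, by omega⟩
      have h2 := hcon ⟨2, by omega⟩
      rw [hv0] at h0
      rw [hv1] at h1
      rw [hv2] at h2
      by_cases hac : a = c
      · have h3 := h1 (fun h => hpa (h.trans hac.symm))
        have h4 := h2 (fun h => hqa (h.trans hac.symm))
        exact hpq (h3.trans h4.symm)
      · have h3 := h0 hac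
        by_cases hpc : p = c
        · have h4 := h2 (fun h => hpq (hpc.trans h.symm))
          exact hqa (h4.trans h3.symm)
        · have h4 := h1 hpc
          exact hpa (h4.trans h3.symm)
    refine ⟨v, hbig, Or.inl ⟨hbig, fun i j => by rw [hvE, hvE]⟩, ⟨_, hv0⟩, ?_⟩
    rcases hb with rfl | rfl
    · exact ⟨_, hv0⟩
    · exact ⟨_, hv1⟩

end

/-- the sizes of the blocks -/
def bs (x : ℕ → Bool) (i : ℕ) : ℕ := 3 + 2 * i + if x i then 1 else 0

theorem exists_blocks (x : ℕ → Bool) : ∃ E : ℕ → ℕ, (∀ i, {a | E a = i}.encard = bs x i) := by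
  have hinf : Infinite ((i : ℕ) × Fin (bs x i)) := by
    refine Infinite.of_injective
      (fun i : ℕ => (⟨i, ⟨0, by unfold bs; omega⟩⟩ : (i : ℕ) × Fin (bs x i))) ?_
    intro i j hij
    exact congrArg Sigma.fst hij
  obtain ⟨d⟩ := nonempty_denumerable ((i : ℕ) × Fin (bs x i))
  let e : ((i : ℕ) × Fin (bs x i)) ≃ ℕ := Denumerable.eqv _
  refine ⟨fun a => (e.symm a).1, fun i => ?_⟩
  have : {a | (e.symm a).1 = i} = range (fun k : Fin (bs x i) => e ⟨i, k⟩) := by
    ext a
    simp only [mem_ofPred_eq, mem_range]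
    constructor
    · intro h
      rcases ha : e.symm a with ⟨j, k⟩
      rw [ha] at h
      simp only at h
      subst h
      exact ⟨k, by rw [← ha, Equiv.apply_symm_apply]⟩
    · rintro ⟨k, rfl⟩
      simp
  rw [this, ← Set.image_univ, Function.Injective.encard_image]
  · simp
  · intro k l hkl
    have := e.injective hkl
    simpa using this

theorem perfK_of_highArity [∀ n, IsEmpty (L.Functions n)] [∀ n, Countable (L.Relations n)]
    {r : ℕ} (hr : 3 ≤ r) (R : L.Relations r) {K : Set (L.Structure ℕ)}
    (hK : MeasurableSet {c : Code L | toStr c ∈ K})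
    (hinv : ∀ S S' : L.Structure ℕ, Th S = Th S' → S ∈ K → S' ∈ K) (hne : K.Nonempty) :
    PerfK K := by
  classical
  obtain ⟨S, hS⟩ := hne
  refine perfK_of_reals (J := Unit) (B := fun _ => {c : Code L | toStr c ∈ K})
    (fun _ => hK) (fun _ c hc => hc) (Y := ℕ → Bool)
    (Z := fun _ c n => decide (∃ a, {b | EC (toStr c) R a b}.encard = (n : ℕ∞))) ?_ ?_ ?_
  · intro _
    rw [measurable_pi_iff]
    intro n
    refine measurable_to_bool ?_
    have : (fun c : Code L => decide (∃ a, {b | EC (toStr c) R a b}.encard = (n : ℕ∞))) ⁻¹' {true}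
        = ⋃ a, {c : Code L | {b | c ∈ {c : Code L | EC (toStr c) R a b}}.encard = (n : ℕ∞)} := by
      ext c
      simp only [mem_preimage, mem_singleton_iff, decide_eq_true_eq, mem_iUnion, mem_ofPred_eq]
    rw [this]
    refine MeasurableSet.iUnion fun a => measurableSet_eq_encard (fun b => ?_) n
    have h2 : {c : Code L | EC (toStr c) R a b} =
        ⋃ v : Fin r → ℕ, ({_c : Code L | Big v} ∩ {c : Code L | (toStr c).RelMap R v} ∩
          {_c : Code L | a ∈ range v ∧ b ∈ range v}) := by
      ext c
      simp only [EC, mem_ofPred_eq, mem_iUnion, mem_inter_iff, and_assoc]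
    rw [h2]
    exact MeasurableSet.iUnion fun v => ((MeasurableSet.const _).inter
      (measurableSet_relMap R v)).inter (MeasurableSet.const _)
  · rintro _ _ c - d - ⟨e, he⟩
    refine ⟨(), ?_⟩
    funext n
    rw [Bool.eq_iff_iff, decide_eq_true_eq, decide_eq_true_eq]
    constructor
    · rintro ⟨a, ha⟩
      refine ⟨e a, ?_⟩
      rw [← ha]
      exact (encard_preimage_equiv e _ _ fun b => EC_iff he R a b).symm
    · rintro ⟨a, ha⟩
      refine ⟨e.symm a, ?_⟩
      rw [← ha]
      exact (encard_preimage_equiv e.symm _ _ fun b => EC_iff he.symm R a b).symm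
  · intro hc
    -- the coding structures
    choose E hE using exists_blocks
    let z : (ℕ → Bool) → ℕ → Bool := fun x n => decide (∃ i, bs x i = n)
    have hzinj : Function.Injective z := by
      have hkey : ∀ x i, z x (4 + 2 * i) = x i := by
        intro x i
        rw [Bool.eq_iff_iff]
        simp only [z, decide_eq_true_eq]
        constructor
        · rintro ⟨j, hj⟩
          unfold bs at hj
          split at hj
          · rename_i hx
            have : j = i := by omega
            rw [← this]; exact hx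
          · omega
        · intro hx
          exact ⟨i, by unfold bs; rw [if_pos hx]; omega⟩
      intro x y hxy
      funext i
      rw [← hkey x i, ← hkey y i, hxy]
    apply not_countable_cantor
    refine Set.countable_of_injective_of_countable_image (f := z) hzinj.injOn ?_
    refine hc.mono ?_
    rintro _ ⟨x, -, rfl⟩
    rw [mem_iUnion]
    have hblock : ∀ a b c : ℕ, ∃ d, d ≠ b ∧ d ≠ c ∧ E x d = E x a := by
      intro a b c
      by_contra hcon
      push Not at hcon
      have hsub : {d | E x d = E x a} ⊆ {b, c} := by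
        intro d hd
        by_contra hd'
        simp only [mem_insert_iff, mem_singleton_iff, not_or] at hd'
        exact hcon d hd'.1 hd'.2 hd
      have h1 := Set.encard_le_encard hsub
      rw [hE x (E x a)] at h1
      have h2 : ((3 : ℕ) : ℕ∞) ≤ (bs x (E x a) : ℕ∞) := by
        exact_mod_cast (by unfold bs; omega : 3 ≤ bs x (E x a))
      have h3 := h2.trans (h1.trans (Set.encard_insert_le _ _))
      rw [Set.encard_singleton] at h3
      exact absurd h3 (by norm_num)
    refine ⟨(), ofStr (modStr S (E x)), ?_, ?_⟩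
    · show toStr (ofStr (modStr S (E x))) ∈ K
      rw [toStr_ofStr]
      exact hinv S _ (Th_modStr S (E x)).symm hS
    · funext n
      show decide (∃ a, {b | EC (toStr (ofStr (modStr S (E x)))) R a b}.encard = (n : ℕ∞)) = z x n
      rw [toStr_ofStr]
      rw [Bool.eq_iff_iff, decide_eq_true_eq]
      simp only [z, decide_eq_true_eq]
      have h3 : ∀ a, {b | EC (modStr S (E x)) R a b}.encard = (bs x (E x a) : ℕ∞) := by
        intro a
        rw [← hE x (E x a)]
        congr 1
        ext b
        simp only [mem_ofPred_eq]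
        rw [EC_modStr S (E x) hblock hr R]
        exact eq_comm
      constructor
      · rintro ⟨a, ha⟩
        rw [h3] at ha
        exact ⟨E x a, by exact_mod_cast ha⟩
      · rintro ⟨i, hi⟩
        have h4 : {a | E x a = i}.Nonempty := by
          rw [← Set.encard_ne_zero, hE x i]
          exact_mod_cast (by unfold bs; omega : bs x i ≠ 0)
        obtain ⟨a, ha⟩ := h4
        have ha' : E x a = i := ha
        refine ⟨a, ?_⟩
        rw [h3, ha', hi]

/-- **Vaught's conjecture for two-variable logic with counting.** -/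
theorem dichotomy_all [∀ n, IsEmpty (L.Functions n)] [∀ n, Countable (L.Relations n)]
    {K : Set (L.Structure ℕ)} (hK : MeasurableSet {c : Code L | toStr c ∈ K})
    (hinv : ∀ S S' : L.Structure ℕ, Th S = Th S' → S ∈ K → S' ∈ K) : CtblK K ∨ PerfK K := by
  by_cases hL : ∀ n, 3 ≤ n → IsEmpty (L.Relations n)
  · exact dichotomy_borel hL hK hinv
  · push Not at hL
    obtain ⟨r, hr, ⟨R⟩⟩ := hL
    rcases K.eq_empty_or_nonempty with rfl | hne
    · exact Or.inl ⟨fun _ => toStr fun _ => false, fun S hS => absurd hS (by simp)⟩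
    · exact Or.inr (perfK_of_highArity hr R hK hinv hne)

end Pool.Agent.Helper5.CTwo
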