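import Pool.Agent.Helper5.CTwo.Grow

/-!
# The dichotomy for a single theory, binary languages
-/

set_option autoImplicit false
set_option linter.unusedSectionVars false

namespace Pool.Agent.Helper5.CTwo

open Set Filter Topology Pool.Agent.Helper6.Str Pool.Agent.Helper5.Multi

variable {L : FirstOrder.Language.{0, 0}} {M N : Type}

section

variable [∀ n, IsEmpty (L.Functions n)] [∀ n, Countable (L.Relations n)]

/-- The structures with the theory of `S₀` and an isomorphic algebraic part. -/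
def KF (S₀ : L.Structure ℕ) : Set (L.Structure ℕ) :=
  {S | Th S = Th S₀ ∧ ∃ g, Marks S₀ S g}

theorem ty_relOf {T : M → M → Ty L} (hC : Coh T) (hN : Cnt T) (x y : M) :
    ty (relOf T) x y = T x y := ty_transfer (atomOK_relOf hC) hC hN x y

/-- The frame of a class with given theory and algebraic part. -/
noncomputable def frame (hL : ∀ n, 3 ≤ n → IsEmpty (L.Relations n)) (S₀ : L.Structure ℕ)
    (hU : UniqNull (Th S₀)) : Frame (KF S₀) where
  Piece := Piece S₀
  r := Piece.setoid S₀
  F := {x // IsAlg S₀ x}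
  ctF := inferInstance
  el := Piece.el
  asm := fun P => relOf (asmT P)
  Md := fun P => Infinite (PosP P) ∧ Cnt (asmT P)
  mono := by
    intro I I' _ _ P P' j hinj hj hP
    have := hP.1
    exact ⟨Infinite.of_injective (posMap j hj) (posMap_injective j hj hinj),
      cnt_mono hU j hinj hj hP.1 hP.2⟩
  md_congr := by
    intro I I' _ _ P P' τ h hP
    obtain ⟨E, hE⟩ := exists_glue τ h
    have := hP.1
    exact ⟨Infinite.of_injective E E.injective, cnt_of_equiv E hE hP.2⟩
  congr := by
    intro I I' _ _ P P' τ h _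
    obtain ⟨E, hE⟩ := exists_glue τ h
    exact ⟨E, relIso_relOf E hE⟩
  emb := by
    intro I I' _ _ P P' j hj hinj hP n R v
    have := hP
    obtain ⟨x₀⟩ : Nonempty (PosP P) := inferInstance
    exact relOf_emb (coh_asmT hU P) (coh_asmT hU P') (posMap j hj) (posMap_injective j hj hinj)
      (asmT_posMap j hj hinj) x₀ n R v
  inf := fun hP => hP.1
  mem := by
    intro I _ P hP S hS
    obtain ⟨e, he⟩ := hS
    have hty : ∀ x y, ty S (e x) (e y) = asmT P x y := by
      intro x y
      rw [ty_of_relIso he, ty_relOf (coh_asmT hU P) hP.2]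
    have := hP.1
    obtain ⟨x₀⟩ : Nonempty (PosP P) := inferInstance
    refine ⟨?_, fun f => e (.inl f), fun f f' => hty _ _, fun c => ?_⟩
    · obtain ⟨S₁, a₁, b₁, h1, h2⟩ := asmT_mem (P := P) x₀ x₀
      rw [← h1]
      apply Th_of_types (a := e x₀) (b := e x₀) (c := a₁) (d := b₁)
      rw [hty, h2]
    · obtain ⟨x, rfl⟩ := e.surjective c
      rw [← alg_ty_iff, hty]
      rcases x with f | p
      · exact ⟨fun _ => ⟨f, rfl⟩, fun _ => alg_inl f⟩
      · constructor
        · intro h
          exact absurd h (not_alg_inr p)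
        · rintro ⟨f, hf⟩
          exact absurd (e.injective hf) (by simp)
  rep := by
    rintro S ⟨hS, g, hg⟩
    obtain ⟨I, hI, P, e, he⟩ := exists_rep hU S hS g hg
    have hcnt : Cnt (asmT P) := by
      intro x φ n
      rw [← he, ty_iff]
      simp only [Holds]
      rw [encard_preimage_equiv e {y | asmT P x y φ = true} {c | Holds S φ (e x) c}
        (fun y => by simp only [mem_ofPred_eq, ← he, ty_iff])]
    have hinf : Infinite (PosP P) := Infinite.of_injective e.symm e.symm.injective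
    refine ⟨I, hI, P, ⟨hinf, hcnt⟩, e, ?_⟩
    refine relIso_of_ty hL e fun a b => ?_
    rw [he, ty_relOf (coh_asmT hU P) hcnt]
  dec := by
    intro I I' _ _ P P' hP hP' hiso
    obtain ⟨E, hE⟩ := hiso
    refine exists_dec hU E fun x y => ?_
    rw [← ty_relOf (coh_asmT hU P') hP'.2, ty_of_relIso hE, ty_relOf (coh_asmT hU P) hP.2]

theorem ctblK_of_iUnion {K : Set (L.Structure ℕ)} {ι : Type} [Countable ι]
    {G : ι → Set (L.Structure ℕ)} (h : ∀ i, CtblK (G i)) (hK : K ⊆ ⋃ i, G i) : CtblK K := by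
  choose g hg using h
  rcases isEmpty_or_nonempty ι with hι | hι
  · refine ⟨fun _ => toStr fun _ => false, fun S hS => ?_⟩
    obtain ⟨i, -⟩ := mem_iUnion.mp (hK hS)
    exact isEmptyElim i
  · obtain ⟨f, hf⟩ := exists_surjective_nat (ι × ℕ)
    refine ⟨fun n => g (f n).1 (f n).2, fun S hS => ?_⟩
    obtain ⟨i, hi⟩ := mem_iUnion.mp (hK hS)
    obtain ⟨n, hn⟩ := hg i S hi
    obtain ⟨m, hm⟩ := hf (i, n)
    refine ⟨m, ?_⟩
    show Iso S (g (f m).1 (f m).2)
    rw [hm]
    exact hn

theorem dichotomy_theory (hL : ∀ n, 3 ≤ n → IsEmpty (L.Relations n)) (Θ : Set (Fml L)) :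
    CtblK (KTh Θ) ∨ PerfK (KTh Θ) := by
  classical
  by_cases hP : PerfK (KTh Θ)
  · exact Or.inr hP
  left
  have hU := uniqNull_of_not hP
  have hR : (Rl Θ).Countable := by
    by_contra hcon
    apply hP
    refine perfK_of_types (K := KTh Θ) (measurableSet_Th Θ) ?_
    intro hc
    apply hcon
    refine hc.mono ?_
    rintro t ⟨S, a, b, hS, rfl⟩
    exact ⟨S, hS, a, b, rfl⟩
  have hM : {z : Mx Θ → Bool | ∃ S ∈ KTh Θ, matI Θ S = z}.Countable := by
    by_contra hcon
    exact hP (perfK_of_mat hR hcon)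
  have := hM.to_subtype
  refine ctblK_of_iUnion (ι := {z : Mx Θ → Bool | ∃ S ∈ KTh Θ, matI Θ S = z})
    (G := fun z => {S | Th S = Θ ∧ matI Θ S = z}) ?_ ?_
  · rintro ⟨z, S₀, hS₀, rfl⟩
    have hS₀' : Th S₀ = Θ := hS₀
    subst hS₀'
    have h1 : CtblK (KF S₀) := by
      rcases (frame hL S₀ hU).dichotomy with h | h
      · exact h
      · exact absurd (perfK_mono (fun S hS => hS.1) h) hP
    obtain ⟨g, hg⟩ := h1
    refine ⟨g, fun S hS => hg S ⟨hS.1, ?_⟩⟩
    exact exists_marks (Θ := Th S₀) rfl hS.1 hS.2.symm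
  · intro S hS
    rw [mem_iUnion]
    exact ⟨⟨matI Θ S, S, hS, rfl⟩, hS, rfl⟩

/-! ### Classes closed under equivalence -/

/-- Borel classes of structures on `ℕ` closed under equivalence in two-variable logic with
counting, in languages with relations of arity at most two. -/
theorem dichotomy_borel (hL : ∀ n, 3 ≤ n → IsEmpty (L.Relations n)) {K : Set (L.Structure ℕ)}
    (hK : MeasurableSet {c : Code L | toStr c ∈ K})
    (hinv : ∀ S S' : L.Structure ℕ, Th S = Th S' → S ∈ K → S' ∈ K) : CtblK K ∨ PerfK K := by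
  classical
  by_cases hP : PerfK K
  · exact Or.inr hP
  left
  have hR : {t : Ty L | ∃ S ∈ K, ∃ a b, ty S a b = t}.Countable := by
    by_contra hcon
    exact hP (perfK_of_types hK hcon)
  have := hR.to_subtype
  refine ctblK_of_iUnion (ι := {t : Ty L | ∃ S ∈ K, ∃ a b, ty S a b = t})
    (G := fun t => KTh (thy t)) ?_ ?_
  · rintro ⟨t, S, hS, a, b, rfl⟩
    rcases dichotomy_theory hL (thy (ty S a b)) with h | h
    · exact h
    · refine absurd (perfK_mono ?_ h) hP
      intro S' hS'
      refine hinv S S' ?_ hS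
      rw [← thy_ty S a b]
      exact hS'.symm
  · intro S hS
    rw [mem_iUnion]
    exact ⟨⟨ty S 0 0, S, hS, 0, 0, rfl⟩, (thy_ty S 0 0).symm⟩

end

end Pool.Agent.Helper5.CTwo
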