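import Pool.Agent.Helper5.CTwo.Sheets

/-!
# Measurability of satisfaction
-/

set_option autoImplicit false

namespace Pool.Agent.Helper5.CTwo

open Set Filter Topology Pool.Agent.Helper6.Str

variable {L : FirstOrder.Language.{0, 0}} [∀ n, IsEmpty (L.Functions n)]
  [∀ n, Countable (L.Relations n)]

theorem measurableSet_le_encard {X : Type*} [MeasurableSpace X] {A : ℕ → Set X}
    (hA : ∀ c, MeasurableSet (A c)) (n : ℕ) :
    MeasurableSet {x | (n : ℕ∞) ≤ {c | x ∈ A c}.encard} := by
  have : {x | (n : ℕ∞) ≤ {c | x ∈ A c}.encard} =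
      ⋃ (v : Fin n → ℕ) (_ : Function.Injective v), ⋂ i, A (v i) := by
    ext x
    simp only [mem_ofPred_eq, le_encard_iff, mem_iUnion, mem_iInter]
    constructor
    · rintro ⟨v, hv, h⟩
      exact ⟨v, hv, h⟩
    · rintro ⟨v, hv, h⟩
      exact ⟨v, hv, h⟩
  rw [this]
  exact MeasurableSet.iUnion fun v => MeasurableSet.iUnion fun _ =>
    MeasurableSet.iInter fun i => hA _

theorem measurableSet_eq_encard {X : Type*} [MeasurableSpace X] {A : ℕ → Set X}
    (hA : ∀ c, MeasurableSet (A c)) (n : ℕ) :
    MeasurableSet {x | {c | x ∈ A c}.encard = (n : ℕ∞)} := by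
  have : {x | {c | x ∈ A c}.encard = (n : ℕ∞)} =
      {x | (n : ℕ∞) ≤ {c | x ∈ A c}.encard} ∩ {x | ((n + 1 : ℕ) : ℕ∞) ≤ {c | x ∈ A c}.encard}ᶜ := by
    ext x
    simp only [mem_ofPred_eq, mem_inter_iff, mem_compl_iff, not_le]
    constructor
    · intro h
      rw [h]
      exact ⟨le_rfl, by exact_mod_cast Nat.lt_succ_self n⟩
    · rintro ⟨h1, h2⟩
      refine le_antisymm ?_ h1
      rw [Nat.cast_add, Nat.cast_one] at h2
      exact Order.le_of_lt_add_one h2
  rw [this]
  exact (measurableSet_le_encard hA n).inter (measurableSet_le_encard hA (n + 1)).compl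

theorem measurableSet_holds (φ : Fml L) :
    ∀ a b : ℕ, MeasurableSet {c : Code L | Holds (toStr c) φ a b} := by
  induction φ with
  | eq => intro a b; simp only [Holds]; exact MeasurableSet.const _
  | rel R w => intro a b; exact measurableSet_relMap R _
  | neg φ ih => intro a b; exact (ih a b).compl
  | and φ ψ ih1 ih2 => intro a b; exact (ih1 a b).inter (ih2 a b)
  | exX n φ ih => intro a b; exact measurableSet_le_encard (fun c => ih c b) n
  | exY n φ ih => intro a b; exact measurableSet_le_encard (fun c => ih a c) n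

theorem measurable_ty (a b : ℕ) : Measurable fun c : Code L => ty (toStr c) a b := by
  rw [measurable_pi_iff]
  intro φ
  refine measurable_to_bool ?_
  have : (fun c : Code L => ty (toStr c) a b φ) ⁻¹' {true} =
      {c : Code L | Holds (toStr c) φ a b} := by
    ext c
    simp only [mem_preimage, mem_singleton_iff, ty_iff, mem_ofPred_eq]
  rw [this]
  exact measurableSet_holds φ a b

theorem measurableSet_ty_eq (a b : ℕ) (t : Ty L) :
    MeasurableSet {c : Code L | ty (toStr c) a b = t} :=
  (measurable_ty a b) (measurableSet_singleton t)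

theorem measurableSet_Th (Θ : Set (Fml L)) : MeasurableSet {c : Code L | Th (toStr c) = Θ} := by
  have : {c : Code L | Th (toStr c) = Θ} =
      ⋂ φ : Fml L, {c : Code L | φ ∈ Th (toStr c) ↔ φ ∈ Θ} := by
    ext c
    simp only [mem_ofPred_eq, mem_iInter, Set.ext_iff]
  rw [this]
  refine MeasurableSet.iInter fun φ => ?_
  have h1 : MeasurableSet {c : Code L | φ ∈ Th (toStr c)} := by
    have : {c : Code L | φ ∈ Th (toStr c)} = ⋂ a, ⋂ b, {c : Code L | Holds (toStr c) φ a b} := by
      ext c
      simp only [Th, mem_ofPred_eq, mem_iInter]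
    rw [this]
    exact MeasurableSet.iInter fun a => MeasurableSet.iInter fun b => measurableSet_holds φ a b
  by_cases h : φ ∈ Θ
  · simp only [h, iff_true]; exact h1
  · simp only [h, iff_false]; exact h1.compl

/-- The structures with a given theory. -/
def KTh (Θ : Set (Fml L)) : Set (L.Structure ℕ) := {S | Th S = Θ}

omit [∀ n, IsEmpty (L.Functions n)] [∀ n, Countable (L.Relations n)] in
theorem perfK_mono {K K' : Set (L.Structure ℕ)} (h : K ⊆ K') (hK : PerfK K) : PerfK K' := by
  obtain ⟨f, h1, h2, h3⟩ := hK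
  exact ⟨f, fun x => h (h1 x), h2, h3⟩

/-- If uncountably many types are realised then there are perfectly many models. -/
theorem perfK_of_types {K : Set (L.Structure ℕ)} (hK : MeasurableSet {c : Code L | toStr c ∈ K})
    (h : ¬ {t : Ty L | ∃ S ∈ K, ∃ a b, ty S a b = t}.Countable) : PerfK K := by
  refine perfK_of_reals (J := ℕ × ℕ) (B := fun _ => {c : Code L | toStr c ∈ K}) (fun _ => hK)
    (fun _ c hc => hc) (Z := fun j c => ty (toStr c) j.1 j.2) (fun j => measurable_ty j.1 j.2)
    ?_ ?_
  · rintro ⟨a, b⟩ _ c _ d _ ⟨e, he⟩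
    exact ⟨(e a, e b), (ty_of_relIso he a b).symm⟩
  · intro hc
    apply h
    refine hc.mono ?_
    rintro t ⟨S, hS, a, b, rfl⟩
    rw [mem_iUnion]
    refine ⟨(a, b), ofStr S, ?_, ?_⟩
    · show toStr (ofStr S) ∈ K
      rwa [toStr_ofStr]
    · show ty (toStr (ofStr S)) a b = _
      rw [toStr_ofStr]

end Pool.Agent.Helper5.CTwo
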