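import Pool.Agent.Helper5.CTwo.Compact

/-!
# Algebraic elements and null types
-/

set_option autoImplicit false

namespace Pool.Agent.Helper5.CTwo

open Set Filter Topology Pool.Agent.Helper6.Str

variable {L : FirstOrder.Language.{0, 0}} {M N P : Type}

/-- every formula in `t` has infinitely many realisations over the left element -/
def Inf (t : Ty L) : Prop := ∀ φ, t φ = true → ∀ n, t (.exY n φ) = true

/-- null types -/
def Null (t : Ty L) : Prop := Inf t ∧ Inf (swp t)

theorem le_encard_all_iff {α : Type*} (A : Set α) : (∀ n : ℕ, (n : ℕ∞) ≤ A.encard) ↔ A.Infinite := by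
  rw [← Set.encard_eq_top_iff, ENat.eq_top_iff_forall_ge]

theorem inf_ty_iff (S : L.Structure M) (a b : M) :
    Inf (ty S a b) ↔ ∀ φ, Holds S φ a b → {c | Holds S φ a c}.Infinite := by
  simp only [Inf, ty_iff]
  constructor
  · intro h φ hφ
    rw [← le_encard_all_iff]
    exact h φ hφ
  · intro h φ hφ
    exact (le_encard_all_iff _).mpr (h φ hφ)

theorem swp_swp_ty (S : L.Structure M) (a b : M) : swp (swp (ty S a b)) = ty S a b := by
  rw [swp_ty, swp_ty]

/-- an element with a formula satisfied by finitely many elements only -/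
def IsAlg (S : L.Structure M) (a : M) : Prop := ∃ φ, Holds S φ a a ∧ {c | Holds S φ c c}.Finite

/-- algebraic one-types -/
def Alg (p : Ty L) : Prop := ∃ φ, p φ = true ∧ ∃ n, p (.exY n (dY φ)) = false

theorem alg_ty_iff (S : L.Structure M) (a : M) : Alg (ty S a a) ↔ IsAlg S a := by
  simp only [Alg, IsAlg, ty_iff, ty_false_iff]
  constructor
  · rintro ⟨φ, h1, n, h2⟩
    refine ⟨φ, h1, ?_⟩
    by_contra hcon
    apply h2
    simp only [Holds, holds_dY]
    exact (le_encard_all_iff _).mpr hcon n
  · rintro ⟨φ, h1, h2⟩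
    refine ⟨φ, h1, ?_⟩
    by_contra hcon
    push Not at hcon
    have h3 : ∀ n : ℕ, (n : ℕ∞) ≤ {c | Holds S φ c c}.encard := by
      intro n
      have := hcon n
      simpa only [Holds, holds_dY] using this
    exact (le_encard_all_iff _).mp h3 h2

theorem isAlg_iff_of_ty {S : L.Structure M} {S' : L.Structure N} {a : M} {b : N}
    (h : ty S a a = ty S' b b) : IsAlg S a ↔ IsAlg S' b := by
  rw [← alg_ty_iff, h, alg_ty_iff]

/-- An algebraic element sees infinitely many elements like a given nonalgebraic one. -/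
theorem inf_of_alg {S : L.Structure M} {f a : M} (hf : IsAlg S f) (ha : ¬ IsAlg S a) :
    Inf (ty S f a) := by
  rw [inf_ty_iff]
  intro φ hφ
  obtain ⟨θ, hθ1, hθ2⟩ := hf
  by_contra hfin
  rw [Set.not_infinite] at hfin
  apply ha
  obtain ⟨n, hn⟩ : ∃ n : ℕ, ¬ (n : ℕ∞) ≤ {c | Holds S φ f c}.encard := by
    by_contra hcon
    push Not at hcon
    exact (le_encard_all_iff _).mp hcon hfin
  refine ⟨.exX 1 (.and (dX θ) (.and φ (.neg (.exY n φ)))), ?_, ?_⟩
  · simp only [Holds, one_le_encard_iff]
    exact ⟨f, (holds_dX S θ f a).mpr hθ1, hφ, hn⟩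
  · have hsub : {c | Holds S (.exX 1 (.and (dX θ) (.and φ (.neg (.exY n φ))))) c c} ⊆
        ⋃ f' ∈ {f' | Holds S θ f' f'},
          {c | Holds S φ f' c ∧ ¬ (n : ℕ∞) ≤ {d | Holds S φ f' d}.encard} := by
      intro c hc
      simp only [Holds, one_le_encard_iff, mem_ofPred_eq] at hc
      obtain ⟨f', h1, h2, h3⟩ := hc
      simp only [mem_iUnion]
      exact ⟨f', (holds_dX S θ f' c).mp h1, h2, h3⟩
    refine Set.Finite.subset (Set.Finite.biUnion hθ2 fun f' _ => ?_) hsub
    by_cases h3 : (n : ℕ∞) ≤ {d | Holds S φ f' d}.encard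
    · convert Set.finite_empty
      ext c
      simp [h3]
    · have h4 : {d | Holds S φ f' d}.Finite := by
        by_contra hcon
        exact h3 ((le_encard_all_iff _).mpr hcon n)
      exact h4.subset fun c hc => hc.1

theorem not_isAlg_right {S : L.Structure M} {a b : M} (h : Inf (ty S a b)) : ¬ IsAlg S b := by
  rintro ⟨φ, h1, h2⟩
  rw [inf_ty_iff] at h
  have := h (dY φ) ((holds_dY S φ a b).mpr h1)
  simp only [holds_dY] at this
  exact this h2

theorem not_isAlg_left {S : L.Structure M} {a b : M} (h : Inf (swp (ty S a b))) :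
    ¬ IsAlg S a := by
  rw [swp_ty] at h
  exact not_isAlg_right h

/-! ### Finite conjunctions -/

/-- a tautology -/
def topF : Fml L := .neg (.and .eq (.neg .eq))

theorem holds_topF (S : L.Structure M) (a b : M) : Holds S topF a b := by
  simp only [topF, Holds]
  tauto

/-- finite conjunction -/
def conjL : List (Fml L) → Fml L
  | [] => topF
  | (φ :: l) => .and φ (conjL l)

theorem holds_conjL (S : L.Structure M) (l : List (Fml L)) (a b : M) :
    Holds S (conjL l) a b ↔ ∀ φ ∈ l, Holds S φ a b := by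
  induction l with
  | nil => simp [conjL, holds_topF]
  | cons φ l ih => simp [conjL, Holds, ih]

/-- `φ` or its negation, whichever is in `p` -/
def sg (p : Ty L) (φ : Fml L) : Fml L := if p φ = true then φ else .neg φ

theorem holds_sg (S : L.Structure M) (p : Ty L) (φ : Fml L) (a b : M) :
    Holds S (sg p φ) a b ↔ ty S a b φ = p φ := by
  unfold sg
  split
  · rename_i h
    rw [h, ty_iff]
  · rename_i h
    rw [Bool.not_eq_true] at h
    rw [h, ty_false_iff]
    rfl

/-- the conjunction describing a finite part of a type -/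
def descr (p : Ty L) (l : List (Fml L)) : Fml L := conjL (l.map (sg p))

theorem holds_descr (S : L.Structure M) (p : Ty L) (l : List (Fml L)) (a b : M) :
    Holds S (descr p l) a b ↔ ∀ φ ∈ l, ty S a b φ = p φ := by
  simp [descr, holds_conjL, holds_sg]

/-- Finite parts of a nonalgebraic type have infinitely many realisations. -/
theorem infinite_realisations {S S' : L.Structure ℕ} {a : ℕ} (hTh : Th S = Th S')
    (ha : ¬ IsAlg S a) (l : List (Fml L)) :
    {c | ∀ φ ∈ l, ty S' c c φ = ty S a a φ}.Infinite := by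
  have h1 : {c | ∀ φ ∈ l, ty S c c φ = ty S a a φ}.Infinite := by
    intro hfin
    apply ha
    refine ⟨descr (ty S a a) l, (holds_descr _ _ _ _ _).mpr fun _ _ => rfl, ?_⟩
    simpa only [holds_descr] using hfin
  rw [← le_encard_all_iff] at h1 ⊢
  intro n
  have h2 : (Fml.exY n (dY (descr (ty S a a) l))) ∈ Th S := by
    intro u v
    simp only [Holds, holds_dY, holds_descr]
    exact h1 n
  rw [hTh] at h2
  have h3 := h2 0 0
  simpa only [Holds, holds_dY, holds_descr] using h3

/-! ### Existence of null types -/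

/-- bad elements for a finite set of requirements -/
def Bad (S : L.Structure M) (s : Finset (Fml L × ℕ)) (a : M) : Set M :=
  {b | ∃ r ∈ s, Holds S r.1 a b ∧ ¬ (r.2 : ℕ∞) ≤ {c | Holds S r.1 a c}.encard}

theorem bad_bound (S : L.Structure M) (s : Finset (Fml L × ℕ)) :
    ∃ k : ℕ, ∀ a, (Bad S s a).encard ≤ k := by
  classical
  induction s using Finset.induction_on with
  | empty =>
    refine ⟨0, fun a => ?_⟩
    have : Bad S ∅ a = ∅ := by
      ext b; simp [Bad]
    rw [this]
    simp
  | insert r s hr ih =>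
    obtain ⟨k, hk⟩ := ih
    refine ⟨r.2 + k, fun a => ?_⟩
    have hsub : Bad S (insert r s) a ⊆
        {b | Holds S r.1 a b ∧ ¬ (r.2 : ℕ∞) ≤ {c | Holds S r.1 a c}.encard} ∪ Bad S s a := by
      rintro b ⟨r', hr', h⟩
      rw [Finset.mem_insert] at hr'
      rcases hr' with rfl | hr'
      · exact Or.inl h
      · exact Or.inr ⟨r', hr', h⟩
    refine (Set.encard_le_encard hsub).trans ((Set.encard_union_le _ _).trans ?_)
    push_cast
    refine add_le_add ?_ (hk a)
    by_cases h3 : (r.2 : ℕ∞) ≤ {c | Holds S r.1 a c}.encard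
    · have : {b | Holds S r.1 a b ∧ ¬ (r.2 : ℕ∞) ≤ {c | Holds S r.1 a c}.encard} = ∅ := by
        ext b; simp [h3]
      rw [this]; simp
    · refine (Set.encard_le_encard (t := {c | Holds S r.1 a c}) fun b hb => hb.1).trans ?_
      exact (not_le.mp h3).le

theorem exists_good_pair (S : L.Structure ℕ) (s : Finset (Fml L × ℕ)) {U V : Set ℕ}
    (hU : U.Infinite) (hV : V.Infinite) :
    ∃ a ∈ U, ∃ b ∈ V, a ≠ b ∧ b ∉ Bad S s a ∧ a ∉ Bad S s b := by
  obtain ⟨k, hk⟩ := bad_bound S s
  have hfin : ∀ a, (Bad S s a).Finite := by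
    intro a
    rw [← Set.encard_lt_top_iff]
    exact lt_of_le_of_lt (hk a) (ENat.natCast_lt_top k)
  -- choose `k+1` elements of `U`
  have hUk : ((k + 1 : ℕ) : ℕ∞) ≤ U.encard := (le_encard_all_iff U).mpr hU (k + 1)
  obtain ⟨v, hv, hvU⟩ := (le_encard_iff _ _).mp hUk
  have hfin2 : (⋃ i, (Bad S s (v i) ∪ {v i})).Finite :=
    Set.finite_iUnion fun i => (hfin _).union (Set.finite_singleton _)
  obtain ⟨b, hbV, hb⟩ := (hV.sdiff hfin2).nonempty
  simp only [mem_iUnion, mem_union, mem_singleton_iff, not_exists, not_or] at hb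
  obtain ⟨i, hi⟩ : ∃ i, v i ∉ Bad S s b := by
    by_contra hcon
    push Not at hcon
    have h1 : ((k + 1 : ℕ) : ℕ∞) ≤ (Bad S s b).encard := (le_encard_iff _ _).mpr ⟨v, hv, hcon⟩
    have h2 := h1.trans (hk b)
    have h3 : (k + 1 : ℕ) ≤ k := by exact_mod_cast h2
    omega
  exact ⟨v i, hvU i, b, hbV, fun h => (hb i).2 h.symm, (hb i).1, hi⟩

theorem isClosed_coord (φ : Fml L) (b : Bool) : IsClosed {t : Ty L | t φ = b} :=
  (isClosed_discrete ({b} : Set Bool)).preimage (continuous_apply (A := fun _ : Fml L => Bool) φ)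

theorem isClosed_imp_coord (φ ψ : Fml L) : IsClosed {t : Ty L | t φ = true → t ψ = true} := by
  have : {t : Ty L | t φ = true → t ψ = true} = {t : Ty L | t φ = false} ∪ {t | t ψ = true} := by
    ext t
    simp only [mem_ofPred_eq, mem_union]
    cases t φ <;> simp
  rw [this]
  exact (isClosed_coord φ false).union (isClosed_coord ψ true)

theorem isClosed_inf : IsClosed {t : Ty L | Inf t} := by
  have : {t : Ty L | Inf t} = ⋂ φ, ⋂ n, {t : Ty L | t φ = true → t (.exY n φ) = true} := by
    ext t
    simp only [Inf, mem_ofPred_eq, mem_iInter]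
    exact ⟨fun h φ n hφ => h φ hφ n, fun h φ hφ n => h φ n hφ⟩
  rw [this]
  exact isClosed_iInter fun φ => isClosed_iInter fun n => isClosed_imp_coord _ _

theorem continuous_swp : Continuous (swp : Ty L → Ty L) :=
  continuous_pi fun φ => continuous_apply (A := fun _ : Fml L => Bool) (swapF φ)

theorem continuous_left : Continuous (left : Ty L → Ty L) :=
  continuous_pi fun φ => continuous_apply (A := fun _ : Fml L => Bool) (dX φ)

theorem continuous_right : Continuous (right : Ty L → Ty L) :=
  continuous_pi fun φ => continuous_apply (A := fun _ : Fml L => Bool) (dY φ)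

theorem isClosed_null : IsClosed {t : Ty L | Null t} :=
  isClosed_inf.inter (isClosed_inf.preimage continuous_swp)

/-- the requirement `r` for a pair type with marginals `p` and `q` -/
def Req (p q : Ty L) (r : Fml L × ℕ) : Set (Ty L) :=
  {t | left t r.1 = p r.1 ∧ right t r.1 = q r.1 ∧ (t r.1 = true → t (.exY r.2 r.1) = true) ∧
    (swp t r.1 = true → swp t (.exY r.2 r.1) = true)}

theorem isClosed_req (p q : Ty L) (r : Fml L × ℕ) : IsClosed (Req p q r) := by
  refine IsClosed.inter ?_ (IsClosed.inter ?_ (IsClosed.inter ?_ ?_))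
  · exact isClosed_coord (dX r.1) (p r.1)
  · exact isClosed_coord (dY r.1) (q r.1)
  · exact isClosed_imp_coord _ _
  · exact isClosed_imp_coord _ _

/-- Null types exist between any two nonalgebraic types. -/
theorem exists_null [∀ n, IsEmpty (L.Functions n)] [∀ n, Countable (L.Relations n)]
    {S S' : L.Structure ℕ} {a b : ℕ} (hTh : Th S = Th S') (ha : ¬ IsAlg S a)
    (hb : ¬ IsAlg S' b) :
    ∃ t ∈ Rl (Th S), t .eq = false ∧ Null t ∧ left t = ty S a a ∧ right t = ty S' b b := by
  classical
  let D : Finset (Fml L × ℕ) → Set (Ty L) := fun s =>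
    Rl (Th S) ∩ {t | t .eq = false} ∩ ⋂ r ∈ s, Req (ty S a a) (ty S' b b) r
  have hcl : ∀ s, IsClosed (D s) := fun s =>
    ((isClosed_Rl _).inter (isClosed_coord _ _)).inter
      (isClosed_biInter fun r _ => isClosed_req _ _ r)
  have hdir : Directed (· ⊇ ·) D := by
    intro s s'
    refine ⟨s ∪ s', ?_, ?_⟩
    · rintro t ⟨h1, h2⟩
      refine ⟨h1, ?_⟩
      simp only [mem_iInter] at h2 ⊢
      exact fun r hr => h2 r (Finset.mem_union_left _ hr)
    · rintro t ⟨h1, h2⟩
      refine ⟨h1, ?_⟩
      simp only [mem_iInter] at h2 ⊢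
      exact fun r hr => h2 r (Finset.mem_union_right _ hr)
  have hne : ∀ s, (D s).Nonempty := by
    intro s
    have hU := infinite_realisations (rfl : Th S = Th S) ha (s.toList.map Prod.fst)
    have hV := infinite_realisations hTh.symm hb (s.toList.map Prod.fst)
    obtain ⟨c, hc, d, hd, hcd, h1, h2⟩ := exists_good_pair S s hU hV
    refine ⟨ty S c d, ⟨⟨S, c, d, rfl, rfl⟩, ?_⟩, ?_⟩
    · show ty S c d .eq = false
      rw [ty_false_iff]
      exact hcd
    · simp only [mem_iInter]
      intro r hr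
      have hmem : r.1 ∈ s.toList.map Prod.fst := by
        rw [List.mem_map]
        exact ⟨r, Finset.mem_toList.mpr hr, rfl⟩
      refine ⟨?_, ?_, ?_, ?_⟩
      · rw [left_ty]
        exact hc _ hmem
      · rw [right_ty]
        exact hd _ hmem
      · rw [ty_iff, ty_iff]
        intro h3
        by_contra h4
        exact h1 ⟨r, hr, h3, h4⟩
      · rw [swp_ty, ty_iff, ty_iff]
        intro h3
        by_contra h4
        exact h2 ⟨r, hr, h3, h4⟩
  obtain ⟨t, ht⟩ := IsCompact.nonempty_iInter_of_directed_nonempty_isCompact_isClosed D hdir hne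
    (fun s => (hcl s).isCompact) hcl
  rw [mem_iInter] at ht
  have hreq : ∀ r : Fml L × ℕ, t ∈ Req (ty S a a) (ty S' b b) r := by
    intro r
    have := (ht {r}).2
    simp only [mem_iInter] at this
    exact this r (Finset.mem_singleton_self r)
  refine ⟨t, (ht ∅).1.1, (ht ∅).1.2, ⟨?_, ?_⟩, ?_, ?_⟩
  · intro φ hφ n
    exact (hreq (φ, n)).2.2.1 hφ
  · intro φ hφ n
    exact (hreq (φ, n)).2.2.2 hφ
  · funext φ
    exact (hreq (φ, 0)).1
  · funext φ
    exact (hreq (φ, 0)).2.1

end Pool.Agent.Helper5.CTwo
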