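import Pool.Agent.Helper5.CTwo.AlgPart
import Pool.Agent.Helper5.Multi

/-!
# Pieces of structures and their assembly
-/

set_option autoImplicit false
set_option linter.unusedSectionVars false

namespace Pool.Agent.Helper5.CTwo

open Set Filter Topology Pool.Agent.Helper6.Str Pool.Agent.Helper5.Multi

variable {L : FirstOrder.Language.{0, 0}} {M : Type}

/-- nonalgebraic elements whose type is not null -/
def link (S : L.Structure M) (a b : M) : Prop :=
  a ≠ b ∧ ¬ IsAlg S a ∧ ¬ IsAlg S b ∧ ¬ Null (ty S a b)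

/-- connection by links -/
def conn (S : L.Structure M) : M → M → Prop := Relation.ReflTransGen (link S)

theorem null_ty_symm {S : L.Structure M} {a b : M} (h : Null (ty S a b)) : Null (ty S b a) := by
  rw [← swp_ty S a b]
  exact ⟨h.2, by rw [swp_swp_ty]; exact h.1⟩

theorem link_symm {S : L.Structure M} {a b : M} (h : link S a b) : link S b a :=
  ⟨h.1.symm, h.2.2.1, h.2.1, fun h' => h.2.2.2 (null_ty_symm h')⟩

theorem conn_symm {S : L.Structure M} {a b : M} (h : conn S a b) : conn S b a := by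
  induction h with
  | refl => exact Relation.ReflTransGen.refl
  | tail _ h2 ih => exact Relation.ReflTransGen.head (link_symm h2) ih

theorem conn_trans {S : L.Structure M} {a b c : M} (h : conn S a b) (h' : conn S b c) :
    conn S a c := Relation.ReflTransGen.trans h h'

theorem not_isAlg_of_conn {S : L.Structure M} {a b : M} (ha : ¬ IsAlg S a) (h : conn S a b) :
    ¬ IsAlg S b := by
  induction h with
  | refl => exact ha
  | tail _ h2 _ => exact h2.2.2.1

theorem null_of_not_conn {S : L.Structure M} {a b : M} (ha : ¬ IsAlg S a) (hb : ¬ IsAlg S b)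
    (h : ¬ conn S a b) : Null (ty S a b) := by
  by_contra hcon
  apply h
  refine Relation.ReflTransGen.single ⟨?_, ha, hb, hcon⟩
  rintro rfl
  exact h Relation.ReflTransGen.refl

/-- A piece: a component of a structure whose algebraic part is marked by that of `S₀`. -/
structure Piece (S₀ : L.Structure ℕ) where
  str : L.Structure ℕ
  g : {x // IsAlg S₀ x} → ℕ
  th : Th str = Th S₀
  marks : Marks S₀ str g
  pt : ℕ
  nalg : ¬ IsAlg str pt

namespace Piece

variable {S₀ : L.Structure ℕ}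

/-- the elements of a piece -/
def el (p : Piece S₀) : Set ℕ := {b | conn p.str p.pt b}

theorem pt_mem (p : Piece S₀) : p.pt ∈ p.el := Relation.ReflTransGen.refl

theorem not_isAlg (p : Piece S₀) {b : ℕ} (h : b ∈ p.el) : ¬ IsAlg p.str b :=
  not_isAlg_of_conn p.nalg h

theorem conn_of_mem (p : Piece S₀) {b c : ℕ} (h : b ∈ p.el) (h' : c ∈ p.el) : conn p.str b c :=
  conn_trans (conn_symm h) h'

theorem isAlg_g (p : Piece S₀) (f : {x // IsAlg S₀ x}) : IsAlg p.str (p.g f) :=
  (p.marks.2 _).mpr ⟨f, rfl⟩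

theorem na (p : Piece S₀) {b : ℕ} (h : b ∈ p.el) : ty p.str b b ∈ NA (Th S₀) :=
  ⟨p.str, b, p.th, p.not_isAlg h, rfl⟩

/-- isomorphism of pieces over the algebraic part -/
def PEq (p p' : Piece S₀) : Prop :=
  ∃ σ : p.el ≃ p'.el, (∀ a b, ty p'.str (σ a) (σ b) = ty p.str a b) ∧
    ∀ f a, ty p'.str (p'.g f) (σ a) = ty p.str (p.g f) a

theorem PEq.refl (p : Piece S₀) : PEq p p := ⟨Equiv.refl _, fun _ _ => rfl, fun _ _ => rfl⟩

theorem PEq.symm {p p' : Piece S₀} (h : PEq p p') : PEq p' p := by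
  obtain ⟨σ, h1, h2⟩ := h
  refine ⟨σ.symm, fun a b => ?_, fun f a => ?_⟩
  · rw [← h1, Equiv.apply_symm_apply, Equiv.apply_symm_apply]
  · rw [← h2, Equiv.apply_symm_apply]

theorem PEq.trans {p p' p'' : Piece S₀} (h : PEq p p') (h' : PEq p' p'') : PEq p p'' := by
  obtain ⟨σ, h1, h2⟩ := h
  obtain ⟨σ', h1', h2'⟩ := h'
  refine ⟨σ.trans σ', fun a b => ?_, fun f a => ?_⟩
  · rw [Equiv.trans_apply, Equiv.trans_apply, h1', h1]
  · rw [Equiv.trans_apply, h2', h2]

/-- the setoid of pieces -/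
def setoid (S₀ : L.Structure ℕ) : Setoid (Piece S₀) where
  r := PEq
  iseqv := ⟨PEq.refl, PEq.symm, PEq.trans⟩

end Piece

/-- the positions -/
abbrev PosP {S₀ : L.Structure ℕ} {I : Type} (P : I → Piece S₀) : Type :=
  Pos {x // IsAlg S₀ x} Piece.el P

open Classical in
/-- the type assignment of an assembly -/
noncomputable def asmT {S₀ : L.Structure ℕ} {I : Type} (P : I → Piece S₀) :
    PosP P → PosP P → Ty L
  | .inl f, .inl f' => ty S₀ f f'
  | .inl f, .inr p => ty (P p.1.1).str ((P p.1.1).g f) p.1.2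
  | .inr p, .inl f => ty (P p.1.1).str p.1.2 ((P p.1.1).g f)
  | .inr p, .inr p' => if p.1.1 = p'.1.1 then ty (P p.1.1).str p.1.2 p'.1.2
      else nu (Th S₀) (ty (P p.1.1).str p.1.2 p.1.2) (ty (P p'.1.1).str p'.1.2 p'.1.2)

section asm

variable [∀ n, IsEmpty (L.Functions n)] [∀ n, Countable (L.Relations n)]
variable {S₀ : L.Structure ℕ} {I I' : Type} {P : I → Piece S₀} {P' : I' → Piece S₀}

theorem asmT_ne (p p' : {p : I × ℕ // p.2 ∈ (P p.1).el}) (h : p.1.1 ≠ p'.1.1) :
    Val (Th S₀) (ty (P p.1.1).str p.1.2 p.1.2) (ty (P p'.1.1).str p'.1.2 p'.1.2)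
      (asmT P (.inr p) (.inr p')) := by
  simp only [asmT, if_neg h]
  exact nu_val ((P p.1.1).na p.2) ((P p'.1.1).na p'.2)

theorem asmT_mem (x y : PosP P) : asmT P x y ∈ Rl (Th S₀) := by
  rcases x with f | p <;> rcases y with f' | p'
  · exact ⟨S₀, _, _, rfl, rfl⟩
  · exact ⟨_, _, _, (P p'.1.1).th, rfl⟩
  · exact ⟨_, _, _, (P p.1.1).th, rfl⟩
  · by_cases h : p.1.1 = p'.1.1
    · simp only [asmT, if_pos h]
      exact ⟨_, _, _, (P p.1.1).th, rfl⟩
    · exact (asmT_ne p p' h).real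

theorem coh_asmT (hU : UniqNull (Th S₀)) (P : I → Piece S₀) : Coh (asmT P) where
  real := by
    intro x y
    obtain ⟨S, a, b, -, h⟩ := asmT_mem x y
    exact ⟨S, a, b, h.symm⟩
  swap := by
    rintro (f | p) (f' | p')
    · exact (swp_ty _ _ _).symm
    · exact (swp_ty _ _ _).symm
    · exact (swp_ty _ _ _).symm
    · simp only [asmT]
      by_cases h : p.1.1 = p'.1.1
      · rw [if_pos h, if_pos h.symm, swp_ty, h]
      · rw [if_neg h, if_neg (Ne.symm h)]
        exact nu_swp hU ((P p.1.1).na p.2) ((P p'.1.1).na p'.2)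
  left := by
    rintro (f | p) (f' | p')
    · exact left_ty _ _ _
    · simp only [asmT]
      rw [left_ty, (P p'.1.1).marks.1]
    · simp only [asmT, if_true]
      exact left_ty _ _ _
    · by_cases h : p.1.1 = p'.1.1
      · simp only [asmT, if_pos h, if_true]
        exact left_ty _ _ _
      · rw [(asmT_ne p p' h).left]
        simp only [asmT, if_true]
  eq := by
    rintro (f | p) (f' | p')
    · simp only [asmT, ty_iff, Holds]
      rw [Sum.inl.injEq]
      exact Subtype.ext_iff.symm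
    · simp only [asmT, ty_iff, Holds]
      constructor
      · intro h
        exact absurd ((P p'.1.1).isAlg_g f) (by rw [h]; exact (P p'.1.1).not_isAlg p'.2)
      · intro h
        exact absurd h (by simp)
    · simp only [asmT, ty_iff, Holds]
      constructor
      · intro h
        exact absurd ((P p.1.1).isAlg_g f') (by rw [← h]; exact (P p.1.1).not_isAlg p.2)
      · intro h
        exact absurd h (by simp)
    · rw [Sum.inr.injEq, Subtype.ext_iff, Prod.ext_iff]
      by_cases h : p.1.1 = p'.1.1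
      · simp only [asmT, if_pos h, ty_iff, Holds]
        exact ⟨fun h' => ⟨h, h'⟩, fun h' => h'.2⟩
      · rw [(asmT_ne p p' h).neq]
        constructor
        · intro h'; exact absurd h' (by simp)
        · intro h'; exact absurd h'.1 h

theorem asmT_posMap (j : I → I') (hj : ∀ i, P' (j i) = P i) (hinj : Function.Injective j)
    (x y : PosP P) : asmT P' (posMap j hj x) (posMap j hj y) = asmT P x y := by
  rcases x with f | p <;> rcases y with f' | p'
  · rfl
  · simp only [posMap, asmT]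
    rw [hj]
  · simp only [posMap, asmT]
    rw [hj]
  · by_cases h : p.1.1 = p'.1.1
    · have h' : j p.1.1 = j p'.1.1 := congrArg j h
      simp only [posMap, asmT, if_pos h, if_pos h']
      rw [hj]
    · have h' : ¬ j p.1.1 = j p'.1.1 := fun h' => h (hinj h')
      simp only [posMap, asmT, if_neg h, if_neg h']
      rw [hj, hj]

/-! ### The decomposition of an assembly -/

/-- links in a type assignment -/
def linkT (T : M → M → Ty L) (x y : M) : Prop :=
  x ≠ y ∧ ¬ Alg (T x x) ∧ ¬ Alg (T y y) ∧ ¬ Null (T x y)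

/-- connection in a type assignment -/
def connT (T : M → M → Ty L) : M → M → Prop := Relation.ReflTransGen (linkT T)

theorem alg_inl (f : {x // IsAlg S₀ x}) : Alg (asmT P (.inl f) (.inl f)) :=
  (alg_ty_iff S₀ f).mpr f.2

theorem not_alg_inr (p : {p : I × ℕ // p.2 ∈ (P p.1).el}) :
    ¬ Alg (asmT P (.inr p) (.inr p)) := by
  simp only [asmT, if_true]
  rw [alg_ty_iff]
  exact (P p.1.1).not_isAlg p.2

theorem connT_index {p : {p : I × ℕ // p.2 ∈ (P p.1).el}} {y : PosP P}
    (h : connT (asmT P) (.inr p) y) : ∃ p', y = .inr p' ∧ p'.1.1 = p.1.1 := by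
  induction h with
  | refl => exact ⟨p, rfl, rfl⟩
  | tail _ h2 ih =>
    rename_i z w _
    obtain ⟨p', rfl, hp'⟩ := ih
    rcases w with f | p''
    · exact absurd (alg_inl f) h2.2.2.1
    · refine ⟨p'', rfl, ?_⟩
      rw [← hp']
      by_contra hne
      exact h2.2.2.2 (asmT_ne p' p'' (Ne.symm hne)).null

theorem connT_pt (i : I) {b : ℕ} (hb : b ∈ (P i).el) :
    connT (asmT P) (.inr ⟨(i, (P i).pt), (P i).pt_mem⟩) (.inr ⟨(i, b), hb⟩) := by
  have key : ∀ b, ∀ h : conn (P i).str (P i).pt b,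
      connT (asmT P) (.inr ⟨(i, (P i).pt), (P i).pt_mem⟩) (.inr ⟨(i, b), h⟩) := by
    intro b h
    induction h with
    | refl => exact Relation.ReflTransGen.refl
    | tail h1 h2 ih =>
      rename_i c d
      refine Relation.ReflTransGen.tail ih ⟨?_, not_alg_inr _, not_alg_inr _, ?_⟩
      · intro hcd
        rw [Sum.inr.injEq, Subtype.ext_iff, Prod.ext_iff] at hcd
        exact h2.1 hcd.2
      · simp only [asmT, if_true]
        exact h2.2.2.2
  exact key b hb

theorem linkT_symm {T : M → M → Ty L} (hC : Coh T) {x y : M} (h : linkT T x y) : linkT T y x := by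
  refine ⟨h.1.symm, h.2.2.1, h.2.1, fun h' => h.2.2.2 ?_⟩
  rw [hC.swap y x]
  obtain ⟨S, a, b, hS⟩ := hC.real y x
  rw [hS, swp_ty]
  rw [hS] at h'
  exact null_ty_symm h'

theorem connT_symm {T : M → M → Ty L} (hC : Coh T) {x y : M} (h : connT T x y) :
    connT T y x := by
  induction h with
  | refl => exact Relation.ReflTransGen.refl
  | tail _ h2 ih => exact Relation.ReflTransGen.head (linkT_symm hC h2) ih

theorem connT_iff (hU : UniqNull (Th S₀)) (p p' : {p : I × ℕ // p.2 ∈ (P p.1).el}) :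
    connT (asmT P) (.inr p) (.inr p') ↔ p'.1.1 = p.1.1 := by
  constructor
  · intro h
    obtain ⟨p'', h1, h2⟩ := connT_index h
    rw [Sum.inr.injEq] at h1
    rw [h1]
    exact h2
  · obtain ⟨⟨i, b⟩, hb⟩ := p
    obtain ⟨⟨i', b'⟩, hb'⟩ := p'
    intro h
    simp only at h
    subst h
    exact Relation.ReflTransGen.trans (connT_symm (coh_asmT hU P) (connT_pt i' hb))
      (connT_pt i' hb')

/-! ### Isomorphisms of assemblies -/

/-- gluing isomorphisms of pieces -/
theorem exists_glue (τ : I ≃ I') (h : ∀ i, Piece.PEq (P i) (P' (τ i))) :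
    ∃ E : PosP P ≃ PosP P', ∀ x y, asmT P' (E x) (E y) = asmT P x y := by
  choose σ hσ1 hσ2 using h
  let E₀ : {p : I × ℕ // p.2 ∈ (P p.1).el} → {p : I' × ℕ // p.2 ∈ (P' p.1).el} := fun p =>
    ⟨(τ p.1.1, σ p.1.1 ⟨p.1.2, p.2⟩), (σ p.1.1 ⟨p.1.2, p.2⟩).2⟩
  have hinj : Function.Injective E₀ := by
    rintro ⟨⟨i, a⟩, ha⟩ ⟨⟨i', a'⟩, ha'⟩ hE
    simp only [E₀, Subtype.mk.injEq, Prod.mk.injEq] at hE
    have h1 : i = i' := τ.injective hE.1
    subst h1
    have h2 := (σ i).injective (Subtype.ext hE.2)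
    rw [Subtype.mk.injEq] at h2
    subst h2
    rfl
  have hsurj : Function.Surjective E₀ := by
    rintro ⟨⟨i', a'⟩, ha'⟩
    obtain ⟨i, rfl⟩ := τ.surjective i'
    obtain ⟨⟨a, ha⟩, haa⟩ := (σ i).surjective ⟨a', ha'⟩
    refine ⟨⟨(i, a), ha⟩, ?_⟩
    simp only [E₀, Subtype.mk.injEq, Prod.mk.injEq, true_and]
    rw [haa]
  refine ⟨Equiv.sumCongr (Equiv.refl _) (Equiv.ofBijective E₀ ⟨hinj, hsurj⟩), ?_⟩
  have h12 : ∀ (f : {x // IsAlg S₀ x}) (p : {p : I × ℕ // p.2 ∈ (P p.1).el}),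
      ty (P' (τ p.1.1)).str ((P' (τ p.1.1)).g f) (σ p.1.1 ⟨p.1.2, p.2⟩) =
      ty (P p.1.1).str ((P p.1.1).g f) p.1.2 := fun f p => hσ2 p.1.1 f ⟨p.1.2, p.2⟩
  rintro (f | p) (f' | p')
  · rfl
  · exact h12 f p'
  · show ty (P' (τ p.1.1)).str (σ p.1.1 ⟨p.1.2, p.2⟩) ((P' (τ p.1.1)).g f') =
      ty (P p.1.1).str p.1.2 ((P p.1.1).g f')
    rw [← swp_ty, h12 f' p, swp_ty]
  · show asmT P' (.inr (E₀ p)) (.inr (E₀ p')) = _
    by_cases hpp : p.1.1 = p'.1.1
    · obtain ⟨⟨i, a⟩, ha⟩ := p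
      obtain ⟨⟨i', a'⟩, ha'⟩ := p'
      simp only at hpp
      subst hpp
      simp only [asmT, E₀, if_true]
      exact hσ1 i ⟨a, ha⟩ ⟨a', ha'⟩
    · have hpp' : ¬ τ p.1.1 = τ p'.1.1 := fun h' => hpp (τ.injective h')
      simp only [asmT, E₀, if_neg hpp, if_neg hpp']
      rw [hσ1 p.1.1 ⟨p.1.2, p.2⟩ ⟨p.1.2, p.2⟩, hσ1 p'.1.1 ⟨p'.1.2, p'.2⟩ ⟨p'.1.2, p'.2⟩]

/-- a bijection preserving types is an isomorphism of the associated structures -/
theorem relIso_relOf {N : Type} {T : M → M → Ty L} {T' : N → N → Ty L} (E : M ≃ N)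
    (h : ∀ x y, T' (E x) (E y) = T x y) : RelIso (relOf T) (relOf T') E := by
  intro n R v
  constructor
  · rintro ⟨e, e', w, rfl, hT⟩
    refine ⟨E e, E e', w, ?_, by rw [h]; exact hT⟩
    funext i
    simp only [pick, Function.comp]
    split <;> rfl
  · rintro ⟨e, e', w, hv, hT⟩
    refine ⟨E.symm e, E.symm e', w, ?_, ?_⟩
    · funext i
      apply E.injective
      have := congrFun hv i
      simp only [pick, Function.comp] at this ⊢
      rw [this]
      split <;> simp
    · rw [← h]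
      simpa using hT

theorem cnt_of_equiv {N : Type} {T : M → M → Ty L} {T' : N → N → Ty L} (E : M ≃ N)
    (h : ∀ x y, T' (E x) (E y) = T x y) (hN : Cnt T) : Cnt T' := by
  intro e φ n
  obtain ⟨x, rfl⟩ := E.surjective e
  rw [h, hN x φ n, encard_preimage_equiv E {y | T x y φ = true} {y | T' (E x) y φ = true}
    (fun y => by simp only [mem_ofPred_eq, h])]

/-- the embedding property -/
theorem relOf_emb {N : Type} {T : M → M → Ty L} {T' : N → N → Ty L} (hC : Coh T) (hC' : Coh T')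
    (J : M → N) (hJ : Function.Injective J) (h : ∀ x y, T' (J x) (J y) = T x y) (x₀ : M)
    (n : ℕ) (R : L.Relations n) (v : Fin n → M) :
    (relOf T).RelMap R v ↔ (relOf T').RelMap R (J ∘ v) := by
  classical
  have hpick : ∀ (w : Fin n → Bool) (a b : M),
      (relOf T).RelMap R (pick w a b) ↔ (relOf T').RelMap R (J ∘ pick w a b) := by
    intro w a b
    have h1 : J ∘ pick w a b = pick w (J a) (J b) := by
      funext i
      simp only [pick, Function.comp]
      split <;> rfl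
    rw [h1, atomOK_relOf hC, atomOK_relOf hC', h]
  constructor
  · rintro ⟨e, e', w, rfl, hT⟩
    exact (hpick w e e').mp ⟨e, e', w, rfl, hT⟩
  · intro hR
    obtain ⟨e, e', w, hv, hT⟩ := hR
    have hv' : ∃ a b, v = pick w a b := by
      refine ⟨if h : ∃ i, w i = false then v h.choose else x₀,
        if h : ∃ i, w i = true then v h.choose else x₀, ?_⟩
      funext i
      apply hJ
      have hi := congrFun hv i
      rcases Bool.eq_false_or_eq_true (w i) with hwi | hwi
      · have hex : ∃ i, w i = true := ⟨i, hwi⟩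
        have hc := congrFun hv hex.choose
        simp only [pick, Function.comp, hwi, hex.choose_spec, if_true] at hi hc ⊢
        rw [dif_pos hex, hi, hc]
      · have hex : ∃ i, w i = false := ⟨i, hwi⟩
        have hc := congrFun hv hex.choose
        simp only [pick, Function.comp, hwi, hex.choose_spec] at hi hc ⊢
        simp only [Bool.false_eq_true, if_false] at hi hc ⊢
        rw [dif_pos hex, hi, hc]
    obtain ⟨a, b, rfl⟩ := hv'
    exact (hpick w a b).mpr ⟨e, e', w, hv, hT⟩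

/-! ### Decoding -/

/-- bijections compatible with a map of indices -/
def Compat (E : PosP P ≃ PosP P') (τ : I → I') : Prop :=
  ∀ p : {p : I × ℕ // p.2 ∈ (P p.1).el}, ∃ (b : ℕ) (h : b ∈ (P' (τ p.1.1)).el),
    E (.inr p) = .inr ⟨(τ p.1.1, b), h⟩

theorem connT_map {N : Type} {T : M → M → Ty L} {T' : N → N → Ty L} (E : M ≃ N)
    (h : ∀ x y, T' (E x) (E y) = T x y) {x y : M} (hc : connT T x y) :
    connT T' (E x) (E y) := by
  induction hc with
  | refl => exact Relation.ReflTransGen.refl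
  | tail _ h2 ih =>
    refine Relation.ReflTransGen.tail ih ⟨fun hE => h2.1 (E.injective hE), ?_, ?_, ?_⟩
    · rw [h]; exact h2.2.1
    · rw [h]; exact h2.2.2.1
    · rw [h]; exact h2.2.2.2

theorem exists_inr (E : PosP P ≃ PosP P') (h : ∀ x y, asmT P' (E x) (E y) = asmT P x y)
    (p : {p : I × ℕ // p.2 ∈ (P p.1).el}) : ∃ p', E (.inr p) = .inr p' := by
  rcases hE : E (.inr p) with f | p'
  · exfalso
    have h1 := h (.inr p) (.inr p)
    rw [hE] at h1
    have h2 := alg_inl (P := P') f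
    rw [h1] at h2
    exact not_alg_inr p h2
  · exact ⟨p', rfl⟩

theorem exists_inl (E : PosP P ≃ PosP P') (h : ∀ x y, asmT P' (E x) (E y) = asmT P x y)
    (f : {x // IsAlg S₀ x}) : ∃ f' : {x // IsAlg S₀ x}, E (.inl f) = .inl f' := by
  rcases hE : E (.inl f) with f' | p'
  · exact ⟨f', rfl⟩
  · exfalso
    have h1 := h (.inl f) (.inl f)
    rw [hE] at h1
    have h2 := alg_inl (P := P) f
    rw [← h1] at h2
    exact not_alg_inr p' h2

theorem exists_compat (hU : UniqNull (Th S₀)) (E : PosP P ≃ PosP P')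
    (h : ∀ x y, asmT P' (E x) (E y) = asmT P x y) : ∃ τ, Compat E τ := by
  have h1 : ∀ i : I, ∃ i' : I', ∀ p : {p : I × ℕ // p.2 ∈ (P p.1).el}, p.1.1 = i →
      ∃ p', E (.inr p) = .inr p' ∧ p'.1.1 = i' := by
    intro i
    let p₀ : {p : I × ℕ // p.2 ∈ (P p.1).el} := ⟨(i, (P i).pt), (P i).pt_mem⟩
    obtain ⟨p₁, hp₁⟩ := exists_inr E h p₀
    refine ⟨p₁.1.1, fun p hp => ?_⟩
    obtain ⟨p', hp'⟩ := exists_inr E h p
    refine ⟨p', hp', ?_⟩
    have h2 : connT (asmT P) (.inr p₀) (.inr p) := (connT_iff hU p₀ p).mpr hp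
    have h3 := connT_map E h h2
    rw [hp₁, hp', connT_iff hU] at h3
    exact h3
  choose τ hτ using h1
  refine ⟨τ, fun p => ?_⟩
  obtain ⟨⟨⟨i', b⟩, hb⟩, h2, h3⟩ := hτ p.1.1 p rfl
  simp only at h3
  subst h3
  exact ⟨b, hb, h2⟩

theorem compat_inv {E : PosP P ≃ PosP P'} {τ : I → I'} {ρ : I' → I} (h1 : Compat E τ)
    (h2 : Compat E.symm ρ) (i : I) : ρ (τ i) = i := by
  obtain ⟨b, hb, h3⟩ := h1 ⟨(i, (P i).pt), (P i).pt_mem⟩
  obtain ⟨c, hc, h4⟩ := h2 ⟨(τ i, b), hb⟩
  rw [← h3, Equiv.symm_apply_apply] at h4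
  have h5 := congrArg (fun q => q.1.1) (Sum.inr.inj h4)
  exact h5.symm

theorem peq_of_compat {E : PosP P ≃ PosP P'} (h : ∀ x y, asmT P' (E x) (E y) = asmT P x y)
    {τ : I → I'} {ρ : I' → I} (h1 : Compat E τ) (h2 : Compat E.symm ρ) {i j : I}
    (hij : Piece.PEq (P i) (P j)) : Piece.PEq (P' (τ i)) (P' (τ j)) := by
  have hε : ∀ (i : I) (a : (P i).el), ∃ b : (P' (τ i)).el,
      E (.inr ⟨(i, a.1), a.2⟩) = .inr ⟨(τ i, b.1), b.2⟩ := by
    intro i a
    obtain ⟨b, hb, h3⟩ := h1 ⟨(i, a.1), a.2⟩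
    exact ⟨⟨b, hb⟩, h3⟩
  choose ε hε using hε
  have hinj : ∀ i, Function.Injective (ε i) := by
    intro i a a' haa
    have h3 : E (.inr ⟨(i, a.1), a.2⟩) = E (.inr ⟨(i, a'.1), a'.2⟩) := by
      rw [hε, hε, haa]
    have h4 := E.injective h3
    rw [Sum.inr.injEq, Subtype.mk.injEq, Prod.mk.injEq] at h4
    exact Subtype.ext h4.2
  have hsurj : ∀ i, Function.Surjective (ε i) := by
    intro i b
    obtain ⟨a, ha, h3⟩ := h2 ⟨(τ i, b.1), b.2⟩
    have h4 : ρ (τ i) = i := compat_inv h1 h2 i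
    simp only at ha h3
    have h5 : ∃ a', ∃ ha' : a' ∈ (P i).el,
        E.symm (.inr ⟨(τ i, b.1), b.2⟩) = .inr ⟨(i, a'), ha'⟩ := by
      have gen : ∀ k, k = i → (∃ a', ∃ ha' : a' ∈ (P k).el,
          E.symm (.inr ⟨(τ i, b.1), b.2⟩) = .inr ⟨(k, a'), ha'⟩) → ∃ a', ∃ ha' : a' ∈ (P i).el,
          E.symm (.inr ⟨(τ i, b.1), b.2⟩) = .inr ⟨(i, a'), ha'⟩ := by
        rintro k rfl h
        exact h
      exact gen _ h4 ⟨a, ha, h3⟩
    obtain ⟨a', ha', h6⟩ := h5
    refine ⟨⟨a', ha'⟩, ?_⟩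
    have h7 := hε i ⟨a', ha'⟩
    simp only at h7
    rw [← h6, Equiv.apply_symm_apply, Sum.inr.injEq, Subtype.mk.injEq, Prod.mk.injEq] at h7
    exact (Subtype.ext h7.2).symm
  let Eε : ∀ i, (P i).el ≃ (P' (τ i)).el := fun i => Equiv.ofBijective (ε i) ⟨hinj i, hsurj i⟩
  obtain ⟨σ, hσ1, hσ2⟩ := hij
  have ht : ∀ (i : I) (a b : (P i).el),
      ty (P' (τ i)).str (Eε i a) (Eε i b) = ty (P i).str a b := by
    intro i a b
    have h3 := h (.inr ⟨(i, a.1), a.2⟩) (.inr ⟨(i, b.1), b.2⟩)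
    rw [hε, hε] at h3
    simp only [asmT, if_true] at h3
    exact h3
  have hf : ∀ (i : I) (f f' : {x // IsAlg S₀ x}) (a : (P i).el), E (.inl f) = .inl f' →
      ty (P' (τ i)).str ((P' (τ i)).g f') (Eε i a) = ty (P i).str ((P i).g f) a := by
    intro i f f' a hff
    have h3 := h (.inl f) (.inr ⟨(i, a.1), a.2⟩)
    rw [hε, hff] at h3
    exact h3
  refine ⟨(Eε i).symm.trans (σ.trans (Eε j)), fun a b => ?_, fun f' a => ?_⟩
  · simp only [Equiv.trans_apply]
    rw [ht, hσ1, ← ht i, Equiv.apply_symm_apply, Equiv.apply_symm_apply]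
  · simp only [Equiv.trans_apply]
    have hsymm : ∀ x y, asmT P (E.symm x) (E.symm y) = asmT P' x y := by
      intro x y
      rw [← h, Equiv.apply_symm_apply, Equiv.apply_symm_apply]
    obtain ⟨f, hff⟩ := exists_inl E.symm hsymm f'
    have hff' : E (.inl f) = .inl f' := by rw [← hff, Equiv.apply_symm_apply]
    rw [hf j f f' _ hff', hσ2, ← hf i f f' _ hff', Equiv.apply_symm_apply]

theorem exists_dec (hU : UniqNull (Th S₀)) (E : PosP P ≃ PosP P')
    (h : ∀ x y, asmT P' (E x) (E y) = asmT P x y) :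
    ∃ τ : I ≃ I', ∀ i j, Piece.PEq (P i) (P j) ↔ Piece.PEq (P' (τ i)) (P' (τ j)) := by
  have hsymm : ∀ x y, asmT P (E.symm x) (E.symm y) = asmT P' x y := by
    intro x y
    rw [← h, Equiv.apply_symm_apply, Equiv.apply_symm_apply]
  obtain ⟨τ, hτ⟩ := exists_compat hU E h
  obtain ⟨ρ, hρ⟩ := exists_compat hU E.symm hsymm
  have hτ' : Compat E.symm.symm τ := hτ
  refine ⟨⟨τ, ρ, compat_inv hτ hρ, compat_inv hρ hτ'⟩, fun i j => ⟨?_, ?_⟩⟩
  · exact peq_of_compat h hτ hρ
  · intro hp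
    have := peq_of_compat (E := E.symm) hsymm hρ hτ' hp
    simp only [Equiv.coe_fn_mk] at this
    rwa [compat_inv hτ hρ, compat_inv hτ hρ] at this

/-! ### Structures are assemblies of their components -/

theorem exists_rep (hU : UniqNull (Th S₀)) (S : L.Structure ℕ) (hS : Th S = Th S₀)
    (g : {x // IsAlg S₀ x} → ℕ) (hg : Marks S₀ S g) :
    ∃ (I : Type) (_ : Countable I) (P : I → Piece S₀) (e : PosP P ≃ ℕ),
      ∀ x y, ty S (e x) (e y) = asmT P x y := by
  let st : Setoid {c // ¬ IsAlg S c} :=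
    { r := fun a b => conn S a b
      iseqv := ⟨fun _ => Relation.ReflTransGen.refl, conn_symm, conn_trans⟩ }
  let P : Quotient st → Piece S₀ := fun q =>
    { str := S, g := g, th := hS, marks := hg, pt := q.out.1, nalg := q.out.2 }
  have hmem : ∀ (q : Quotient st) (c : {c // ¬ IsAlg S c}),
      c.1 ∈ (P q).el ↔ Quotient.mk st c = q := by
    intro q c
    constructor
    · intro h
      rw [← Quotient.out_eq q]
      exact Quotient.sound (conn_symm h)
    · rintro rfl
      exact Quotient.exact (Quotient.out_eq (Quotient.mk st c))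
  let f : PosP P → ℕ := fun x => match x with
    | .inl x => g x
    | .inr p => p.1.2
  have hginj : Function.Injective g := by
    intro x y hxy
    have h1 := hg.1 x y
    rw [hxy] at h1
    have h2 : ty S (g y) (g y) .eq = true := by rw [ty_iff]; rfl
    rw [h1, ty_iff] at h2
    exact Subtype.ext h2
  have hnp : ∀ p : {p : Quotient st × ℕ // p.2 ∈ (P p.1).el}, ¬ IsAlg S p.1.2 := fun p =>
    (P p.1.1).not_isAlg p.2
  have hq : ∀ p : {p : Quotient st × ℕ // p.2 ∈ (P p.1).el},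
      Quotient.mk st ⟨p.1.2, hnp p⟩ = p.1.1 := fun p => (hmem p.1.1 ⟨p.1.2, hnp p⟩).mp p.2
  have hinj : Function.Injective f := by
    rintro (x | p) (y | p') hxy
    · exact congrArg _ (hginj hxy)
    · exfalso
      have h1 : g x = p'.1.2 := hxy
      exact hnp p' (by rw [← h1]; exact (hg.2 _).mpr ⟨x, rfl⟩)
    · exfalso
      have h1 : p.1.2 = g y := hxy
      exact hnp p (by rw [h1]; exact (hg.2 _).mpr ⟨y, rfl⟩)
    · have h1 : p.1.2 = p'.1.2 := hxy
      have h2 : p.1.1 = p'.1.1 := by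
        rw [← hq p, ← hq p']
        congr 1
        exact Subtype.ext h1
      exact congrArg _ (Subtype.ext (Prod.ext h2 h1))
  have hsurj : Function.Surjective f := by
    intro c
    by_cases hc : IsAlg S c
    · obtain ⟨x, hx⟩ := (hg.2 c).mp hc
      exact ⟨.inl x, hx⟩
    · exact ⟨.inr ⟨(Quotient.mk st ⟨c, hc⟩, c), (hmem _ ⟨c, hc⟩).mpr rfl⟩, rfl⟩
  refine ⟨Quotient st, inferInstance, P, Equiv.ofBijective f ⟨hinj, hsurj⟩, ?_⟩
  rintro (x | p) (y | p')
  · exact hg.1 x y
  · rfl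
  · rfl
  · show ty S p.1.2 p'.1.2 = _
    by_cases hpp : p.1.1 = p'.1.1
    · simp only [asmT, if_pos hpp]
      rfl
    · simp only [asmT, if_neg hpp]
      apply nu_unique hU
      have hnc : ¬ conn S p.1.2 p'.1.2 := by
        intro hcon
        apply hpp
        rw [← hq p, ← hq p']
        exact Quotient.sound hcon
      refine ⟨⟨S, _, _, hS, rfl⟩, null_of_not_conn (hnp p) (hnp p') hnc, ?_, left_ty _ _ _,
        right_ty _ _ _⟩
      rw [ty_false_iff]
      intro h1
      apply hnc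
      have h2 : p.1.2 = p'.1.2 := h1
      rw [h2]
      exact Relation.ReflTransGen.refl

end asm

end Pool.Agent.Helper5.CTwo
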