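import Pool.Agent.Helper5.CTwo.Null

/-!
# Gluing copies of a structure with null types
-/

set_option autoImplicit false

namespace Pool.Agent.Helper5.CTwo

open Set Filter Topology Pool.Agent.Helper6.Str

variable {L : FirstOrder.Language.{0, 0}} {M N P : Type}

/-- A type assignment given by partial copies of structures together with infinite types has the
right counts. -/
theorem cnt_of_sheets {T : M → M → Ty L} (hC : Coh T)
    (h : ∀ e, ∃ (S : L.Structure ℕ) (a : ℕ) (g : ℕ → M), Function.Injective g ∧
      T e e = ty S a a ∧ (∀ d, T e (g d) = ty S a d) ∧ ∀ e' ∉ range g, Inf (T e e')) :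
    Cnt T := by
  intro e φ n
  obtain ⟨S, a, g, hg, h1, h2, h3⟩ := h e
  rw [h1, ty_iff]
  simp only [Holds]
  have hsub : g '' {c | Holds S φ a c} ⊆ {e' | T e e' φ = true} := by
    rintro _ ⟨c, hc, rfl⟩
    simp only [mem_ofPred_eq]
    rw [h2 c, ty_iff]
    exact hc
  have hle : {c | Holds S φ a c}.encard ≤ {e' | T e e' φ = true}.encard := by
    rw [← hg.encard_image]
    exact Set.encard_le_encard hsub
  by_cases hall : {e' | T e e' φ = true} ⊆ range g
  · have : {e' | T e e' φ = true} = g '' {c | Holds S φ a c} := by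
      refine Subset.antisymm ?_ hsub
      intro e' he'
      obtain ⟨c, rfl⟩ := hall he'
      refine ⟨c, ?_, rfl⟩
      simp only [mem_ofPred_eq] at he' ⊢
      rw [h2 c, ty_iff] at he'
      exact he'
    rw [this, hg.encard_image]
  · obtain ⟨e', he', hr⟩ := not_subset.mp hall
    have hI := h3 e' hr φ he'
    have hinf : {c | Holds S φ a c}.Infinite := by
      rw [← le_encard_all_iff]
      intro m
      have h4 := hI m
      have h5 : T e e (.exY m φ) = true := by
        obtain ⟨S₀, c, d, hcd⟩ := hC.real e e'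
        rw [← hC.left e e', hcd, left_ty, ty_iff]
        rw [hcd, ty_iff] at h4
        exact h4
      rw [h1, ty_iff] at h5
      exact h5
    have h6 : {c | Holds S φ a c}.encard = ⊤ := hinf.encard_eq
    rw [h6] at hle ⊢
    rw [top_le_iff.mp hle]

/-- the theory of a model of a type assignment is the theory of the types -/
theorem Th_of_types {S : L.Structure M} {S' : L.Structure N} {a b : M} {c d : N}
    (h : ty S a b = ty S' c d) : Th S = Th S' := by
  rw [← thy_ty S a b, h, thy_ty]

section sheets

variable (S : L.Structure ℕ)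

/-- the carrier: algebraic elements and infinitely many copies of the others -/
abbrev Car : Type := {x : ℕ // IsAlg S x} ⊕ ({x : ℕ // ¬ IsAlg S x} × ℕ)

/-- A cross function prescribes null types between different sheets. -/
structure Cross (X : ({x : ℕ // ¬ IsAlg S x} × ℕ) → ({x : ℕ // ¬ IsAlg S x} × ℕ) → Ty L) :
    Prop where
  real : ∀ e e', e.2 ≠ e'.2 → X e e' ∈ Rl (Th S)
  null : ∀ e e', e.2 ≠ e'.2 → Null (X e e')
  neq : ∀ e e', e.2 ≠ e'.2 → X e e' .eq = false
  left : ∀ e e', e.2 ≠ e'.2 → left (X e e') = ty S e.1 e.1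
  swap : ∀ e e', e.2 ≠ e'.2 → X e' e = swp (X e e')

variable {S}

/-- the type assignment -/
noncomputable def sheetT
    (X : ({x : ℕ // ¬ IsAlg S x} × ℕ) → ({x : ℕ // ¬ IsAlg S x} × ℕ) → Ty L) :
    Car S → Car S → Ty L
  | .inl f, .inl f' => ty S f f'
  | .inl f, .inr e => ty S f e.1
  | .inr e, .inl f => ty S e.1 f
  | .inr e, .inr e' => if e.2 = e'.2 then ty S e.1 e'.1 else X e e'

theorem coh_sheetT {X : ({x : ℕ // ¬ IsAlg S x} × ℕ) → ({x : ℕ // ¬ IsAlg S x} × ℕ) → Ty L}
    (hX : Cross S X) : Coh (sheetT X) where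
  real := by
    rintro (f | e) (f' | e')
    · exact ⟨S, f, f', rfl⟩
    · exact ⟨S, f, e'.1, rfl⟩
    · exact ⟨S, e.1, f', rfl⟩
    · simp only [sheetT]
      split
      · exact ⟨S, e.1, e'.1, rfl⟩
      · rename_i h
        obtain ⟨S', a, b, _, h'⟩ := hX.real e e' h
        exact ⟨S', a, b, h'.symm⟩
  swap := by
    rintro (f | e) (f' | e')
    · exact (swp_ty _ _ _).symm
    · exact (swp_ty _ _ _).symm
    · exact (swp_ty _ _ _).symm
    · simp only [sheetT]
      by_cases h : e.2 = e'.2
      · rw [if_pos h, if_pos h.symm, swp_ty]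
      · rw [if_neg h, if_neg (Ne.symm h), hX.swap e e' h]
  left := by
    rintro (f | e) (f' | e')
    · exact left_ty _ _ _
    · exact left_ty _ _ _
    · simp only [sheetT, if_true]
      exact left_ty _ _ _
    · simp only [sheetT, if_true]
      by_cases h : e.2 = e'.2
      · rw [if_pos h]
        exact left_ty _ _ _
      · rw [if_neg h]
        exact hX.left e e' h
  eq := by
    rintro (f | e) (f' | e')
    · simp only [sheetT, ty_iff, Holds]
      rw [Sum.inl.injEq]
      exact Subtype.ext_iff.symm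
    · simp only [sheetT, ty_iff, Holds]
      constructor
      · intro h
        exact absurd f.2 (by rw [h]; exact e'.1.2)
      · intro h
        exact absurd h (by simp)
    · simp only [sheetT, ty_iff, Holds]
      constructor
      · intro h
        exact absurd f'.2 (by rw [← h]; exact e.1.2)
      · intro h
        exact absurd h (by simp)
    · simp only [sheetT]
      rw [Sum.inr.injEq, Prod.ext_iff]
      by_cases h : e.2 = e'.2
      · rw [if_pos h, ty_iff]
        simp only [Holds]
        constructor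
        · intro h'
          exact ⟨Subtype.ext h', h⟩
        · intro h'
          exact congrArg Subtype.val h'.1
      · rw [if_neg h, hX.neq e e' h]
        constructor
        · intro h'; exact absurd h' (by simp)
        · intro h'; exact absurd h'.2 h

open Classical in
/-- the copy number `i` of the structure -/
noncomputable def sheetMap (S : L.Structure ℕ) (i : ℕ) (d : ℕ) : Car S :=
  if h : IsAlg S d then .inl ⟨d, h⟩ else .inr (⟨d, h⟩, i)

theorem sheetMap_alg {i d : ℕ} (h : IsAlg S d) : sheetMap S i d = .inl ⟨d, h⟩ := by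
  simp [sheetMap, h]

theorem sheetMap_nalg {i d : ℕ} (h : ¬ IsAlg S d) : sheetMap S i d = .inr (⟨d, h⟩, i) := by
  simp [sheetMap, h]

theorem sheetMap_injective (i : ℕ) : Function.Injective (sheetMap S i) := by
  intro c d h
  by_cases hc : IsAlg S c <;> by_cases hd : IsAlg S d
  · rw [sheetMap_alg hc, sheetMap_alg hd] at h
    simpa using h
  · rw [sheetMap_alg hc, sheetMap_nalg hd] at h
    simp at h
  · rw [sheetMap_nalg hc, sheetMap_alg hd] at h
    simp at h
  · rw [sheetMap_nalg hc, sheetMap_nalg hd] at h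
    simpa using h

theorem cnt_sheetT {X : ({x : ℕ // ¬ IsAlg S x} × ℕ) → ({x : ℕ // ¬ IsAlg S x} × ℕ) → Ty L}
    (hX : Cross S X) : Cnt (sheetT X) := by
  refine cnt_of_sheets (coh_sheetT hX) ?_
  rintro (f | e)
  · refine ⟨S, f, sheetMap S 0, sheetMap_injective 0, rfl, fun d => ?_, ?_⟩
    · by_cases hd : IsAlg S d
      · rw [sheetMap_alg hd]; rfl
      · rw [sheetMap_nalg hd]; rfl
    · rintro (f' | e') he'
      · exact absurd ⟨f'.1, by rw [sheetMap_alg f'.2]⟩ he'
      · exact inf_of_alg f.2 e'.1.2
  · refine ⟨S, e.1, sheetMap S e.2, sheetMap_injective _, ?_, fun d => ?_, ?_⟩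
    · simp [sheetT]
    · by_cases hd : IsAlg S d
      · rw [sheetMap_alg hd]; rfl
      · rw [sheetMap_nalg hd]
        simp [sheetT]
    · rintro (f' | e') he'
      · exact absurd ⟨f'.1, by rw [sheetMap_alg f'.2]⟩ he'
      · have hne : e.2 ≠ e'.2 := by
          intro h
          apply he'
          refine ⟨e'.1, ?_⟩
          rw [sheetMap_nalg e'.1.2, h]
        simp only [sheetT, if_neg hne]
        exact (hX.null e e' hne).1

theorem exists_sheet_model [∀ n, IsEmpty (L.Functions n)] {a : ℕ} (ha : ¬ IsAlg S a)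
    {X : ({x : ℕ // ¬ IsAlg S x} × ℕ) → ({x : ℕ // ¬ IsAlg S x} × ℕ) → Ty L}
    (hX : Cross S X) :
    ∃ (S' : L.Structure ℕ) (e : Car S ≃ ℕ), Th S' = Th S ∧
      ∀ x y, ty S' (e x) (e y) = sheetT X x y := by
  have hinf : Infinite (Car S) := by
    refine Infinite.of_injective (fun n : ℕ => (Sum.inr (⟨a, ha⟩, n) : Car S)) ?_
    intro i j hij
    simpa using hij
  obtain ⟨S', e, _, he⟩ := exists_model (coh_sheetT hX) (cnt_sheetT hX)
  refine ⟨S', e, ?_, he⟩
  have h1 := he (.inr (⟨a, ha⟩, 0)) (.inr (⟨a, ha⟩, 0))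
  have h2 : sheetT X (.inr (⟨a, ha⟩, 0)) (.inr (⟨a, ha⟩, 0)) = ty S a a := by
    simp [sheetT]
  rw [h2] at h1
  exact Th_of_types h1

end sheets

end Pool.Agent.Helper5.CTwo
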